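import Pool.Agent.V11331.GC.Path3

set_option autoImplicit false
set_option linter.unusedSectionVars false
set_option linter.unusedVariables false

open MeasureTheory ProbabilityTheory Filter Topology WithLp
open scoped ENNReal NNReal

namespace Pool.Agent.V11331.GC

lemma ball_one (v : ℝ≥0) (hv : v ≠ 0) {c1 : ℝ} (hc : 0 < c1) (f R : ℝ) :
    gaussianReal 0 v {x | |c1 * x + f| ≤ R} ≤ ENNReal.ofReal (R / (c1 * Real.sqrt v)) := by
  have hvp : 0 < (v : ℝ) := by
    have : 0 < v := pos_iff_ne_zero.2 hv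
    exact_mod_cast this
  have hsv : 0 < Real.sqrt v := Real.sqrt_pos.2 hvp
  have hset : {x : ℝ | |c1 * x + f| ≤ R} = Set.Icc ((-R - f) / c1) ((R - f) / c1) := by
    ext x
    simp only [Set.mem_ofPred_eq, Set.mem_Icc, abs_le]
    rw [div_le_iff₀ hc, le_div_iff₀ hc]
    constructor <;> rintro ⟨h1, h2⟩ <;> constructor <;> linarith
  have h1 := gauss_le 0 hv {x | |c1 * x + f| ≤ R}
  refine h1.trans ?_
  rw [Measure.smul_apply, hset, Real.volume_Icc, smul_eq_mul]
  rw [← ENNReal.ofReal_mul (by positivity)]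
  refine (ENNReal.ofReal_le_ofReal_iff' ).2 ?_
  rcases le_or_gt R 0 with hR | hR
  · right
    have h2 : (R - f) / c1 - (-R - f) / c1 = 2 * R / c1 := by ring
    rw [h2]
    have h3 : 0 ≤ (Real.sqrt (2 * Real.pi * v))⁻¹ := by positivity
    exact mul_nonpos_of_nonneg_of_nonpos h3 (div_nonpos_of_nonpos_of_nonneg (by linarith) hc.le)
  · left
    have h2 : (R - f) / c1 - (-R - f) / c1 = 2 * R / c1 := by ring
    rw [h2, Real.sqrt_mul (by positivity)]
    have h3 : 2 ≤ Real.sqrt (2 * Real.pi) := by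
      refine Real.le_sqrt_of_sq_le ?_
      have := Real.pi_gt_three
      linarith
    have h4 : (Real.sqrt (2 * Real.pi) * Real.sqrt v)⁻¹ ≤ (2 * Real.sqrt v)⁻¹ := by
      gcongr
    calc (Real.sqrt (2 * Real.pi) * Real.sqrt v)⁻¹ * (2 * R / c1)
        ≤ (2 * Real.sqrt v)⁻¹ * (2 * R / c1) := by gcongr
      _ = R / (c1 * Real.sqrt v) := by field_simp

section ball

variable {κ : Type} [Fintype κ]

/-- Replace the coordinates `(k, ·)`. -/
noncomputable def glue (k : ℕ) (a : κ → ℝ) (b : {p : ℕ × κ // p.1 ≠ k} → ℝ) : ℕ × κ → ℝ :=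
  fun p => if h : p.1 = k then a p.2 else b ⟨p, h⟩

lemma meas_glue (k : ℕ) : Measurable (fun q : (κ → ℝ) × ({p : ℕ × κ // p.1 ≠ k} → ℝ) =>
    glue k q.1 q.2) := by
  refine measurable_pi_iff.2 fun p => ?_
  unfold glue
  by_cases h : p.1 = k
  · simp only [h, dite_true]
    exact (measurable_pi_apply p.2).comp measurable_fst
  · simp only [h, dite_false]
    exact (measurable_pi_apply _).comp measurable_snd

lemma gam_glue (k : ℕ) :
    ((gam κ).prod (gam {p : ℕ × κ // p.1 ≠ k})).map (fun q => glue k q.1 q.2) =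
      gam (ℕ × κ) := by
  have h1 := map_pair (ι := ℕ × κ) (A := κ) (B := {p : ℕ × κ // p.1 ≠ k}) (fun a => (k, a))
    (fun p => p.1) (fun a b h => by simpa using h) Subtype.val_injective
    (fun a b h => b.2 (by rw [← h]))
  rw [← h1, Measure.map_map (meas_glue k) ((meas_comp _).prodMk (meas_comp _))]
  have : (fun q : (κ → ℝ) × ({p : ℕ × κ // p.1 ≠ k} → ℝ) => glue k q.1 q.2) ∘
      (fun ω : ℕ × κ → ℝ => ((fun a => ω (k, a)), (fun b : {p : ℕ × κ // p.1 ≠ k} => ω b.1))) =
      id := by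
    ext ω p
    simp only [Function.comp_apply, glue, id]
    split_ifs with h
    · rw [← h]
    · rfl
  rw [this, Measure.map_id]

/-- Small ball estimate: integrate out the coordinates `(k, ·)`. -/
lemma ball_k (k : ℕ) (z : EuclideanSpace ℝ κ) (hz : z ≠ 0) {c1 : ℝ} (hc : 0 < c1)
    {f R : (ℕ × κ → ℝ) → ℝ} (hf : Measurable f) (hR : Measurable R)
    (hf' : ∀ a a' b, f (glue k a b) = f (glue k a' b))
    (hR' : ∀ a a' b, R (glue k a b) = R (glue k a' b)) :
    gam (ℕ × κ) {η | |c1 * ∑ j, η (k, j) * z j + f η| ≤ R η} ≤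
      ∫⁻ η, ENNReal.ofReal (R η / (c1 * ‖z‖)) ∂(gam (ℕ × κ)) := by
  have hzp : 0 < ‖z‖ := norm_pos_iff.2 hz
  have hv : (‖z‖ ^ 2).toNNReal ≠ 0 := by
    rw [Ne, Real.toNNReal_eq_zero, not_le]; positivity
  have hm : MeasurableSet {η : ℕ × κ → ℝ | |c1 * ∑ j, η (k, j) * z j + f η| ≤ R η} := by
    refine measurableSet_le ?_ hR
    have : Measurable (fun η : ℕ × κ → ℝ => ∑ j, η (k, j) * z j) := by fun_prop
    exact ((this.const_mul c1).add hf).norm
  have hmR : Measurable (fun η : ℕ × κ → ℝ => ENNReal.ofReal (R η / (c1 * ‖z‖))) :=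
    (hR.div_const _).ennreal_ofReal
  have hmc : Measurable (fun q : (κ → ℝ) × ({p : ℕ × κ // p.1 ≠ k} → ℝ) =>
      ENNReal.ofReal (R (glue k q.1 q.2) / (c1 * ‖z‖))) := hmR.comp (meas_glue k)
  rw [← gam_glue k, Measure.map_apply (meas_glue k) hm, Measure.prod_apply_symm (meas_glue k hm),
    lintegral_map hmR (meas_glue k), lintegral_prod_symm' _ hmc]
  refine lintegral_mono fun b => ?_
  have h1 : (fun a : κ → ℝ => (a, b)) ⁻¹' ((fun q : (κ → ℝ) × ({p : ℕ × κ // p.1 ≠ k} → ℝ) =>
      glue k q.1 q.2) ⁻¹' {η : ℕ × κ → ℝ | |c1 * ∑ j, η (k, j) * z j + f η| ≤ R η}) =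
      (fun a : κ → ℝ => ∑ j, a j * z j) ⁻¹' {x | |c1 * x + f (glue k 0 b)| ≤ R (glue k 0 b)} := by
    ext a
    simp only [Set.mem_preimage, Set.mem_ofPred_eq]
    rw [hf' a 0 b, hR' a 0 b]
    have : ∀ j, glue k a b (k, j) = a j := fun j => by simp [glue]
    simp only [this]
  have h2 : ∫⁻ a, ENNReal.ofReal (R (glue k a b) / (c1 * ‖z‖)) ∂(gam κ) =
      ENNReal.ofReal (R (glue k 0 b) / (c1 * ‖z‖)) := by
    have : ∀ a, R (glue k a b) = R (glue k 0 b) := fun a => hR' a 0 b
    simp only [this]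
    simp
  rw [h1, h2]
  have hms : MeasurableSet {x : ℝ | |c1 * x + f (glue k 0 b)| ≤ R (glue k 0 b)} :=
    measurableSet_le (by fun_prop) measurable_const
  rw [← Measure.map_apply (by fun_prop) hms, gam_lin]
  refine (ball_one _ hv hc _ _).trans ?_
  rw [Real.coe_toNNReal _ (by positivity), Real.sqrt_sq hzp.le]

lemma abs_lin (z : EuclideanSpace ℝ κ) (hz : z ≠ 0) (s : ℕ) :
    ∫⁻ η, ENNReal.ofReal |∑ j, η (s, j) * z j| ∂(gam (ℕ × κ)) ≤ ENNReal.ofReal ‖z‖ := by
  have hzp : 0 < ‖z‖ := norm_pos_iff.2 hz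
  have h1 : ∫⁻ η, ENNReal.ofReal |∑ j, η (s, j) * z j| ∂(gam (ℕ × κ)) =
      ∫⁻ x, ENNReal.ofReal |x| ∂(gaussianReal 0 (‖z‖ ^ 2).toNNReal) := by
    rw [← gam_lin z, lintegral_map (by fun_prop) (by fun_prop),
      ← gam_map_inj (ι := ℕ × κ) (fun a : κ => (s, a)) (fun a b h => by simpa using h),
      lintegral_map (by fun_prop) (meas_comp _)]
  rw [h1]
  have h2 : ∀ x : ℝ, |x| ≤ x ^ 2 / (2 * ‖z‖) + ‖z‖ / 2 := by
    intro x
    have h3 : 0 ≤ (|x| - ‖z‖) ^ 2 := sq_nonneg _
    have h4 : x ^ 2 = |x| ^ 2 := (sq_abs x).symm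
    rw [h4, div_add_div _ _ (by positivity) two_ne_zero, le_div_iff₀ (by positivity)]
    nlinarith
  have hint : Integrable (fun x : ℝ => x ^ 2) (gaussianReal 0 (‖z‖ ^ 2).toNNReal) :=
    (memLp_id_gaussianReal' 2 (by simp)).integrable_sq
  have h5 : ∫ x, x ^ 2 ∂(gaussianReal 0 (‖z‖ ^ 2).toNNReal) = ‖z‖ ^ 2 := by
    have h6 := variance_id_gaussianReal (μ := 0) (v := (‖z‖ ^ 2).toNNReal)
    rw [variance_of_integral_eq_zero (by fun_prop) (by simp)] at h6
    simp only [id] at h6
    rw [h6, Real.coe_toNNReal _ (by positivity)]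
  have h7 : Integrable (fun x : ℝ => x ^ 2 / (2 * ‖z‖) + ‖z‖ / 2)
      (gaussianReal 0 (‖z‖ ^ 2).toNNReal) := (hint.div_const _).add (integrable_const _)
  calc ∫⁻ x, ENNReal.ofReal |x| ∂(gaussianReal 0 (‖z‖ ^ 2).toNNReal)
      ≤ ∫⁻ x, ENNReal.ofReal (x ^ 2 / (2 * ‖z‖) + ‖z‖ / 2) ∂(gaussianReal 0 (‖z‖ ^ 2).toNNReal) :=
        lintegral_mono fun x => ENNReal.ofReal_le_ofReal (h2 x)
    _ = ENNReal.ofReal (∫ x, (x ^ 2 / (2 * ‖z‖) + ‖z‖ / 2)
          ∂(gaussianReal 0 (‖z‖ ^ 2).toNNReal)) :=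
        (ofReal_integral_eq_lintegral_ofReal h7 (Eventually.of_forall fun x => by positivity)).symm
    _ ≤ ENNReal.ofReal ‖z‖ := by
        refine ENNReal.ofReal_le_ofReal ?_
        have h8 : ∫ x, (x ^ 2 / (2 * ‖z‖) + ‖z‖ / 2) ∂(gaussianReal 0 (‖z‖ ^ 2).toNNReal) =
            ∫ x, x ^ 2 / (2 * ‖z‖) ∂(gaussianReal 0 (‖z‖ ^ 2).toNNReal) +
            ∫ _x : ℝ, ‖z‖ / 2 ∂(gaussianReal 0 (‖z‖ ^ 2).toNNReal) :=
          integral_add (hint.div_const _) (integrable_const _)
        rw [h8, integral_div, h5]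
        simp
        field_simp
        linarith

/-- The mean process. -/
noncomputable def mm (m0 c1 : ℝ) (z : ℕ → EuclideanSpace ℝ κ) (η : ℕ × κ → ℝ) (t : ℕ) : ℝ :=
  m0 + c1 * ∑ s ∈ Finset.range t, ∑ j, η (s, j) * z s j

lemma meas_mm (m0 c1 : ℝ) (z : ℕ → EuclideanSpace ℝ κ) (t : ℕ) :
    Measurable (fun η => mm m0 c1 z η t) := by
  unfold mm
  fun_prop

lemma sum_glue (z : ℕ → EuclideanSpace ℝ κ) (k : ℕ) (I : Finset ℕ) (hk : k ∉ I)
    (F : ℕ → ℝ → ℝ) (a a' : κ → ℝ) (b : {p : ℕ × κ // p.1 ≠ k} → ℝ) :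
    ∑ s ∈ I, F s (∑ j, glue k a b (s, j) * z s j) = ∑ s ∈ I, F s (∑ j, glue k a' b (s, j) * z s j) := by
  refine Finset.sum_congr rfl fun s hs => ?_
  have hne : s ≠ k := fun h => hk (h ▸ hs)
  have : ∀ j, glue k a b (s, j) = glue k a' b (s, j) := fun j => by simp [glue, hne]
  simp only [this]

/-- Small ball estimate for the mean process with an error that depends on later times. -/
lemma ball_mm {m0 c1 : ℝ} (hc : 0 < c1) (z : ℕ → EuclideanSpace ℝ κ) (k t : ℕ) (hkt : k < t)
    (hz : z k ≠ 0) (a K : ℝ) (I : Finset ℕ) (hI : k ∉ I) (w : ℝ) :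
    gam (ℕ × κ) {η | |mm m0 c1 z η t + a| ≤ K + (∑ s ∈ I, c1 * |∑ j, η (s, j) * z s j| + w)} ≤
      ∫⁻ η, ENNReal.ofReal ((K + (∑ s ∈ I, c1 * |∑ j, η (s, j) * z s j| + w)) / (c1 * ‖z k‖))
        ∂(gam (ℕ × κ)) := by
  have h1 : ∀ η : ℕ × κ → ℝ, mm m0 c1 z η t + a = c1 * ∑ j, η (k, j) * z k j +
      (m0 + a + c1 * ∑ s ∈ (Finset.range t).erase k, ∑ j, η (s, j) * z s j) := by
    intro η
    unfold mm
    rw [← Finset.add_sum_erase _ _ (Finset.mem_range.2 hkt)]
    ring
  simp only [h1]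
  refine ball_k k (z k) hz hc (by fun_prop) (by fun_prop) ?_ ?_
  · intro a a' b
    rw [sum_glue z k _ (Finset.notMem_erase _ _) (fun _ x => x) a a' b]
  · intro a a' b
    rw [sum_glue z k I hI (fun _ x => c1 * |x|) a a' b]

open Classical in
/-- The times after `g` and before the next time in `[1, ∞)`. -/
noncomputable def blk (s : ℕ → ℝ) (g T : ℕ) : Finset ℕ :=
  (Finset.Ioo g T).filter fun t => ∀ i, g < i → i ≤ t → s i < 1

lemma mem_blk {s : ℕ → ℝ} {g T t : ℕ} :
    t ∈ blk s g T ↔ (g < t ∧ t < T) ∧ ∀ i, g < i → i ≤ t → s i < 1 := by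
  unfold blk
  simp only [Finset.mem_filter, Finset.mem_Ioo]

lemma rm_cases (s : ℕ → ℝ) (g : ℕ) : rm 1 s g = 1 ∨ ∃ k < g, rm 1 s g = s k := by
  induction g with
  | zero => exact Or.inl rfl
  | succ g ih =>
    rw [rm]
    rcases le_total (rm 1 s g) (s g) with h | h
    · right
      exact ⟨g, by omega, max_eq_right h⟩
    · rw [max_eq_left h]
      rcases ih with h1 | ⟨k, hk, h1⟩
      · exact Or.inl h1
      · exact Or.inr ⟨k, by omega, h1⟩

lemma one_le_rm (s : ℕ → ℝ) (g : ℕ) : 1 ≤ rm 1 s g := by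
  induction g with
  | zero => exact le_rfl
  | succ g ih => exact ih.trans (le_max_left _ _)

lemma sum_blk (s : ℕ → ℝ) (g T : ℕ) :
    ∑ t ∈ blk s g T, ENNReal.ofReal (s t) ≤ Zf (fun k => s (k + g + 1)) := by
  unfold Zf
  have hinj : ∀ t ∈ blk s g T, g + 1 ≤ t := by
    intro t ht
    have := (mem_blk.1 ht).1.1
    omega
  calc ∑ t ∈ blk s g T, ENNReal.ofReal (s t)
      = ∑ k ∈ (blk s g T).image (fun t => t - (g + 1)), ENNReal.ofReal (s (k + g + 1)) := by
        rw [Finset.sum_image]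
        · refine Finset.sum_congr rfl fun t ht => ?_
          have := hinj t ht
          congr 2
          omega
        · intro a ha b hb hab
          have h1 := hinj a ha
          have h2 := hinj b hb
          simp only at hab
          omega
    _ = ∑ k ∈ (blk s g T).image (fun t => t - (g + 1)),
        (if ∀ i ≤ k, s (i + g + 1) < 1 then ENNReal.ofReal (s (k + g + 1)) else 0) := by
        refine Finset.sum_congr rfl fun k hk => ?_
        obtain ⟨t, ht, rfl⟩ := Finset.mem_image.1 hk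
        have h1 := hinj t ht
        rw [if_pos]
        intro i hi
        exact (mem_blk.1 ht).2 (i + g + 1) (by omega) (by omega)
    _ ≤ _ := ENNReal.sum_le_tsum _

variable {z : ℕ → EuclideanSpace ℝ κ} {s : ℕ → ℝ}

/-- Fixed path: the mean diverges. -/
theorem mean_div {m0 c1 : ℝ} (hc : 0 < c1) (hs : ∀ t, s t = ‖z t‖) (hz : ∀ t, z t ≠ 0)
    (h1 : ∑' g, tm 1 s g < ∞) (h2 : ∀ N, ∃ t ≥ N, 1 ≤ s t) (a : ℕ → ℝ)
    (ha : ∀ t, |a t| ≤ s t) :
    ∀ᵐ η ∂(gam (ℕ × κ)), Tendsto (fun t => |mm m0 c1 z η t + a t|) atTop atTop := by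
  have hsp : ∀ t, 0 < s t := fun t => by rw [hs]; exact norm_pos_iff.2 (hz t)
  choose nx hnx1 hnx2 using h2
  -- the error in a block
  set Y : ℕ → (ℕ × κ → ℝ) → ℝ := fun g η =>
    ∑ r ∈ blk s g (nx (g + 1)), c1 * |∑ j, η (r, j) * z r j| + ∑ r ∈ blk s g (nx (g + 1)), s r
    with hY
  have main : ∀ K : ℕ, ∀ᵐ η ∂(gam (ℕ × κ)), ∀ᶠ t in atTop, (K : ℝ) ≤ |mm m0 c1 z η t + a t| := by
    intro K
    have hK0 : (0 : ℝ) ≤ K := Nat.cast_nonneg K
    -- the two bad events
    set A : ℕ → Set (ℕ × κ → ℝ) := fun g =>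
      if 1 ≤ s g ∧ 0 < g then {η | |mm m0 c1 z η g + a g| ≤ K} else ∅ with hA
    set Bd : ℕ → Set (ℕ × κ → ℝ) := fun g =>
      if 1 ≤ s g then {η | |mm m0 c1 z η (g + 1) + 0| ≤ K + Y g η} else ∅ with hBd
    have hAs : ∑' g, gam (ℕ × κ) (A g) ≠ ∞ := by
      refine ne_top_of_le_ne_top
        (ENNReal.mul_ne_top (ENNReal.ofReal_ne_top (r := 1 + K / c1)) h1.ne) ?_
      rw [← ENNReal.tsum_mul_left]
      refine ENNReal.tsum_le_tsum fun g => ?_
      simp only [hA]
      by_cases hg : 1 ≤ s g ∧ 0 < g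
      · rw [if_pos hg]
        have htm : ENNReal.ofReal ((rm 1 s g)⁻¹) ≤ tm 1 s g := by
          unfold tm
          rw [if_pos hg.1]
          exact le_mul_of_one_le_left' (le_add_right le_rfl)
        refine le_trans ?_ (mul_le_mul_right htm _)
        rw [← ENNReal.ofReal_mul (by positivity)]
        rcases rm_cases s g with hr | ⟨k, hk, hr⟩
        · rw [hr]
          refine prob_le_one.trans ?_
          rw [ENNReal.one_le_ofReal]
          have : 0 ≤ (K : ℝ) / c1 := by positivity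
          simp
          exact this
        · have hb := ball_mm (m0 := m0) hc z k g hk (hz k) (a g) K ∅ (Finset.notMem_empty _) 0
          simp only [Finset.sum_empty, add_zero] at hb
          refine hb.trans ?_
          simp only [lintegral_const, measure_univ, mul_one]
          refine ENNReal.ofReal_le_ofReal ?_
          rw [hr, hs k]
          have hzk := norm_pos_iff.2 (hz k)
          rw [div_mul_eq_div_div, div_eq_mul_inv (K / c1 : ℝ)]
          have : 0 ≤ ‖z k‖⁻¹ := by positivity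
          nlinarith
      · rw [if_neg hg]
        simp
    have hBs : ∑' g, gam (ℕ × κ) (Bd g) ≠ ∞ := by
      refine ne_top_of_le_ne_top
        (ENNReal.mul_ne_top (ENNReal.ofReal_ne_top (r := (K + (c1 + 1)) / c1)) h1.ne) ?_
      rw [← ENNReal.tsum_mul_left]
      refine ENNReal.tsum_le_tsum fun g => ?_
      simp only [hBd]
      by_cases hg : 1 ≤ s g
      · rw [if_pos hg]
        obtain ⟨k, hk, hk1, hrk⟩ : ∃ k < g + 1, k ∉ blk s g (nx (g + 1)) ∧ rm 1 s g ≤ s k := by
          have hni : ∀ k ≤ g, k ∉ blk s g (nx (g + 1)) := by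
            intro k hk hmem
            have := (mem_blk.1 hmem).1.1
            omega
          rcases rm_cases s g with hr | ⟨k, hk, hr⟩
          · exact ⟨g, by omega, hni g le_rfl, by rw [hr]; exact hg⟩
          · exact ⟨k, by omega, hni k hk.le, hr.le⟩
        have hb := ball_mm (m0 := m0) hc z k (g + 1) hk (hz k) 0 K (blk s g (nx (g + 1))) hk1
          (∑ r ∈ blk s g (nx (g + 1)), s r)
        refine hb.trans ?_
        have hrp : 0 < rm 1 s g := lt_of_lt_of_le one_pos (one_le_rm s g)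
        have hYi : ∫⁻ η, ENNReal.ofReal (Y g η) ∂(gam (ℕ × κ)) ≤
            ENNReal.ofReal (c1 + 1) * Zf (fun k => s (k + g + 1)) := by
          calc ∫⁻ η, ENNReal.ofReal (Y g η) ∂(gam (ℕ × κ))
              ≤ ∫⁻ η, (∑ r ∈ blk s g (nx (g + 1)), ENNReal.ofReal c1 *
                ENNReal.ofReal |∑ j, η (r, j) * z r j| +
                ∑ r ∈ blk s g (nx (g + 1)), ENNReal.ofReal (s r)) ∂(gam (ℕ × κ)) := by
                refine lintegral_mono fun η => ?_
                simp only [hY]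
                refine ENNReal.ofReal_add_le.trans ?_
                gcongr
                · rw [ENNReal.ofReal_sum_of_nonneg (fun r _ => by positivity)]
                  refine Finset.sum_le_sum fun r _ => ?_
                  rw [ENNReal.ofReal_mul hc.le]
                · rw [ENNReal.ofReal_sum_of_nonneg (fun r _ => (hsp r).le)]
            _ ≤ ENNReal.ofReal c1 * ∑ r ∈ blk s g (nx (g + 1)), ENNReal.ofReal (s r) +
                ∑ r ∈ blk s g (nx (g + 1)), ENNReal.ofReal (s r) := by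
                rw [lintegral_add_right _ measurable_const, lintegral_finsetSum _
                  (fun r _ => by fun_prop)]
                simp only [lintegral_const, measure_univ, mul_one]
                gcongr
                rw [Finset.mul_sum]
                refine Finset.sum_le_sum fun r _ => ?_
                rw [lintegral_const_mul _ (by fun_prop)]
                gcongr
                rw [hs r]
                exact abs_lin (z r) (hz r) r
            _ = ENNReal.ofReal (c1 + 1) * ∑ r ∈ blk s g (nx (g + 1)), ENNReal.ofReal (s r) := by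
                rw [ENNReal.ofReal_add hc.le zero_le_one, ENNReal.ofReal_one]
                ring
            _ ≤ _ := by
                gcongr
                exact sum_blk s g _
        calc ∫⁻ η, ENNReal.ofReal ((K + (∑ r ∈ blk s g (nx (g + 1)),
              c1 * |∑ j, η (r, j) * z r j| + ∑ r ∈ blk s g (nx (g + 1)), s r)) / (c1 * ‖z k‖))
              ∂(gam (ℕ × κ))
            ≤ ∫⁻ η, ENNReal.ofReal ((c1 * rm 1 s g)⁻¹) * (ENNReal.ofReal K +
                ENNReal.ofReal (Y g η)) ∂(gam (ℕ × κ)) := by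
              refine lintegral_mono fun η => ?_
              have hY0 : 0 ≤ Y g η := by
                simp only [hY]
                have h3 : 0 ≤ ∑ r ∈ blk s g (nx (g + 1)), s r :=
                  Finset.sum_nonneg fun r _ => (hsp r).le
                positivity
              rw [← ENNReal.ofReal_add hK0 hY0, ← ENNReal.ofReal_mul (by positivity)]
              refine ENNReal.ofReal_le_ofReal ?_
              have h4 : (c1 * ‖z k‖)⁻¹ ≤ (c1 * rm 1 s g)⁻¹ := by
                rw [← hs k]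
                gcongr
              rw [div_eq_mul_inv, mul_comm]
              have h5 : 0 ≤ K + Y g η := by positivity
              exact mul_le_mul_of_nonneg_right h4 h5
          _ = ENNReal.ofReal ((c1 * rm 1 s g)⁻¹) * (ENNReal.ofReal K +
                ∫⁻ η, ENNReal.ofReal (Y g η) ∂(gam (ℕ × κ))) := by
              rw [lintegral_const_mul' _ _ ENNReal.ofReal_ne_top, lintegral_add_left
                measurable_const]
              simp
          _ ≤ ENNReal.ofReal ((c1 * rm 1 s g)⁻¹) * (ENNReal.ofReal K +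
                ENNReal.ofReal (c1 + 1) * Zf (fun k => s (k + g + 1))) := by gcongr
          _ ≤ ENNReal.ofReal ((c1 * rm 1 s g)⁻¹) * (ENNReal.ofReal (K + (c1 + 1)) *
                (1 + Zf (fun k => s (k + g + 1)))) := by
              gcongr
              rw [mul_add, mul_one]
              exact add_le_add (ENNReal.ofReal_le_ofReal (by linarith))
                (mul_le_mul' (ENNReal.ofReal_le_ofReal (by linarith)) le_rfl)
          _ = ENNReal.ofReal ((K + (c1 + 1)) / c1) * tm 1 s g := by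
              unfold tm
              rw [if_pos hg, mul_inv, ENNReal.ofReal_mul (by positivity), div_eq_mul_inv,
                ENNReal.ofReal_mul (by positivity)]
              ring
      · rw [if_neg hg]
        simp
    have hAe := ae_eventually_notMem hAs
    have hBe := ae_eventually_notMem hBs
    filter_upwards [hAe, hBe] with η h3 h4
    obtain ⟨G, hG⟩ := (h3.and h4).exists_forall_of_atTop
    -- a good time after `G`
    set g1 := nx (G + 1) with hg1
    have hg1G : G + 1 ≤ g1 := hnx1 (G + 1)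
    rw [eventually_atTop]
    refine ⟨g1, fun t ht => ?_⟩
    -- the last good time before `t`
    classical
    set g := Nat.findGreatest (fun g => 1 ≤ s g) t with hgd
    have hgood : 1 ≤ s g := Nat.findGreatest_spec (P := fun g => 1 ≤ s g) ht (hnx2 (G + 1))
    have hgt : g ≤ t := Nat.findGreatest_le t
    have hg1g : g1 ≤ g := Nat.le_findGreatest ht (hnx2 (G + 1))
    have hbad : ∀ i, g < i → i ≤ t → s i < 1 := by
      intro i hi hit
      by_contra hn
      have := Nat.le_findGreatest (P := fun g => 1 ≤ s g) hit (not_lt.1 hn)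
      omega
    obtain ⟨hnA, hnB⟩ := hG g (by omega)
    rcases Nat.eq_or_lt_of_le hgt with heq | hlt
    · simp only [hA] at hnA
      rw [if_pos ⟨hgood, by omega⟩] at hnA
      rw [← heq]
      exact (not_le.1 hnA).le
    · simp only [hBd] at hnB
      rw [if_pos hgood] at hnB
      have h5 : K + Y g η < |mm m0 c1 z η (g + 1)| := by
        have h6 : ¬ |mm m0 c1 z η (g + 1) + 0| ≤ K + Y g η := hnB
        have := not_le.1 h6
        rwa [add_zero] at this
      have hTt : t < nx (g + 1) := by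
        by_contra hn
        have h6 := hnx2 (g + 1)
        have h7 := hbad (nx (g + 1)) (hnx1 (g + 1)) (not_lt.1 hn)
        linarith
      have hmem : ∀ r, g < r → r ≤ t → r ∈ blk s g (nx (g + 1)) := by
        intro r hr hrt
        refine mem_blk.2 ⟨⟨hr, lt_of_le_of_lt hrt hTt⟩, ?_⟩
        intro i hi hir
        exact hbad i hi (hir.trans hrt)
      have h6 : mm m0 c1 z η t = mm m0 c1 z η (g + 1) +
          c1 * ∑ r ∈ Finset.Ico (g + 1) t, ∑ j, η (r, j) * z r j := by
        unfold mm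
        rw [add_assoc, ← mul_add, Finset.sum_range_add_sum_Ico _ hlt]
      have h7 : |c1 * ∑ r ∈ Finset.Ico (g + 1) t, ∑ j, η (r, j) * z r j| ≤
          ∑ r ∈ blk s g (nx (g + 1)), c1 * |∑ j, η (r, j) * z r j| := by
        rw [Finset.mul_sum]
        refine (Finset.abs_sum_le_sum_abs _ _).trans ?_
        calc ∑ r ∈ Finset.Ico (g + 1) t, |c1 * ∑ j, η (r, j) * z r j|
            = ∑ r ∈ Finset.Ico (g + 1) t, c1 * |∑ j, η (r, j) * z r j| :=
              Finset.sum_congr rfl fun r _ => by rw [abs_mul, abs_of_pos hc]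
          _ ≤ _ := by
              refine Finset.sum_le_sum_of_subset_of_nonneg ?_ (fun r _ _ => by positivity)
              intro r hr
              obtain ⟨hr1, hr2⟩ := Finset.mem_Ico.1 hr
              exact hmem r (by omega) (by omega)
      have h8 : s t ≤ ∑ r ∈ blk s g (nx (g + 1)), s r :=
        Finset.single_le_sum (f := s) (fun r _ => (hsp r).le) (hmem t hlt le_rfl)
      have h9 := ha t
      have h10 : |mm m0 c1 z η (g + 1)| ≤ |mm m0 c1 z η t + a t| +
          |c1 * ∑ r ∈ Finset.Ico (g + 1) t, ∑ j, η (r, j) * z r j| + |a t| := by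
        have : mm m0 c1 z η (g + 1) = (mm m0 c1 z η t + a t) -
            c1 * ∑ r ∈ Finset.Ico (g + 1) t, ∑ j, η (r, j) * z r j - a t := by
          rw [h6]; ring
        rw [this]
        refine (abs_sub _ _).trans ?_
        gcongr
        exact abs_sub _ _
      simp only [hY] at h5
      linarith
  have hall := ae_all_iff.2 main
  filter_upwards [hall] with η hη
  rw [tendsto_atTop]
  intro b
  obtain ⟨K, hK⟩ := exists_nat_ge b
  filter_upwards [hη K] with t ht
  exact hK.trans ht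

end ball

end Pool.Agent.V11331.GC
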