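import Pool.Agent.V11331.GC.Ball

set_option autoImplicit false
set_option linter.unusedSectionVars false
set_option linter.unusedVariables false

open MeasureTheory ProbabilityTheory Filter Topology WithLp
open scoped ENNReal NNReal RealInnerProductSpace

namespace Pool.Agent.V11331.GC

section chain

variable {n : ℕ}

/-- The constant unit vector. -/
noncomputable def cst (n : ℕ) : EuclideanSpace ℝ (Fin (n + 1)) :=
  toLp 2 (fun _ => (Real.sqrt (n + 1))⁻¹)

lemma cst_norm : ‖cst n‖ = 1 := by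
  have h : (0 : ℝ) < (n : ℝ) + 1 := by positivity
  rw [EuclideanSpace.norm_eq, Real.sqrt_eq_one]
  simp only [cst, Real.norm_eq_abs, sq_abs, inv_pow, Finset.sum_const, Finset.card_univ,
    Fintype.card_fin, nsmul_eq_mul]
  rw [Real.sq_sqrt h.le]
  push_cast
  field_simp

lemma exists_basis (n : ℕ) : ∃ b : OrthonormalBasis (Fin (n + 1)) ℝ (EuclideanSpace ℝ (Fin (n + 1))),
    b 0 = cst n := by
  have h1 : Orthonormal ℝ (({0} : Set (Fin (n + 1))).domRestrict (fun _ => cst n)) := by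
    refine ⟨fun _ => cst_norm, ?_⟩
    intro i j hij
    exact absurd (Subsingleton.elim i j) hij
  obtain ⟨b, hb⟩ := h1.exists_orthonormalBasis_extension_of_card_eq (by simp)
  exact ⟨b, hb 0 rfl⟩

variable (b : OrthonormalBasis (Fin (n + 1)) ℝ (EuclideanSpace ℝ (Fin (n + 1))))

/-- The isometric embedding with image orthogonal to the constants. -/
noncomputable def emb : EuclideanSpace ℝ (Fin n) →ₗᵢ[ℝ] EuclideanSpace ℝ (Fin (n + 1)) where
  toFun y := ∑ j, y j • b j.succ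
  map_add' x y := by simp [add_smul, Finset.sum_add_distrib]
  map_smul' c y := by simp [Finset.smul_sum, mul_smul]
  norm_map' y := by
    have h1 : Orthonormal ℝ (fun j : Fin n => b j.succ) := b.orthonormal.comp _ (Fin.succ_injective n)
    have h2 := h1.inner_sum (fun j => y j) (fun j => y j) Finset.univ
    have h3 : ‖∑ j, y j • b j.succ‖ ^ 2 = ‖y‖ ^ 2 := by
      rw [← real_inner_self_eq_norm_sq, h2, EuclideanSpace.real_norm_sq_eq]
      refine Finset.sum_congr rfl fun j _ => ?_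
      simp [sq]
    have h4 := norm_nonneg (∑ j, y j • b j.succ)
    have h5 := norm_nonneg y
    exact (sq_eq_sq₀ h4 h5).1 h3

lemma emb_apply (y : EuclideanSpace ℝ (Fin n)) (i : Fin (n + 1)) :
    emb b y i = ∑ j, y j * b j.succ i := by
  show (∑ j, y j • b j.succ : EuclideanSpace ℝ (Fin (n + 1))) i = _
  simp

lemma emb_sum (hb : b 0 = cst n) (y : EuclideanSpace ℝ (Fin n)) : ∑ i, emb b y i = 0 := by
  have h0 : (0 : ℝ) < (n : ℝ) + 1 := by positivity
  have hs : (Real.sqrt (n + 1))⁻¹ ≠ 0 := by positivity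
  have h1 : ⟪b 0, emb b y⟫ = 0 := by
    show ⟪b 0, ∑ j, y j • b j.succ⟫ = 0
    rw [inner_sum]
    refine Finset.sum_eq_zero fun j _ => ?_
    rw [inner_smul_right, b.orthonormal.2 (Fin.succ_ne_zero j).symm, mul_zero]
  rw [hb] at h1
  have h2 : ⟪cst n, emb b y⟫ = (Real.sqrt (n + 1))⁻¹ * ∑ i, emb b y i := by
    simp [PiLp.inner_apply, cst, Finset.mul_sum, mul_comm]
  rw [h2] at h1
  exact (mul_eq_zero.1 h1).resolve_left hs

/-- The rotated noise. -/
noncomputable def rotn (ω : ℕ × Fin (n + 1) × Fin (n + 1) → ℝ) : ℕ × Fin (n + 1) × Fin (n + 1) → ℝ :=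
  fun p => ∑ i, b p.2.2 i * ω (p.1, p.2.1, i)

lemma gam_rot : (gam (Fin (n + 1))).map (fun x (j : Fin (n + 1)) => ∑ i, b j i * x i) =
    gam (Fin (n + 1)) := by
  have h1 : (fun (x : Fin (n + 1) → ℝ) (j : Fin (n + 1)) => ∑ i, b j i * x i) =
      (ofLp : EuclideanSpace ℝ (Fin (n + 1)) → _) ∘ (b.repr ∘ (toLp 2)) := by
    ext x j
    simp [b.repr_apply_apply, PiLp.inner_apply, mul_comm]
  have h2 : (stdGaussian (EuclideanSpace ℝ (Fin (n + 1)))).map
      (ofLp : EuclideanSpace ℝ (Fin (n + 1)) → _) = gam (Fin (n + 1)) := by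
    rw [← gam_toLp, Measure.map_map (by fun_prop) (by fun_prop)]
    exact Measure.map_id
  rw [h1, ← Measure.map_map (by fun_prop) (b.repr.continuous.measurable.comp (by fun_prop)),
    ← Measure.map_map b.repr.continuous.measurable (by fun_prop), gam_toLp, stdGaussian_map, h2]

lemma gam_rotn : (gam (ℕ × Fin (n + 1) × Fin (n + 1))).map (rotn b) =
    gam (ℕ × Fin (n + 1) × Fin (n + 1)) := by
  -- regroup the indices
  have e1 : (gam (ℕ × Fin (n + 1) × Fin (n + 1))).map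
      (fun ω (p : (ℕ × Fin (n + 1)) × Fin (n + 1)) => ω (p.1.1, p.1.2, p.2)) =
      gam ((ℕ × Fin (n + 1)) × Fin (n + 1)) :=
    gam_map_inj _ (by rintro ⟨⟨a, c⟩, d⟩ ⟨⟨a', c'⟩, d'⟩ h; simp_all)
  have e2 : (gam ((ℕ × Fin (n + 1)) × Fin (n + 1))).map
      (MeasurableEquiv.curry (ℕ × Fin (n + 1)) (Fin (n + 1)) ℝ) =
      Measure.infinitePi fun _ : ℕ × Fin (n + 1) => gam (Fin (n + 1)) :=
    Measure.infinitePi_map_curry (ι := ℕ × Fin (n + 1)) (κ := Fin (n + 1))
      (fun _ _ => gaussianReal 0 1)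
  have e3 := Measure.infinitePi_map_pi (fun _ : ℕ × Fin (n + 1) => gam (Fin (n + 1)))
    (f := fun (_ : ℕ × Fin (n + 1)) (x : Fin (n + 1) → ℝ) (j : Fin (n + 1)) => ∑ i, b j i * x i)
    (fun _ => measurable_pi_iff.2 fun j => by fun_prop)
  simp only [gam_rot] at e3
  have e4 : (Measure.infinitePi fun _ : ℕ × Fin (n + 1) => gam (Fin (n + 1))).map
      (MeasurableEquiv.curry (ℕ × Fin (n + 1)) (Fin (n + 1)) ℝ).symm =
      gam ((ℕ × Fin (n + 1)) × Fin (n + 1)) :=
    Measure.infinitePi_map_curry_symm (ι := ℕ × Fin (n + 1)) (κ := Fin (n + 1))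
      (fun _ _ => gaussianReal 0 1)
  have e5 : (gam ((ℕ × Fin (n + 1)) × Fin (n + 1))).map
      (fun ω (p : ℕ × Fin (n + 1) × Fin (n + 1)) => ω ((p.1, p.2.1), p.2.2)) =
      gam (ℕ × Fin (n + 1) × Fin (n + 1)) :=
    gam_map_inj _ (by rintro ⟨a, c, d⟩ ⟨a', c', d'⟩ h; simp_all)
  have hcomp : rotn b = (fun (ω : (ℕ × Fin (n + 1)) × Fin (n + 1) → ℝ)
        (p : ℕ × Fin (n + 1) × Fin (n + 1)) => ω ((p.1, p.2.1), p.2.2)) ∘
      ((MeasurableEquiv.curry (ℕ × Fin (n + 1)) (Fin (n + 1)) ℝ).symm ∘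
      ((fun (x : ℕ × Fin (n + 1) → Fin (n + 1) → ℝ) (q : ℕ × Fin (n + 1)) (j : Fin (n + 1)) =>
        ∑ i, b j i * x q i) ∘
      ((MeasurableEquiv.curry (ℕ × Fin (n + 1)) (Fin (n + 1)) ℝ) ∘
      (fun (ω : ℕ × Fin (n + 1) × Fin (n + 1) → ℝ) (p : (ℕ × Fin (n + 1)) × Fin (n + 1)) =>
        ω (p.1.1, p.1.2, p.2))))) := by
    ext ω p
    rfl
  have hm1 : Measurable (fun (ω : ℕ × Fin (n + 1) × Fin (n + 1) → ℝ)
      (p : (ℕ × Fin (n + 1)) × Fin (n + 1)) => ω (p.1.1, p.1.2, p.2)) := meas_comp _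
  have hm2 : Measurable (fun (x : ℕ × Fin (n + 1) → Fin (n + 1) → ℝ) (q : ℕ × Fin (n + 1))
      (j : Fin (n + 1)) => ∑ i, b j i * x q i) := by fun_prop
  have hm3 : Measurable (fun (ω : (ℕ × Fin (n + 1)) × Fin (n + 1) → ℝ)
        (p : ℕ × Fin (n + 1) × Fin (n + 1)) => ω ((p.1, p.2.1), p.2.2)) := meas_comp _
  rw [hcomp, ← Measure.map_map hm3 (by fun_prop), ← Measure.map_map (by fun_prop) (by fun_prop),
    ← Measure.map_map hm2 (by fun_prop), ← Measure.map_map (by fun_prop) hm1, e1, e2, e3, e4, e5]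

/-- The noise of the mean. -/
noncomputable def noiM (ω : ℕ × Fin (n + 1) × Fin (n + 1) → ℝ) : ℕ × Fin (n + 1) → ℝ :=
  fun p => rotn b ω (p.1, p.2, 0)

/-- The noise of the deviations. -/
noncomputable def noiD (ω : ℕ × Fin (n + 1) × Fin (n + 1) → ℝ) : ℕ × Fin n × Fin (n + 1) → ℝ :=
  fun p => rotn b ω (p.1, p.2.2, p.2.1.succ)

lemma meas_rotn : Measurable (rotn b) := by
  unfold rotn
  fun_prop

lemma noise_law : (gam (ℕ × Fin (n + 1) × Fin (n + 1))).map (fun ω => (noiM b ω, noiD b ω)) =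
    (gam (ℕ × Fin (n + 1))).prod (gam (ℕ × Fin n × Fin (n + 1))) := by
  have h1 := map_pair (ι := ℕ × Fin (n + 1) × Fin (n + 1)) (A := ℕ × Fin (n + 1))
    (B := ℕ × Fin n × Fin (n + 1)) (fun p => (p.1, p.2, 0)) (fun p => (p.1, p.2.2, p.2.1.succ))
    (by rintro ⟨a, c⟩ ⟨a', c'⟩ h; simp_all)
    (by
      rintro ⟨a, c, d⟩ ⟨a', c', d'⟩ h
      simp only [Prod.mk.injEq, Fin.succ_inj] at h ⊢
      tauto)
    (by
      rintro ⟨a, c⟩ ⟨a', c', d'⟩ h
      simp only [Prod.mk.injEq] at h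
      exact Fin.succ_ne_zero _ h.2.2.symm)
  rw [← h1, ← gam_rotn b, Measure.map_map ((meas_comp _).prodMk (meas_comp _)) (meas_rotn b),
    gam_rotn b]
  rfl

/-- One step of the real chain. -/
noncomputable def st1 (β c : ℝ) (x : Fin (n + 1) → ℝ) (a : Fin (n + 1) × Fin (n + 1) → ℝ) :
    Fin (n + 1) → ℝ :=
  fun i => β * x i + (1 - β) * ((∑ k, x k) / (n + 1)) +
    c * ∑ k, a (k, i) * (x k - (∑ l, x l) / (n + 1))

/-- The real chain. -/
noncomputable def ch1 (β c : ℝ) (x : Fin (n + 1) → ℝ) (ω : ℕ × Fin (n + 1) × Fin (n + 1) → ℝ) :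
    ℕ → Fin (n + 1) → ℝ
  | 0 => x
  | t + 1 => st1 β c (ch1 β c x ω t) (fun a => ω (t, a))

lemma recover (v : Fin (n + 1) → ℝ) (i : Fin (n + 1)) :
    v i = ∑ j, (∑ l, b j l * v l) * b j i := by
  have h := b.sum_repr (toLp 2 v)
  have h2 := congrArg (fun w : EuclideanSpace ℝ (Fin (n + 1)) => w i) h
  simp only at h2
  rw [← h2]
  simp [b.repr_apply_apply, PiLp.inner_apply, mul_comm]

/-- Decomposition of the real chain into the mean and the deviations. -/
lemma decomp (hb : b 0 = cst n) (β c : ℝ) (x : Fin (n + 1) → ℝ)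
    (ω : ℕ × Fin (n + 1) × Fin (n + 1) → ℝ) (t : ℕ) (i : Fin (n + 1)) :
    ch1 β c x ω t i =
      mm ((∑ k, x k) / (n + 1)) (c * (Real.sqrt (n + 1))⁻¹)
        (fun s => emb b (orb β c (emb b) (toLp 2 (fun j => ∑ l, b j.succ l * x l)) (noiD b ω) s))
        (noiM b ω) t +
      emb b (orb β c (emb b) (toLp 2 (fun j => ∑ l, b j.succ l * x l)) (noiD b ω) t) i := by
  have h0 : (0 : ℝ) < (n : ℝ) + 1 := by positivity
  have hsq : (Real.sqrt (n + 1))⁻¹ * (Real.sqrt (n + 1))⁻¹ = ((n : ℝ) + 1)⁻¹ := by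
    rw [← mul_inv, Real.mul_self_sqrt h0.le]
  have hb0 : ∀ i, b 0 i = (Real.sqrt (n + 1))⁻¹ := fun i => by rw [hb]; rfl
  induction t generalizing i with
  | zero =>
    rw [ch1, mm, orb, emb_apply]
    simp only [Finset.range_zero, Finset.sum_empty, mul_zero, add_zero]
    rw [recover b x i, Fin.sum_univ_succ]
    congr 1
    simp only [hb0]
    rw [← Finset.mul_sum, mul_comm (Real.sqrt (n + 1))⁻¹, mul_assoc, hsq, div_eq_mul_inv]
  | succ t ih =>
    set y := orb β c (emb b) (toLp 2 (fun j => ∑ l, b j.succ l * x l)) (noiD b ω) with hy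
    set m := mm ((∑ k, x k) / (n + 1)) (c * (Real.sqrt (n + 1))⁻¹) (fun s => emb b (y s))
      (noiM b ω) with hm
    have hmean : (∑ k, ch1 β c x ω t k) / ((n : ℝ) + 1) = m t := by
      simp only [ih]
      rw [Finset.sum_add_distrib, emb_sum b hb]
      simp only [Finset.sum_const, Finset.card_univ, Fintype.card_fin, nsmul_eq_mul, add_zero]
      push_cast
      field_simp
    have hm1 : m (t + 1) = m t + c * (Real.sqrt (n + 1))⁻¹ *
        ∑ k, noiM b ω (t, k) * emb b (y t) k := by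
      simp only [hm, mm]
      rw [Finset.sum_range_succ]
      ring
    have hy1 : y (t + 1) = nxt β c (emb b) (y t) (fun a => noiD b ω (t, a)) := rfl
    rw [ch1, st1, hmean, ih, hm1, hy1]
    have hdev : ∀ k, ch1 β c x ω t k - m t = emb b (y t) k := fun k => by rw [ih]; ring
    simp only [hdev]
    -- expand the noise
    have hnoise : ∑ k, ω (t, k, i) * emb b (y t) k =
        (Real.sqrt (n + 1))⁻¹ * ∑ k, noiM b ω (t, k) * emb b (y t) k +
        ∑ j : Fin n, (∑ k, noiD b ω (t, j, k) * emb b (y t) k) * b j.succ i := by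
      have h1 : ∀ k, ω (t, k, i) = (Real.sqrt (n + 1))⁻¹ * noiM b ω (t, k) +
          ∑ j : Fin n, noiD b ω (t, j, k) * b j.succ i := by
        intro k
        rw [recover b (fun i => ω (t, k, i)) i, Fin.sum_univ_succ, hb0]
        rw [mul_comm]
        rfl
      simp only [h1, add_mul, Finset.sum_add_distrib, Finset.mul_sum, Finset.sum_mul]
      congr 1
      · exact Finset.sum_congr rfl fun k _ => by ring
      · rw [Finset.sum_comm]
        exact Finset.sum_congr rfl fun j _ => Finset.sum_congr rfl fun k _ => by ring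
    rw [hnoise]
    have hE : emb b (nxt β c (emb b) (y t) (fun a => noiD b ω (t, a))) i =
        β * emb b (y t) i + c * ∑ j : Fin n, (∑ k, noiD b ω (t, j, k) * emb b (y t) k) *
          b j.succ i := by
      rw [emb_apply, emb_apply, nxt, Finset.mul_sum, Finset.mul_sum, ← Finset.sum_add_distrib]
      refine Finset.sum_congr rfl fun j _ => ?_
      simp only [PiLp.add_apply, PiLp.smul_apply, smul_eq_mul]
      ring
    rw [hE]
    ring

end chain

end Pool.Agent.V11331.GC
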