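import Pool.Agent.V11331.GC.Path2

set_option autoImplicit false
set_option linter.unusedSectionVars false
set_option linter.unusedVariables false

open MeasureTheory ProbabilityTheory Filter Topology WithLp
open scoped ENNReal NNReal

namespace Pool.Agent.V11331.GC

section lyap

variable {n : ℕ} [NeZero n] {κ : Type} [Fintype κ] (β c : ℝ)
  (J : EuclideanSpace ℝ (Fin n) →ₗᵢ[ℝ] EuclideanSpace ℝ κ)

/-- The increments of the logarithm of the norm. -/
noncomputable def inc (y : EuclideanSpace ℝ (Fin n)) (t : ℕ) (ω : ℕ × (Fin n × κ) → ℝ) : ℝ :=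
  Real.log (nms β c J y ω (t + 1)) - Real.log (nms β c J y ω t)

lemma meas_inc (y : EuclideanSpace ℝ (Fin n)) (t : ℕ) : Measurable (inc β c J y t) :=
  (Real.measurable_log.comp (meas_nms_y β c J y (t + 1))).sub
    (Real.measurable_log.comp (meas_nms_y β c J y t))

/-- Product of indicators of the first increments. -/
noncomputable def pin (A : ℕ → Set ℝ) (N : ℕ) (s : ℕ → ℝ) : ℝ≥0∞ :=
  ∏ i ∈ Finset.range N, (A i).indicator 1 (Real.log (s (i + 1)) - Real.log (s i))

lemma meas_pin {Ω : Type} [MeasurableSpace Ω] {s : ℕ → Ω → ℝ} (hs : ∀ t, Measurable (s t))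
    {A : ℕ → Set ℝ} (hA : ∀ i, MeasurableSet (A i)) (N : ℕ) :
    Measurable (fun ω => pin A N (fun t => s t ω)) := by
  unfold pin
  refine Finset.measurable_prod _ fun i _ => ?_
  have h1 : Measurable ((A i).indicator (1 : ℝ → ℝ≥0∞)) := measurable_one.indicator (hA i)
  exact h1.comp ((Real.measurable_log.comp (hs (i + 1))).sub (Real.measurable_log.comp (hs i)))

lemma pin_succ (A : ℕ → Set ℝ) (N : ℕ) (s : ℕ → ℝ) :
    pin A (N + 1) s = (A 0).indicator 1 (Real.log (s 1) - Real.log (s 0)) *
      pin (fun i => A (i + 1)) N (fun t => s (t + 1)) := by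
  unfold pin
  rw [Finset.prod_range_succ', mul_comm]

lemma int_pin {hc : 0 < c} (N : ℕ) : ∀ (A : ℕ → Set ℝ), (∀ i, MeasurableSet (A i)) →
    ∀ y : EuclideanSpace ℝ (Fin n), y ≠ 0 →
      ∫⁻ ω, pin A N (nms β c J y ω) ∂(gam (ℕ × (Fin n × κ))) =
        ∏ i ∈ Finset.range N, nu n β c (A i) := by
  induction N with
  | zero => intro A hA y hy; simp [pin]
  | succ N ih =>
    intro A hA y hy
    have h1 : ∀ ω, pin A (N + 1) (nms β c J y ω) =
        (fun s : ℕ → ℝ => (A 0).indicator 1 (Real.log (s 0) - Real.log ‖y‖) *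
          pin (fun i => A (i + 1)) N s) (fun t => nms β c J y ω (t + 1)) := by
      intro ω
      rw [pin_succ, nms_zero]
    simp only [h1]
    have hA0 : Measurable ((A 0).indicator (1 : ℝ → ℝ≥0∞)) := measurable_one.indicator (hA 0)
    have hmp : Measurable (fun p : (Fin n × κ → ℝ) × (ℕ × (Fin n × κ) → ℝ) =>
        pin (fun i => A (i + 1)) N (nms β c J (nxt β c J y p.1) p.2)) :=
      meas_pin (s := fun t (p : (Fin n × κ → ℝ) × (ℕ × (Fin n × κ) → ℝ)) =>
        nms β c J (nxt β c J y p.1) p.2 t) (fun t => meas_nms_nxt β c J y t)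
        (fun i => hA (i + 1)) N
    rw [first' β c J (y := y) (F := fun s => (A 0).indicator 1 (Real.log (s 0) - Real.log ‖y‖) *
          pin (fun i => A (i + 1)) N s) (by
        refine Measurable.mul ?_ hmp
        exact hA0.comp ((Real.measurable_log.comp (meas_nms_nxt β c J y 0)).sub
          measurable_const))]
    rw [Finset.prod_range_succ']
    have h2 : ∀ᵐ a ∂(gam (Fin n × κ)),
        ∫⁻ ω, (A 0).indicator 1 (Real.log (nms β c J (nxt β c J y a) ω 0) - Real.log ‖y‖) *
          pin (fun i => A (i + 1)) N (nms β c J (nxt β c J y a) ω)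
            ∂(gam (ℕ × (Fin n × κ))) =
        (A 0).indicator 1 (Real.log ‖nxt β c J y a‖ - Real.log ‖y‖) *
          ∏ i ∈ Finset.range N, nu n β c (A (i + 1)) := by
      filter_upwards [ae_nxt_ne J β hc y hy] with a ha
      simp only [nms_zero]
      rw [lintegral_const_mul _ (meas_pin (fun t => meas_nms_y β c J _ t)
        (fun i => hA (i + 1)) N), ih _ (fun i => hA (i + 1)) _ ha]
    rw [lintegral_congr_ae h2, lintegral_mul_const _ (by
      refine hA0.comp ?_
      have h0 : Measurable (fun a : Fin n × κ → ℝ => (y, a)) := measurable_prodMk_left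
      have h3 : Measurable (fun a : Fin n × κ → ℝ => nxt β c J y a) := (meas_nxt J β c).comp h0
      exact (Real.measurable_log.comp h3.norm).sub measurable_const), mul_comm]
    congr 1
    have h4 := step_law J β hc y hy (F := fun x => (A 0).indicator (1 : ℝ → ℝ≥0∞)
      (x - Real.log ‖y‖)) (hA0.comp (measurable_id.sub_const _))
    rw [h4]
    simp only [add_sub_cancel_left]
    rw [lintegral_indicator_one (hA 0)]

lemma inc_law {hc : 0 < c} (y : EuclideanSpace ℝ (Fin n)) (hy : y ≠ 0) :
    (gam (ℕ × (Fin n × κ))).map (fun ω t => inc β c J y t ω) =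
      Measure.infinitePi fun _ : ℕ => nu n β c := by
  have hm : Measurable (fun ω t => inc β c J y t ω) :=
    measurable_pi_iff.2 fun t => meas_inc β c J y t
  refine Measure.eq_infinitePi _ fun s A hA => ?_
  classical
  rw [Measure.map_apply hm (MeasurableSet.pi s.countable_toSet fun i _ => hA i)]
  set N := s.sup id + 1 with hN
  set A' : ℕ → Set ℝ := fun i => if i ∈ s then A i else Set.univ with hA'
  have hA'm : ∀ i, MeasurableSet (A' i) := by
    intro i
    simp only [hA']
    split_ifs
    · exact hA i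
    · exact MeasurableSet.univ
  have hsub : s ⊆ Finset.range N := by
    intro i hi
    rw [Finset.mem_range, hN, Nat.lt_succ_iff]
    exact Finset.le_sup (f := id) hi
  have h1 := int_pin β c J (hc := hc) N A' hA'm y hy
  have h2 : ∏ i ∈ Finset.range N, nu n β c (A' i) = ∏ i ∈ s, nu n β c (A i) := by
    rw [← Finset.prod_subset hsub]
    · refine Finset.prod_congr rfl fun i hi => ?_
      simp only [hA', hi, if_true]
    · intro i _ hi
      simp only [hA', hi, if_false, measure_univ]
  rw [← h2, ← h1]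
  have h3 : ∀ ω, pin A' N (nms β c J y ω) =
      ((fun (ω : ℕ × (Fin n × κ) → ℝ) t => inc β c J y t ω) ⁻¹' ((s : Set ℕ).pi A)).indicator 1 ω := by
    intro ω
    unfold pin
    by_cases h : ω ∈ (fun (ω : ℕ × (Fin n × κ) → ℝ) t => inc β c J y t ω) ⁻¹' ((s : Set ℕ).pi A)
    · rw [Set.indicator_of_mem h]
      refine Finset.prod_eq_one fun i _ => ?_
      rw [Set.indicator_of_mem]
      · rfl
      · simp only [hA']
        split_ifs with hi
        · exact h i hi
        · trivial
    · rw [Set.indicator_of_notMem h]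
      have h4 : ∃ i ∈ s, inc β c J y i ω ∉ A i := by
        by_contra hn
        push Not at hn
        exact h fun i hi => hn i hi
      obtain ⟨i, hi, h5⟩ := h4
      refine Finset.prod_eq_zero (hsub hi) ?_
      rw [Set.indicator_of_notMem]
      simp only [hA', hi, if_true]
      exact h5
  simp only [h3]
  rw [lintegral_indicator_one]
  exact hm (MeasurableSet.pi s.countable_toSet fun i _ => hA i)

lemma sum_inc (y : EuclideanSpace ℝ (Fin n)) (ω : ℕ × (Fin n × κ) → ℝ) (t : ℕ) :
    ∑ i ∈ Finset.range t, inc β c J y i ω = Real.log (nms β c J y ω t) - Real.log ‖y‖ := by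
  unfold inc
  rw [Finset.sum_range_sub (fun i => Real.log (nms β c J y ω i)), nms_zero]

/-- The exponential growth rate of the chain. -/
lemma growth {hc : 0 < c} (y : EuclideanSpace ℝ (Fin n)) (hy : y ≠ 0) :
    ∀ᵐ ω ∂(gam (ℕ × (Fin n × κ))),
      Tendsto (fun t : ℕ => Real.log (nms β c J y ω t) / t) atTop (𝓝 (∫ x, x ∂(nu n β c))) := by
  have hlaw := inc_law β c J (hc := hc) y hy
  have hi : ∀ i, (gam (ℕ × (Fin n × κ))).map (inc β c J y i) = nu n β c := by
    intro i
    have h1 : ((gam (ℕ × (Fin n × κ))).map (fun ω t => inc β c J y t ω)).map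
        (fun x : ℕ → ℝ => x i) = (Measure.infinitePi fun _ : ℕ => nu n β c).map
        (fun x : ℕ → ℝ => x i) := by rw [hlaw]
    rw [Measure.infinitePi_map_eval, Measure.map_map (by fun_prop)
      (measurable_pi_iff.2 fun t => meas_inc β c J y t)] at h1
    exact h1
  have hind : iIndepFun (fun i => inc β c J y i) (gam (ℕ × (Fin n × κ))) := by
    rw [iIndepFun_iff_map_fun_eq_infinitePi_map (fun i => meas_inc β c J y i)]
    simp only [hi]
    exact hlaw
  have hint : Integrable (inc β c J y 0) (gam (ℕ × (Fin n × κ))) := by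
    have h1 := nu_int1 (n := n) β hc
    rw [← hi 0] at h1
    exact (integrable_map_measure (by fun_prop) (meas_inc β c J y 0).aemeasurable).1 h1
  have hE : ∫ ω, inc β c J y 0 ω ∂(gam (ℕ × (Fin n × κ))) = ∫ x, x ∂(nu n β c) := by
    rw [← hi 0, integral_map (meas_inc β c J y 0).aemeasurable (by fun_prop)]
  have hsl := strong_law_ae_real (fun i => inc β c J y i) hint
    (fun i j hij => hind.indepFun hij)
    (fun i => ⟨(meas_inc β c J y i).aemeasurable, (meas_inc β c J y 0).aemeasurable,
      by rw [hi i, hi 0]⟩)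
  rw [hE] at hsl
  filter_upwards [hsl] with ω hω
  have h2 : Tendsto (fun t : ℕ => Real.log ‖y‖ / (t : ℝ)) atTop (𝓝 0) :=
    tendsto_const_div_atTop_nhds_zero_nat _
  have h3 := hω.add h2
  rw [add_zero] at h3
  refine h3.congr fun t => ?_
  rw [sum_inc, ← add_div]
  congr 1
  ring

end lyap

section mat

/-- The random matrix `β I + c G` with an i.i.d. standard normal matrix `G`. -/
noncomputable def rmat (n : ℕ) (β c : ℝ) (ω : ℕ × Fin n × Fin n → ℝ) (t : ℕ) :
    Matrix (Fin n) (Fin n) ℝ := c • Matrix.of (fun i j => ω (t, i, j)) + β • 1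

/-- The product of the first `t` random matrices. -/
noncomputable def pmat (n : ℕ) (β c : ℝ) (ω : ℕ × Fin n × Fin n → ℝ) : ℕ → Matrix (Fin n) (Fin n) ℝ
  | 0 => 1
  | t + 1 => rmat n β c ω t * pmat n β c ω t

/-- The Frobenius norm. -/
noncomputable def frob {n : ℕ} (A : Matrix (Fin n) (Fin n) ℝ) : ℝ := Real.sqrt (∑ i, ∑ j, A i j ^ 2)

variable {n : ℕ} [NeZero n] (β c : ℝ)

lemma pmat_col (ω : ℕ × Fin n × Fin n → ℝ) (t : ℕ) (l i : Fin n) :
    pmat n β c ω t i l = orb β c LinearIsometry.id (EuclideanSpace.single l 1) ω t i := by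
  induction t generalizing i with
  | zero =>
    simp [pmat, orb, Matrix.one_apply]
  | succ t ih =>
    rw [pmat, orb, Matrix.mul_apply, nxt]
    simp only [rmat, Matrix.add_apply, Matrix.smul_apply, Matrix.of_apply, smul_eq_mul, ih,
      PiLp.add_apply, PiLp.smul_apply, LinearIsometry.id_apply, Matrix.one_apply]
    simp only [add_mul, Finset.sum_add_distrib, mul_ite, mul_one, mul_zero, ite_mul, zero_mul,
      Finset.sum_ite_eq, Finset.mem_univ, if_true]
    rw [Finset.mul_sum, add_comm]
    congr 1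
    exact Finset.sum_congr rfl fun k _ => by ring

lemma frob_sq (ω : ℕ × Fin n × Fin n → ℝ) (t : ℕ) :
    frob (pmat n β c ω t) ^ 2 =
      ∑ l, nms β c LinearIsometry.id (EuclideanSpace.single l 1) ω t ^ 2 := by
  rw [frob, Real.sq_sqrt (by positivity), Finset.sum_comm]
  refine Finset.sum_congr rfl fun l _ => ?_
  unfold nms
  rw [EuclideanSpace.real_norm_sq_eq]
  exact Finset.sum_congr rfl fun i _ => by rw [pmat_col]

/-- If the exponential growth rate of the products vanishes then so does the mean of `nu`. -/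
lemma mean_zero (hc : 0 < c)
    (h : ∀ᵐ ω ∂(gam (ℕ × Fin n × Fin n)),
      Tendsto (fun t : ℕ => Real.log (frob (pmat n β c ω t)) / t) atTop (𝓝 0)) :
    ∫ x, x ∂(nu n β c) = 0 := by
  have hne : ∀ l : Fin n, (EuclideanSpace.single l 1 : EuclideanSpace ℝ (Fin n)) ≠ 0 := by
    intro l h0
    have := congrArg norm h0
    simp at this
  have h1 : ∀ᵐ ω ∂(gam (ℕ × Fin n × Fin n)), ∀ l : Fin n,
      Tendsto (fun t : ℕ => Real.log (nms β c LinearIsometry.id (EuclideanSpace.single l 1) ω t) / t)
        atTop (𝓝 (∫ x, x ∂(nu n β c))) :=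
    ae_all_iff.2 fun l => growth β c LinearIsometry.id (hc := hc) _ (hne l)
  have h2 : ∀ᵐ ω ∂(gam (ℕ × Fin n × Fin n)), ∀ (l : Fin n) (t : ℕ),
      nms β c LinearIsometry.id (EuclideanSpace.single l 1) ω t ≠ 0 :=
    ae_all_iff.2 fun l => ae_all_iff.2 fun t => ae_orb_ne β c LinearIsometry.id (hc := hc) t _ (hne l)
  obtain ⟨ω, h3, h4, h5⟩ := (h.and (h1.and h2)).exists
  set lam := ∫ x, x ∂(nu n β c) with hlam
  have hpos : ∀ (l : Fin n) (t : ℕ),
      0 < nms β c LinearIsometry.id (EuclideanSpace.single l 1) ω t := by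
    intro l t
    refine lt_of_le_of_ne ?_ (h5 l t).symm
    unfold nms
    exact norm_nonneg _
  have hfp : ∀ t, 0 < frob (pmat n β c ω t) := by
    intro t
    have h6 : 0 < frob (pmat n β c ω t) ^ 2 := by
      rw [frob_sq]
      exact Finset.sum_pos (fun l _ => by have := hpos l t; positivity) Finset.univ_nonempty
    exact lt_of_le_of_ne (Real.sqrt_nonneg _) (fun h0 => by rw [← h0] at h6; simp at h6)
  apply le_antisymm
  · refine le_of_tendsto_of_tendsto (h4 0) h3 (Eventually.of_forall fun t => ?_)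
    refine div_le_div_of_nonneg_right ?_ (Nat.cast_nonneg t)
    refine Real.log_le_log (hpos 0 t) ?_
    refine (sq_le_sq₀ (hpos 0 t).le (hfp t).le).1 ?_
    rw [frob_sq]
    exact Finset.single_le_sum (f := fun l => nms β c LinearIsometry.id
      (EuclideanSpace.single l 1) ω t ^ 2) (fun l _ => sq_nonneg _) (Finset.mem_univ 0)
  · by_contra hn
    have hneg : lam < 0 := not_le.1 hn
    have h6 : ∀ᶠ t : ℕ in atTop, ∀ l : Fin n,
        Real.log (nms β c LinearIsometry.id (EuclideanSpace.single l 1) ω t) / t < lam / 2 :=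
      eventually_all.2 fun l => (h4 l).eventually (gt_mem_nhds (by linarith))
    have h7 : Tendsto (fun t : ℕ => Real.log (Real.sqrt n) / (t : ℝ) + lam / 2) atTop
        (𝓝 (0 + lam / 2)) := (tendsto_const_div_atTop_nhds_zero_nat _).add_const _
    have h8 : (0 : ℝ) ≤ 0 + lam / 2 := by
      refine le_of_tendsto_of_tendsto h3 h7 ?_
      filter_upwards [h6, eventually_gt_atTop 0] with t ht htp
      have htp' : (0 : ℝ) < t := by exact_mod_cast htp
      have hn1 : (1 : ℝ) ≤ n := by exact_mod_cast Nat.one_le_iff_ne_zero.2 (NeZero.ne n)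
      have h9 : frob (pmat n β c ω t) ≤ Real.sqrt n * Real.exp (lam / 2 * t) := by
        refine (sq_le_sq₀ (hfp t).le (by positivity)).1 ?_
        rw [frob_sq, mul_pow, Real.sq_sqrt (by positivity)]
        calc ∑ l, nms β c LinearIsometry.id (EuclideanSpace.single l 1) ω t ^ 2
            ≤ ∑ _l : Fin n, Real.exp (lam / 2 * t) ^ 2 := by
              refine Finset.sum_le_sum fun l _ => ?_
              have h10 := ht l
              rw [div_lt_iff₀ htp', Real.log_lt_iff_lt_exp (hpos l t)] at h10
              have := (hpos l t).le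
              gcongr
          _ = _ := by simp
      calc Real.log (frob (pmat n β c ω t)) / t
          ≤ Real.log (Real.sqrt n * Real.exp (lam / 2 * t)) / t := by
            gcongr
            exact hfp t
        _ = _ := by
            rw [Real.log_mul (by positivity) (Real.exp_pos _).ne', Real.log_exp, add_div]
            field_simp
    linarith

end mat

end Pool.Agent.V11331.GC
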