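import Pool.Agent.V11331.GC.Path2

set_option autoImplicit false
set_option linter.unusedSectionVars false
set_option linter.unusedVariables false

open MeasureTheory ProbabilityTheory Filter Topology WithLp
open scoped ENNReal NNReal

namespace Pool.Agent.V11331.GC

/-- Running maximum (over the past) with initial value `M`. -/
def rm (M : ℝ) (s : ℕ → ℝ) : ℕ → ℝ
  | 0 => M
  | g + 1 => max (rm M s g) (s g)

lemma rm_succ' (M : ℝ) (s : ℕ → ℝ) (g : ℕ) :
    rm M s (g + 1) = rm (max M (s 0)) (fun t => s (t + 1)) g := by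
  induction g with
  | zero => rfl
  | succ g ih =>
    rw [rm, ih, rm]

/-- The summands of the total. -/
noncomputable def tm (M : ℝ) (s : ℕ → ℝ) (g : ℕ) : ℝ≥0∞ :=
  if 1 ≤ s g then (1 + Zf (fun k => s (k + g + 1))) * ENNReal.ofReal ((rm M s g)⁻¹) else 0

noncomputable def TN (N : ℕ) (M : ℝ) (s : ℕ → ℝ) : ℝ≥0∞ := ∑ g ∈ Finset.range N, tm M s g

lemma TN_succ (N : ℕ) (M : ℝ) (s : ℕ → ℝ) :
    TN (N + 1) M s = (if 1 ≤ s 0 then (1 + Zf (fun t => s (t + 1))) * ENNReal.ofReal M⁻¹ else 0) +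
      TN N (max M (s 0)) (fun t => s (t + 1)) := by
  unfold TN
  rw [Finset.sum_range_succ', add_comm]
  congr 1
  refine Finset.sum_congr rfl fun g _ => ?_
  unfold tm
  rw [rm_succ']
  rfl

lemma meas_rm {Ω : Type} [MeasurableSpace Ω] {s : ℕ → Ω → ℝ} (hs : ∀ t, Measurable (s t))
    (M : ℝ) (g : ℕ) : Measurable (fun ω => rm M (fun t => s t ω) g) := by
  induction g with
  | zero => exact measurable_const
  | succ g ih => exact ih.max (hs g)

lemma meas_tm {Ω : Type} [MeasurableSpace Ω] {s : ℕ → Ω → ℝ} (hs : ∀ t, Measurable (s t))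
    (M : ℝ) (g : ℕ) : Measurable (fun ω => tm M (fun t => s t ω) g) := by
  unfold tm
  refine Measurable.ite (measurableSet_le measurable_const (hs g)) ?_ measurable_const
  exact (measurable_const.add (meas_Zf (s := fun k ω => s (k + g + 1) ω)
    (fun k => hs (k + g + 1)))).mul ((meas_rm hs M g).inv.ennreal_ofReal)

lemma meas_TN {Ω : Type} [MeasurableSpace Ω] {s : ℕ → Ω → ℝ} (hs : ∀ t, Measurable (s t))
    (M : ℝ) (N : ℕ) : Measurable (fun ω => TN N M (fun t => s t ω)) := by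
  unfold TN
  exact Finset.measurable_sum _ fun g _ => meas_tm hs M g

noncomputable def UU (m x : ℝ) : ℝ := 4 * m ^ 2 - (min (max x 0) (2 * m)) ^ 2

noncomputable def Psi (c' m0 x M : ℝ) : ℝ≥0∞ :=
  ∑' m : ℕ, ENNReal.ofReal (Real.exp (-(m : ℝ))) *
    (if M < Real.exp (m + 1) then ENNReal.ofReal (UU (m + m0 + 1) x) + ENNReal.ofReal c' else 0)

lemma meas_Psi (c' m0 M : ℝ) : Measurable (fun x => Psi c' m0 x M) := by
  unfold Psi UU
  refine Measurable.ennreal_tsum fun m => ?_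
  split_ifs <;> fun_prop

section pot

variable {ν : Measure ℝ} [IsProbabilityMeasure ν]

lemma Psi_step {c' m0 : ℝ} (hm0 : 1 ≤ m0)
    (hU : ∀ m ≥ m0, ∀ x ≤ m, ∫⁻ ξ, ENNReal.ofReal (UU m (x + ξ)) ∂ν +
      (if 0 ≤ x then ENNReal.ofReal c' else 0) ≤ ENNReal.ofReal (UU m x))
    (x M : ℝ) (hM : 1 ≤ M) :
    ENNReal.ofReal c' * (if 0 ≤ x then ENNReal.ofReal M⁻¹ else 0) +
      ∫⁻ ξ, Psi c' m0 (x + ξ) (max M (Real.exp x)) ∂ν ≤ Psi c' m0 x M := by
  have hM0 : 0 < M := by linarith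
  have h1 : ENNReal.ofReal c' * (if 0 ≤ x then ENNReal.ofReal M⁻¹ else 0) ≤
      ∑' m : ℕ, ENNReal.ofReal (Real.exp (-(m : ℝ))) *
        (if M < Real.exp (m + 1) ∧ 0 ≤ x then ENNReal.ofReal c' else 0) := by
    split_ifs with hx
    · have hl : 0 ≤ Real.log M := Real.log_nonneg hM
      refine le_trans ?_ (ENNReal.le_tsum ⌊Real.log M⌋₊)
      have h2 : M < Real.exp ((⌊Real.log M⌋₊ : ℝ) + 1) := by
        rw [← Real.log_lt_iff_lt_exp hM0]
        exact Nat.lt_floor_add_one _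
      rw [if_pos ⟨h2, hx⟩, mul_comm]
      gcongr
      rw [← Real.exp_log hM0, ← Real.exp_neg, Real.log_exp]
      gcongr
      exact Nat.floor_le hl
    · simp
  have h2 : ∫⁻ ξ, Psi c' m0 (x + ξ) (max M (Real.exp x)) ∂ν =
      ∑' m : ℕ, ENNReal.ofReal (Real.exp (-(m : ℝ))) *
        (if max M (Real.exp x) < Real.exp (m + 1) then
          ∫⁻ ξ, ENNReal.ofReal (UU (m + m0 + 1) (x + ξ)) ∂ν + ENNReal.ofReal c' else 0) := by
    unfold Psi
    rw [lintegral_tsum]
    · refine tsum_congr fun m => ?_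
      split_ifs
      · rw [lintegral_const_mul]
        · rw [lintegral_add_right _ measurable_const]
          simp
        · unfold UU; fun_prop
      · simp
    · intro m
      split_ifs
      · unfold UU; fun_prop
      · fun_prop
  rw [h2]
  refine (add_le_add_left h1 _).trans ?_
  rw [← ENNReal.tsum_add]
  unfold Psi
  refine ENNReal.tsum_le_tsum fun m => ?_
  rw [← mul_add]
  gcongr
  by_cases hMm : M < Real.exp (m + 1)
  · rw [if_pos hMm]
    by_cases hxm : Real.exp x < Real.exp (m + 1)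
    · rw [if_pos (max_lt hMm hxm)]
      have hx' : x ≤ m + m0 + 1 := by
        have := Real.exp_lt_exp.1 hxm
        linarith
      have hmm : m0 ≤ m + m0 + 1 := by
        have : (0 : ℝ) ≤ m := Nat.cast_nonneg m
        linarith
      have h3 := hU (m + m0 + 1) hmm x hx'
      calc _ = (∫⁻ ξ, ENNReal.ofReal (UU (m + m0 + 1) (x + ξ)) ∂ν +
            (if 0 ≤ x then ENNReal.ofReal c' else 0)) + ENNReal.ofReal c' := by
            simp only [hMm, true_and]
            ring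
        _ ≤ _ := by gcongr
    · rw [if_neg (fun h => hxm ((le_max_right _ _).trans_lt h)), add_zero]
      split_ifs
      · exact le_add_self
      · exact zero_le
  · rw [if_neg (fun h => hMm h.1), if_neg (fun h => hMm ((le_max_left _ _).trans_lt h)),
      if_neg hMm, add_zero]

lemma Psi_le (c' m0 : ℝ) (hc' : 0 ≤ c') (hm0 : 1 ≤ m0) : ∃ b : ℝ≥0∞, b ≠ ∞ ∧ ∀ x M,
    Psi c' m0 x M ≤ b := by
  refine ⟨∑' m : ℕ, ENNReal.ofReal (Real.exp (-(m : ℝ)) * (8 * (m : ℝ) ^ 2 +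
    (8 * (m0 + 1) ^ 2 + c'))), ?_, fun x M => ?_⟩
  · have h0 := Real.summable_pow_mul_exp_neg_nat_mul 0 (r := 1) one_pos
    have h2 := Real.summable_pow_mul_exp_neg_nat_mul 2 (r := 1) one_pos
    have h3 : Summable fun m : ℕ => Real.exp (-(m : ℝ)) * (8 * (m : ℝ) ^ 2 +
        (8 * (m0 + 1) ^ 2 + c')) := by
      refine ((h2.mul_left 8).add (h0.mul_left (8 * (m0 + 1) ^ 2 + c'))).congr fun m => ?_
      simp only [pow_zero, one_mul, neg_mul]
      ring
    exact h3.tsum_ofReal_ne_top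
  · unfold Psi
    refine ENNReal.tsum_le_tsum fun m => ?_
    rw [ENNReal.ofReal_mul (Real.exp_pos _).le]
    gcongr
    split_ifs
    · have h1 : UU (m + m0 + 1) x ≤ 8 * (m : ℝ) ^ 2 + 8 * (m0 + 1) ^ 2 := by
        unfold UU
        nlinarith [sq_nonneg (min (max x 0) (2 * ((m : ℝ) + m0 + 1))), sq_nonneg ((m : ℝ) - (m0 + 1))]
      calc ENNReal.ofReal (UU (m + m0 + 1) x) + ENNReal.ofReal c'
          ≤ ENNReal.ofReal (8 * (m : ℝ) ^ 2 + 8 * (m0 + 1) ^ 2) + ENNReal.ofReal c' := by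
            gcongr
        _ = ENNReal.ofReal (8 * (m : ℝ) ^ 2 + (8 * (m0 + 1) ^ 2 + c')) := by
            rw [← ENNReal.ofReal_add (by positivity) hc']
            congr 1
            ring
    · exact zero_le

end pot

section path

variable {n : ℕ} [NeZero n] {κ : Type} [Fintype κ] (β c : ℝ)
  (J : EuclideanSpace ℝ (Fin n) →ₗᵢ[ℝ] EuclideanSpace ℝ κ)

lemma int_TN {hc : 0 < c} {b : ℝ≥0∞}
    (hZ : ∀ y : EuclideanSpace ℝ (Fin n), y ≠ 0 →
      ∫⁻ ω, Zf (nms β c J y ω) ∂(gam (ℕ × (Fin n × κ))) ≤ b)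
    {c' m0 : ℝ} (hm0 : 1 ≤ m0)
    (hU : ∀ m ≥ m0, ∀ x ≤ m, ∫⁻ ξ, ENNReal.ofReal (UU m (x + ξ)) ∂(nu n β c) +
      (if 0 ≤ x then ENNReal.ofReal c' else 0) ≤ ENNReal.ofReal (UU m x)) (N : ℕ) :
    ∀ (M : ℝ), 1 ≤ M → ∀ y : EuclideanSpace ℝ (Fin n), y ≠ 0 →
      ENNReal.ofReal c' * ∫⁻ ω, TN N M (nms β c J y ω) ∂(gam (ℕ × (Fin n × κ))) ≤
        (1 + b) * Psi c' m0 (Real.log ‖y‖) M := by
  induction N with
  | zero => intro M hM y hy; simp [TN]
  | succ N ih =>
    intro M hM y hy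
    have hpos : 0 < ‖y‖ := norm_pos_iff.2 hy
    have h1 : ∀ ω, TN (N + 1) M (nms β c J y ω) =
        (fun s => (if 1 ≤ ‖y‖ then (1 + Zf s) * ENNReal.ofReal M⁻¹ else 0) +
          TN N (max M ‖y‖) s) (fun t => nms β c J y ω (t + 1)) := by
      intro ω
      rw [TN_succ, nms_zero]
    simp only [h1]
    have hmZ : Measurable (fun p : (Fin n × κ → ℝ) × (ℕ × (Fin n × κ) → ℝ) =>
        Zf (nms β c J (nxt β c J y p.1) p.2)) :=
      meas_Zf (s := fun t (p : (Fin n × κ → ℝ) × (ℕ × (Fin n × κ) → ℝ)) =>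
        nms β c J (nxt β c J y p.1) p.2 t) (fun t => meas_nms_nxt β c J y t)
    have hmT : Measurable (fun p : (Fin n × κ → ℝ) × (ℕ × (Fin n × κ) → ℝ) =>
        TN N (max M ‖y‖) (nms β c J (nxt β c J y p.1) p.2)) :=
      meas_TN (s := fun t (p : (Fin n × κ → ℝ) × (ℕ × (Fin n × κ) → ℝ)) =>
        nms β c J (nxt β c J y p.1) p.2 t) (fun t => meas_nms_nxt β c J y t) _ _
    rw [first' β c J (y := y) (F := fun s => (if 1 ≤ ‖y‖ then (1 + Zf s) * ENNReal.ofReal M⁻¹ else 0) +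
          TN N (max M ‖y‖) s) (by
        refine Measurable.add ?_ hmT
        split_ifs
        · exact (measurable_const.add hmZ).mul_const _
        · exact measurable_const)]
    have h2 : ∀ z : EuclideanSpace ℝ (Fin n), z ≠ 0 →
        ∫⁻ ω, ((if 1 ≤ ‖y‖ then (1 + Zf (nms β c J z ω)) * ENNReal.ofReal M⁻¹ else 0) +
          TN N (max M ‖y‖) (nms β c J z ω)) ∂(gam (ℕ × (Fin n × κ))) ≤
        (1 + b) * (if 1 ≤ ‖y‖ then ENNReal.ofReal M⁻¹ else 0) +
          ∫⁻ ω, TN N (max M ‖y‖) (nms β c J z ω) ∂(gam (ℕ × (Fin n × κ))) := by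
      intro z hz
      rw [lintegral_add_right _ (meas_TN (fun t => meas_nms_y β c J z t) _ _)]
      gcongr
      split_ifs
      · have hmz : Measurable (fun ω : ℕ × (Fin n × κ) → ℝ => 1 + Zf (nms β c J z ω)) :=
          measurable_const.add (meas_Zf (fun t => meas_nms_y β c J z t))
        rw [lintegral_mul_const _ hmz, lintegral_add_left measurable_const]
        gcongr
        · simp
        · exact hZ z hz
      · simp
    have hstep := Psi_step (ν := nu n β c) hm0 hU (Real.log ‖y‖) M hM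
    rw [Real.exp_log hpos] at hstep
    have hif : (if 0 ≤ Real.log ‖y‖ then ENNReal.ofReal M⁻¹ else 0) =
        (if 1 ≤ ‖y‖ then ENNReal.ofReal M⁻¹ else 0) := by
      simp only [Real.log_nonneg_iff hpos]
    rw [hif] at hstep
    calc _ ≤ ENNReal.ofReal c' * ∫⁻ a, ((1 + b) * (if 1 ≤ ‖y‖ then ENNReal.ofReal M⁻¹ else 0) +
          ∫⁻ ω, TN N (max M ‖y‖) (nms β c J (nxt β c J y a) ω) ∂(gam (ℕ × (Fin n × κ))))
            ∂(gam (Fin n × κ)) := by
          gcongr ENNReal.ofReal c' * ?_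
          refine lintegral_mono_ae ?_
          filter_upwards [ae_nxt_ne J β hc y hy] with a ha
          exact h2 _ ha
      _ = (1 + b) * (ENNReal.ofReal c' * (if 1 ≤ ‖y‖ then ENNReal.ofReal M⁻¹ else 0)) +
          ∫⁻ a, ENNReal.ofReal c' * ∫⁻ ω, TN N (max M ‖y‖) (nms β c J (nxt β c J y a) ω)
            ∂(gam (ℕ × (Fin n × κ))) ∂(gam (Fin n × κ)) := by
          rw [lintegral_add_left measurable_const, mul_add,
            lintegral_const_mul' _ _ ENNReal.ofReal_ne_top]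
          simp only [lintegral_const, measure_univ, mul_one]
          ring
      _ ≤ (1 + b) * (ENNReal.ofReal c' * (if 1 ≤ ‖y‖ then ENNReal.ofReal M⁻¹ else 0)) +
          ∫⁻ ξ, (1 + b) * Psi c' m0 (Real.log ‖y‖ + ξ) (max M ‖y‖) ∂(nu n β c) := by
          gcongr
          refine step_pot β c J (hc := hc) hy
            (F := fun x => (1 + b) * Psi c' m0 x (max M ‖y‖))
            (measurable_const.mul (meas_Psi _ _ _))
            (U := fun z => ENNReal.ofReal c' * ∫⁻ ω, TN N (max M ‖y‖) (nms β c J z ω)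
              ∂(gam (ℕ × (Fin n × κ)))) ?_
          intro z hz
          exact ih (max M ‖y‖) (hM.trans (le_max_left _ _)) z hz
      _ = (1 + b) * (ENNReal.ofReal c' * (if 1 ≤ ‖y‖ then ENNReal.ofReal M⁻¹ else 0) +
          ∫⁻ ξ, Psi c' m0 (Real.log ‖y‖ + ξ) (max M ‖y‖) ∂(nu n β c)) := by
          have hmp : Measurable (fun ξ => Psi c' m0 (Real.log ‖y‖ + ξ) (max M ‖y‖)) :=
            (meas_Psi _ _ _).comp (measurable_const_add _)
          rw [lintegral_const_mul _ hmp, mul_add]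
      _ ≤ _ := by gcongr

/-- The weighted number of visits of `{‖y‖ ≥ 1}` is finite. -/
lemma ae_total {hc : 0 < c} (hg : Good (nu n β c)) (y : EuclideanSpace ℝ (Fin n)) (hy : y ≠ 0) :
    ∀ᵐ ω ∂(gam (ℕ × (Fin n × κ))), ∑' g, tm 1 (nms β c J y ω) g < ∞ := by
  obtain ⟨B, D, hD, hDB, hBD⟩ := hg.exists_H
  obtain ⟨c', m0, hc', hm0, hU⟩ := hg.exists_U
  obtain ⟨b, hb, hb'⟩ := Psi_le c' m0 hc'.le hm0
  have h1 : ∀ N, ∫⁻ ω, TN N 1 (nms β c J y ω) ∂(gam (ℕ × (Fin n × κ))) ≤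
      ((1 + ENNReal.ofReal B) * b) / ENNReal.ofReal c' := by
    intro N
    have h2 := int_TN β c J (hc := hc) (fun z hz => int_Zf β c J (hc := hc) hD hDB hBD z hz) hm0
      hU N 1 le_rfl y hy
    have h3 : ENNReal.ofReal c' * ∫⁻ ω, TN N 1 (nms β c J y ω) ∂(gam (ℕ × (Fin n × κ))) ≤
        (1 + ENNReal.ofReal B) * b := h2.trans (by gcongr; exact hb' _ _)
    have hc0 : ENNReal.ofReal c' ≠ 0 := (ENNReal.ofReal_pos.2 hc').ne'
    rw [ENNReal.le_div_iff_mul_le (Or.inl hc0) (Or.inl ENNReal.ofReal_ne_top), mul_comm]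
    exact h3
  refine ae_lt_top (Measurable.ennreal_tsum fun g => meas_tm (fun t => meas_nms_y β c J y t) 1 g) ?_
  have h4 : ∫⁻ ω, ∑' g, tm 1 (nms β c J y ω) g ∂(gam (ℕ × (Fin n × κ))) ≤
      ((1 + ENNReal.ofReal B) * b) / ENNReal.ofReal c' := by
    simp only [ENNReal.tsum_eq_iSup_nat]
    rw [lintegral_iSup]
    · exact iSup_le h1
    · intro N
      exact meas_TN (fun t => meas_nms_y β c J y t) 1 N
    · intro N M hNM ω
      exact Finset.sum_le_sum_of_subset (Finset.range_subset_range.2 hNM)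
  refine (h4.trans_lt ?_).ne
  refine ENNReal.div_lt_top (ENNReal.mul_lt_top ?_ hb.lt_top).ne (ENNReal.ofReal_pos.2 hc').ne'
  exact ENNReal.add_lt_top.2 ⟨ENNReal.one_lt_top, ENNReal.ofReal_lt_top⟩

end path

end Pool.Agent.V11331.GC
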