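import Pool.Agent.V11331.GC.Chain
import Pool.Agent.V11331.GC.Path3
import Pool.Agent.V11331.GC.Lyap

set_option autoImplicit false
set_option linter.unusedSectionVars false
set_option linter.unusedVariables false

open MeasureTheory ProbabilityTheory Filter Topology WithLp
open scoped ENNReal NNReal RealInnerProductSpace

namespace Pool.Agent.V11331.GC

/-- The one-dimensional projection of the chain. -/
theorem fin1 {n : ℕ} [NeZero n] (β : ℝ) {c : ℝ} (hc : 0 < c) (h0 : ∫ x, x ∂(nu n β c) = 0)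
    (x0 : Fin (n + 1) → ℝ) (hx : ¬ ∀ i j, x0 i = x0 j) :
    ∀ᵐ ω ∂(gam (ℕ × Fin (n + 1) × Fin (n + 1))),
      (∀ i, Tendsto (fun t => |ch1 β c x0 ω t i|) atTop atTop) ∧
      Tendsto (fun t => |(∑ i, ch1 β c x0 ω t i) / ((n : ℝ) + 1)|) atTop atTop := by
  have hn0 : (0 : ℝ) < (n : ℝ) + 1 := by positivity
  obtain ⟨b, hb⟩ := exists_basis n
  set y0 : EuclideanSpace ℝ (Fin n) := toLp 2 (fun j => ∑ l, b j.succ l * x0 l) with hy0
  have hb0 : ∀ i, b 0 i = (Real.sqrt (n + 1))⁻¹ := fun i => by rw [hb]; rfl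
  have hyne : y0 ≠ 0 := by
    intro h
    apply hx
    intro i j
    have h1 : ∀ j : Fin n, ∑ l, b j.succ l * x0 l = 0 := by
      intro j
      have := congrArg (fun w : EuclideanSpace ℝ (Fin n) => w j) h
      simpa [hy0] using this
    have h2 : ∀ i, x0 i = (∑ l, b 0 l * x0 l) * (Real.sqrt (n + 1))⁻¹ := by
      intro i
      have h3 := recover b x0 i
      rw [Fin.sum_univ_succ (f := fun j => (∑ l, b j l * x0 l) * b j i), hb0] at h3
      simp only [h1, zero_mul, Finset.sum_const_zero, add_zero] at h3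
      exact h3
    rw [h2 i, h2 j]
  have hg : Good (nu n β c) := nu_good β hc h0
  set m0 := (∑ k, x0 k) / ((n : ℝ) + 1) with hm0
  set c1 := c * (Real.sqrt (n + 1))⁻¹ with hc1
  have hc1p : 0 < c1 := by positivity
  -- the events
  set f : Fin (n + 1) → ℕ → (ℕ × Fin n × Fin (n + 1) → ℝ) × (ℕ × Fin (n + 1) → ℝ) → ℝ :=
    fun i t p => |mm m0 c1 (fun s => emb b (orb β c (emb b) y0 p.1 s)) p.2 t +
      emb b (orb β c (emb b) y0 p.1 t) i| with hf
  set f0 : ℕ → (ℕ × Fin n × Fin (n + 1) → ℝ) × (ℕ × Fin (n + 1) → ℝ) → ℝ :=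
    fun t p => |mm m0 c1 (fun s => emb b (orb β c (emb b) y0 p.1 s)) p.2 t + 0| with hf0
  have hmo : ∀ t, Measurable (fun p : (ℕ × Fin n × Fin (n + 1) → ℝ) × (ℕ × Fin (n + 1) → ℝ) =>
      emb b (orb β c (emb b) y0 p.1 t)) := by
    intro t
    have h1 : Measurable (fun p : (ℕ × Fin n × Fin (n + 1) → ℝ) × (ℕ × Fin (n + 1) → ℝ) =>
        (y0, p.1)) := measurable_const.prodMk measurable_fst
    exact (emb b).continuous.measurable.comp ((meas_orb β c (emb b) t).comp h1)
  have hmi : ∀ t i, Measurable (fun p : (ℕ × Fin n × Fin (n + 1) → ℝ) × (ℕ × Fin (n + 1) → ℝ) =>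
      emb b (orb β c (emb b) y0 p.1 t) i) := by
    intro t i
    have h1 : Measurable (fun w : EuclideanSpace ℝ (Fin (n + 1)) => w i) := by fun_prop
    exact h1.comp (hmo t)
  have hmm : ∀ t, Measurable (fun p : (ℕ × Fin n × Fin (n + 1) → ℝ) × (ℕ × Fin (n + 1) → ℝ) =>
      mm m0 c1 (fun s => emb b (orb β c (emb b) y0 p.1 s)) p.2 t) := by
    intro t
    unfold mm
    refine measurable_const.add (measurable_const.mul ?_)
    refine Finset.measurable_sum _ fun s _ => Finset.measurable_sum _ fun j _ => ?_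
    exact ((measurable_pi_apply (s, j)).comp measurable_snd).mul (hmi s j)
  have hfm : ∀ i t, Measurable (f i t) := fun i t => ((hmm t).add (hmi t i)).norm
  have hf0m : ∀ t, Measurable (f0 t) := fun t => ((hmm t).add measurable_const).norm
  have hE : MeasurableSet {p : (ℕ × Fin n × Fin (n + 1) → ℝ) × (ℕ × Fin (n + 1) → ℝ) |
      (∀ i, Tendsto (fun t => f i t p) atTop atTop) ∧ Tendsto (fun t => f0 t p) atTop atTop} := by
    have h1 : MeasurableSet {p : (ℕ × Fin n × Fin (n + 1) → ℝ) × (ℕ × Fin (n + 1) → ℝ) |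
      ∀ i, Tendsto (fun t => f i t p) atTop atTop} := by
      rw [Set.ofPred_forall]
      exact MeasurableSet.iInter fun i => measurableSet_tendsto _ (hfm i)
    exact h1.inter (measurableSet_tendsto _ hf0m)
  have hprod : ∀ᵐ p ∂((gam (ℕ × Fin n × Fin (n + 1))).prod (gam (ℕ × Fin (n + 1)))),
      (∀ i, Tendsto (fun t => f i t p) atTop atTop) ∧ Tendsto (fun t => f0 t p) atTop atTop := by
    rw [Measure.ae_prod_iff_ae_ae hE]
    have e1 : ∀ᵐ ω ∂(gam (ℕ × Fin n × Fin (n + 1))), ∀ t, nms β c (emb b) y0 ω t ≠ 0 :=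
      ae_all_iff.2 fun t => ae_orb_ne β c (emb b) (hc := hc) t y0 hyne
    have e2 : ∀ᵐ ω ∂(gam (ℕ × Fin n × Fin (n + 1))), ∀ N, ∃ t ≥ N, 1 ≤ nms β c (emb b) y0 ω t :=
      ae_all_iff.2 fun N => ae_enter_inf β c (emb b) (hc := hc) hg N y0 hyne
    have e3 : ∀ᵐ ω ∂(gam (ℕ × Fin n × Fin (n + 1))), ∑' g, tm 1 (nms β c (emb b) y0 ω) g < ∞ :=
      ae_total β c (emb b) (hc := hc) hg y0 hyne
    filter_upwards [e1, e2, e3] with ω h1 h2 h3
    have hs : ∀ t, nms β c (emb b) y0 ω t = ‖emb b (orb β c (emb b) y0 ω t)‖ := by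
      intro t
      rw [LinearIsometry.norm_map]
      unfold nms
      rfl
    have hz : ∀ t, emb b (orb β c (emb b) y0 ω t) ≠ 0 := by
      intro t h
      apply h1 t
      rw [hs, h, norm_zero]
    have hsp : ∀ t, 0 ≤ nms β c (emb b) y0 ω t := fun t => by rw [hs]; exact norm_nonneg _
    have g1 : ∀ i, ∀ᵐ η ∂(gam (ℕ × Fin (n + 1))), Tendsto (fun t => f i t (ω, η)) atTop atTop :=
      fun i => mean_div (z := fun s => emb b (orb β c (emb b) y0 ω s)) (m0 := m0) hc1p hs hz h3 h2
        (fun t => emb b (orb β c (emb b) y0 ω t) i) (fun t => by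
          rw [hs, ← Real.norm_eq_abs]
          exact PiLp.norm_apply_le _ i)
    have g2 : ∀ᵐ η ∂(gam (ℕ × Fin (n + 1))), Tendsto (fun t => f0 t (ω, η)) atTop atTop :=
      mean_div (z := fun s => emb b (orb β c (emb b) y0 ω s)) (m0 := m0) hc1p hs hz h3 h2
        (fun t => 0) (fun t => by rw [abs_zero]; exact hsp t)
    exact (ae_all_iff.2 g1).and g2
  have hmap : (gam (ℕ × Fin (n + 1) × Fin (n + 1))).map (fun ω => (noiD b ω, noiM b ω)) =
      (gam (ℕ × Fin n × Fin (n + 1))).prod (gam (ℕ × Fin (n + 1))) := by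
    have hM : Measurable (fun ω => (noiM b ω, noiD b ω)) := by
      refine Measurable.prodMk ?_ ?_
      · exact (meas_comp _).comp (meas_rotn b)
      · exact (meas_comp _).comp (meas_rotn b)
    rw [← Measure.prod_swap, ← noise_law b, Measure.map_map measurable_swap hM]
    rfl
  have hM2 : Measurable (fun ω => (noiD b ω, noiM b ω)) := by
    refine Measurable.prodMk ?_ ?_
    · exact (meas_comp _).comp (meas_rotn b)
    · exact (meas_comp _).comp (meas_rotn b)
  rw [← hmap] at hprod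
  have hfin := ae_of_ae_map hM2.aemeasurable hprod
  filter_upwards [hfin] with ω hω
  refine ⟨fun i => ?_, ?_⟩
  · refine (hω.1 i).congr fun t => ?_
    simp only [hf]
    rw [decomp b hb β c x0 ω t i]
  · refine hω.2.congr fun t => ?_
    simp only [hf0]
    congr 1
    rw [add_zero, Finset.sum_congr rfl (fun i _ => decomp b hb β c x0 ω t i),
      Finset.sum_add_distrib, emb_sum b hb]
    simp only [Finset.sum_const, Finset.card_univ, Fintype.card_fin, nsmul_eq_mul, add_zero]
    push_cast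
    field_simp
    rfl

end Pool.Agent.V11331.GC
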