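import Pool.Agent.V11331.GC.Rows
import Pool.Agent.V11331.GC.Fin

set_option autoImplicit false
set_option linter.unusedSectionVars false
set_option linter.unusedVariables false

open MeasureTheory ProbabilityTheory Filter Topology WithLp Matrix
open scoped ENNReal NNReal RealInnerProductSpace

namespace Pool.Agent.V11331.GC

section main

variable {n d : ℕ}

lemma inner_avg (u : EuclideanSpace ℝ (Fin d)) (y : Fin (n + 1) → EuclideanSpace ℝ (Fin d)) :
    ⟪u, avg y⟫ = (∑ i, ⟪u, y i⟫) / ((n : ℝ) + 1) := by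
  rw [avg, real_inner_smul_right, inner_sum]
  push_cast
  rw [div_eq_mul_inv, mul_comm]

lemma inner_step (α β : ℝ) (u : EuclideanSpace ℝ (Fin d))
    (x : Fin (n + 1) → EuclideanSpace ℝ (Fin d)) (g : Fin (n + 1) × Fin (n + 1) → ℝ)
    (i : Fin (n + 1)) :
    ⟪u, stepE α β x g i⟫ =
      st1 β (Real.sqrt (α * (1 - β) ^ 2 / ((n + 1 : ℕ) : ℝ))) (fun k => ⟪u, x k⟫) g i := by
  unfold stepE st1
  rw [inner_add_right, inner_add_right, real_inner_smul_right, real_inner_smul_right,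
    real_inner_smul_right, inner_sum, inner_avg]
  congr 2
  refine Finset.sum_congr rfl fun k _ => ?_
  rw [real_inner_smul_right, inner_sub_right, inner_avg]

lemma inner_iter (α β : ℝ) (u : EuclideanSpace ℝ (Fin d))
    (x : Fin (n + 1) → EuclideanSpace ℝ (Fin d)) (ω : ℕ × Fin (n + 1) × Fin (n + 1) → ℝ)
    (t : ℕ) : ∀ i, ⟪u, iter (stepE α β) x ω t i⟫ =
      ch1 β (Real.sqrt (α * (1 - β) ^ 2 / ((n + 1 : ℕ) : ℝ))) (fun k => ⟪u, x k⟫) ω t i := by
  induction t with
  | zero => intro i; rfl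
  | succ t ih =>
    intro i
    rw [iter, inner_step, ch1]
    congr 1
    ext k
    exact ih k

lemma nonconst (u : EuclideanSpace ℝ (Fin d)) (hu : u ≠ 0)
    (x : Fin (n + 1) → EuclideanSpace ℝ (Fin d)) (hx : (cov x).PosDef) :
    ¬ ∀ i j, ⟪u, x i⟫ = ⟪u, x j⟫ := by
  intro h
  have hu' : ofLp u ≠ 0 := by
    intro h0
    exact hu (by ext j; exact congrFun h0 j)
  have h1 := hx.dotProduct_mulVec_pos hu'
  have h2 : cov x = Matrix.of fun j l => Real.sqrt (((n + 1 : ℕ) : ℝ)⁻¹) ^ 2 *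
      ∑ k, (x k - avg x) j * (x k - avg x) l := by
    ext j l
    rw [Matrix.of_apply, Real.sq_sqrt (by positivity), cov, Matrix.of_apply]
    rfl
  rw [star_trivial, h2, row_quad] at h1
  have h3 : ∀ k, ∑ j, (x k - avg x) j * u j = 0 := by
    intro k
    have e1 : ∑ j, (x k - avg x) j * u j = ⟪u, x k - avg x⟫ := by
      simp only [PiLp.inner_apply]
      exact Finset.sum_congr rfl fun j _ => by simp
    rw [e1, inner_sub_right, inner_avg, Finset.sum_congr rfl (fun i _ => h i k)]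
    simp only [Finset.sum_const, Finset.card_univ, Fintype.card_fin, nsmul_eq_mul]
    have : (0 : ℝ) < (n : ℝ) + 1 := by positivity
    push_cast
    field_simp
    ring
  simp only [h3] at h1
  simp at h1

/-- The Markov property in terms of stopped paths. -/
lemma markov_conv {N d : ℕ} {α β : ℝ} (hα : 0 < α)
    {Ω : Type*} [MeasurableSpace Ω] (P : Measure Ω)
    (X : ℕ → Ω → Fin N → EuclideanSpace ℝ (Fin d))
    (hM : ∀ (t : ℕ) (C : Set (Fin (t + 1) → Fin N → EuclideanSpace ℝ (Fin d))),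
      MeasurableSet C → ∀ B : Set (Fin N → EuclideanSpace ℝ (Fin d)), MeasurableSet B →
      P {ω | (fun s : Fin (t + 1) => X s ω) ∈ C ∧ X (t + 1) ω ∈ B} =
        ∫⁻ ω in {ω | (fun s : Fin (t + 1) => X s ω) ∈ C},
          (Measure.pi (fun i => multivariateGaussian (β • X t ω i + (1 - β) • avg (X t ω))
            ((α * (1 - β) ^ 2) • cov (X t ω)))) B ∂P)
    (t : ℕ) (C : Set (ℕ → Fin N → EuclideanSpace ℝ (Fin d))) (hC : MeasurableSet C)
    (B : Set (Fin N → EuclideanSpace ℝ (Fin d))) (hB : MeasurableSet B) :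
    P {ω | (fun s => X (min s t) ω) ∈ C ∧ X (t + 1) ω ∈ B} =
        ∫⁻ ω in {ω | (fun s => X (min s t) ω) ∈ C},
          (gam (Fin N × Fin N)) (stepE α β (X t ω) ⁻¹' B) ∂P := by
  obtain ⟨r, hr⟩ : ∃ r : (Fin (t + 1) → Fin N → EuclideanSpace ℝ (Fin d)) →
      (ℕ → Fin N → EuclideanSpace ℝ (Fin d)),
      r = fun h s => h ⟨min s t, Nat.lt_succ_of_le (min_le_right s t)⟩ := ⟨_, rfl⟩
  have hrm : Measurable r := by
    rw [hr]
    exact measurable_pi_iff.2 fun s => measurable_pi_apply _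
  have hrX : ∀ ω, r (fun s : Fin (t + 1) => X s ω) = fun s => X (min s t) ω := by
    intro ω
    rw [hr]
  have h2 := hM t (r ⁻¹' C) (hrm hC) B hB
  have e1 : {ω | (fun s : Fin (t + 1) => X s ω) ∈ r ⁻¹' C ∧ X (t + 1) ω ∈ B} =
      {ω | (fun s => X (min s t) ω) ∈ C ∧ X (t + 1) ω ∈ B} := by
    ext ω
    rw [Set.mem_ofPred_eq, Set.mem_ofPred_eq, Set.mem_preimage, hrX]
  have e2 : {ω | (fun s : Fin (t + 1) => X s ω) ∈ r ⁻¹' C} =
      {ω | (fun s => X (min s t) ω) ∈ C} := by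
    ext ω
    rw [Set.mem_ofPred_eq, Set.mem_ofPred_eq, Set.mem_preimage, hrX]
  rw [e1, e2] at h2
  rw [h2]
  have e3 : ∀ ω, (Measure.pi (fun i => multivariateGaussian (β • X t ω i + (1 - β) • avg (X t ω))
            ((α * (1 - β) ^ 2) • cov (X t ω)))) B =
            (gam (Fin N × Fin N)) (stepE α β (X t ω) ⁻¹' B) := by
    intro ω
    have hs : Measurable (stepE α β (X t ω)) := (meas_stepE α β).of_uncurry_left
    rw [← step_trans hα (X t ω), Measure.map_apply hs hB]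
  exact lintegral_congr fun ω => e3 ω

/-- Main theorem for `N = n + 1`. -/
theorem main {n d : ℕ} [NeZero n] {α β : ℝ} (hα : 0 < α) (hβ1 : β < 1)
    (hmean : ∫ x, x ∂(nu n β (Real.sqrt (α * (1 - β) ^ 2 / ((n + 1 : ℕ) : ℝ)))) = 0)
    {Ω : Type*} [MeasurableSpace Ω] (P : Measure Ω) [IsProbabilityMeasure P]
    (X : ℕ → Ω → Fin (n + 1) → EuclideanSpace ℝ (Fin d)) (hX : ∀ t, Measurable (X t))
    (hinit : ∀ᵐ ω ∂P, (cov (X 0 ω)).PosDef)
    (hM : ∀ (t : ℕ) (C : Set (Fin (t + 1) → Fin (n + 1) → EuclideanSpace ℝ (Fin d))),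
      MeasurableSet C → ∀ B : Set (Fin (n + 1) → EuclideanSpace ℝ (Fin d)), MeasurableSet B →
      P {ω | (fun s : Fin (t + 1) => X s ω) ∈ C ∧ X (t + 1) ω ∈ B} =
        ∫⁻ ω in {ω | (fun s : Fin (t + 1) => X s ω) ∈ C},
          (Measure.pi (fun i => multivariateGaussian (β • X t ω i + (1 - β) • avg (X t ω))
            ((α * (1 - β) ^ 2) • cov (X t ω)))) B ∂P)
    (u : EuclideanSpace ℝ (Fin d)) (hu : u ≠ 0) :
    ∀ᵐ ω ∂P, (∀ i, Tendsto (fun t => |⟪u, X t ω i⟫|) atTop atTop) ∧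
      Tendsto (fun t => |⟪u, avg (X t ω)⟫|) atTop atTop := by
  have h1β : 0 < (1 - β) ^ 2 := by
    have : 0 < 1 - β := by linarith
    positivity
  have hc : 0 < Real.sqrt (α * (1 - β) ^ 2 / ((n + 1 : ℕ) : ℝ)) := by
    apply Real.sqrt_pos.2
    positivity
  have hst := meas_stepE (N := n + 1) (d := d) α β
  have hlaw := traj_law (stepE (N := n + 1) (d := d) α β) hst P X hX
    (markov_conv hα P X hM)
  -- the event
  set f : Fin (n + 1) → ℕ → (ℕ → Fin (n + 1) → EuclideanSpace ℝ (Fin d)) → ℝ :=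
    fun i t p => |⟪u, p t i⟫| with hf
  set f0 : ℕ → (ℕ → Fin (n + 1) → EuclideanSpace ℝ (Fin d)) → ℝ :=
    fun t p => |⟪u, avg (p t)⟫| with hf0
  have hfm : ∀ i t, Measurable (f i t) := by
    intro i t
    have h1 : Measurable (fun p : ℕ → Fin (n + 1) → EuclideanSpace ℝ (Fin d) => p t i) := by fun_prop
    exact (Measurable.const_inner (𝕜 := ℝ) (c := u) h1).norm
  have hf0m : ∀ t, Measurable (f0 t) := by
    intro t
    have h1 : Measurable (fun p : ℕ → Fin (n + 1) → EuclideanSpace ℝ (Fin d) => avg (p t)) := by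
      unfold avg
      fun_prop
    exact (Measurable.const_inner (𝕜 := ℝ) (c := u) h1).norm
  have hE : MeasurableSet {p : ℕ → Fin (n + 1) → EuclideanSpace ℝ (Fin d) |
      (∀ i, Tendsto (fun t => f i t p) atTop atTop) ∧ Tendsto (fun t => f0 t p) atTop atTop} := by
    have h1 : MeasurableSet {p : ℕ → Fin (n + 1) → EuclideanSpace ℝ (Fin d) |
      ∀ i, Tendsto (fun t => f i t p) atTop atTop} := by
      rw [Set.ofPred_forall]
      exact MeasurableSet.iInter fun i => measurableSet_tendsto _ (hfm i)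
    exact h1.inter (measurableSet_tendsto _ hf0m)
  have hm1 : Measurable (fun ω (t : ℕ) => X t ω) := measurable_pi_iff.2 hX
  have hm2 : Measurable (fun (p : (Fin (n + 1) → EuclideanSpace ℝ (Fin d)) ×
      (ℕ × Fin (n + 1) × Fin (n + 1) → ℝ)) (t : ℕ) => iter (stepE α β) p.1 p.2 t) :=
    measurable_pi_iff.2 fun t => meas_iter _ hst t
  have hcov : Measurable (fun x : Fin (n + 1) → EuclideanSpace ℝ (Fin d) => x) := measurable_id
  have hnc : MeasurableSet {x : Fin (n + 1) → EuclideanSpace ℝ (Fin d) |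
      ¬ ∀ i j, ⟪u, x i⟫ = ⟪u, x j⟫} := by
    suffices h : MeasurableSet {x : Fin (n + 1) → EuclideanSpace ℝ (Fin d) |
      ∀ i j, ⟪u, x i⟫ = ⟪u, x j⟫} from h.compl
    have : {x : Fin (n + 1) → EuclideanSpace ℝ (Fin d) | ∀ i j, ⟪u, x i⟫ = ⟪u, x j⟫} =
        ⋂ i, ⋂ j, {x | ⟪u, x i⟫ = ⟪u, x j⟫} := by
      ext x
      simp
    rw [this]
    refine MeasurableSet.iInter fun i => MeasurableSet.iInter fun j => ?_
    have e1 : ∀ i, Measurable (fun x : Fin (n + 1) → EuclideanSpace ℝ (Fin d) => ⟪u, x i⟫) := by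
      intro i
      have h1 : Measurable (fun p : Fin (n + 1) → EuclideanSpace ℝ (Fin d) => p i) := by fun_prop
      exact Measurable.const_inner h1
    exact measurableSet_eq_fun (e1 i) (e1 j)
  have hP' : ∀ᵐ p ∂((P.map (X 0)).prod (gam (ℕ × Fin (n + 1) × Fin (n + 1)))),
      (∀ i, Tendsto (fun t => f i t (fun t => iter (stepE α β) p.1 p.2 t)) atTop atTop) ∧
        Tendsto (fun t => f0 t (fun t => iter (stepE α β) p.1 p.2 t)) atTop atTop := by
    rw [Measure.ae_prod_iff_ae_ae (by exact hm2 hE)]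
    have h1 : ∀ᵐ x ∂(P.map (X 0)), ¬ ∀ i j, ⟪u, x i⟫ = ⟪u, x j⟫ := by
      rw [ae_map_iff (hX 0).aemeasurable hnc]
      filter_upwards [hinit] with ω hω
      exact nonconst u hu _ hω
    filter_upwards [h1] with x hx
    have h2 := fin1 (n := n) β hc hmean (fun i => ⟪u, x i⟫) hx
    filter_upwards [h2] with ω hω
    refine ⟨fun i => (hω.1 i).congr fun t => ?_, hω.2.congr fun t => ?_⟩
    · simp only [hf]
      rw [inner_iter]
    · simp only [hf0]
      rw [inner_avg]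
      simp only [inner_iter]
  have h3 : ∀ᵐ p ∂(P.map (fun ω t => X t ω)),
      (∀ i, Tendsto (fun t => f i t p) atTop atTop) ∧ Tendsto (fun t => f0 t p) atTop atTop := by
    rw [hlaw, ae_map_iff hm2.aemeasurable hE]
    exact hP'
  rw [ae_map_iff hm1.aemeasurable hE] at h3
  exact h3

end main

end Pool.Agent.V11331.GC
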