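import Pool.Agent.V11331.GC.Step

set_option autoImplicit false
set_option linter.unusedSectionVars false

open MeasureTheory ProbabilityTheory Filter Topology WithLp
open scoped ENNReal NNReal

namespace Pool.Agent.V11331.GC

section path

variable {n : ℕ} [NeZero n] {κ : Type} [Fintype κ] (β c : ℝ)
  (J : EuclideanSpace ℝ (Fin n) →ₗᵢ[ℝ] EuclideanSpace ℝ κ)

/-- The chain started at `y` and driven by the noise `ω`. -/
noncomputable def orb (y : EuclideanSpace ℝ (Fin n)) (ω : ℕ × (Fin n × κ) → ℝ) :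
    ℕ → EuclideanSpace ℝ (Fin n)
  | 0 => y
  | t + 1 => nxt β c J (orb y ω t) (fun a => ω (t, a))

/-- The shifted noise. -/
def shf {A : Type} (ω : ℕ × A → ℝ) : ℕ × A → ℝ := fun p => ω (p.1 + 1, p.2)

lemma orb_succ (y : EuclideanSpace ℝ (Fin n)) (ω : ℕ × (Fin n × κ) → ℝ) (t : ℕ) :
    orb β c J y ω (t + 1) = orb β c J (nxt β c J y (fun a => ω (0, a))) (shf ω) t := by
  induction t with
  | zero => rfl
  | succ t ih =>
    rw [orb, ih, orb]
    rfl

lemma meas_orb (t : ℕ) : Measurable (fun p : EuclideanSpace ℝ (Fin n) × (ℕ × (Fin n × κ) → ℝ) =>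
    orb β c J p.1 p.2 t) := by
  induction t with
  | zero => exact measurable_fst
  | succ t ih =>
    have h : Measurable (fun p : EuclideanSpace ℝ (Fin n) × (ℕ × (Fin n × κ) → ℝ) =>
        (orb β c J p.1 p.2 t, (fun a => p.2 (t, a)))) :=
      ih.prodMk (measurable_pi_iff.2 fun a => (measurable_pi_apply (t, a)).comp measurable_snd)
    exact (meas_nxt J β c).comp h

lemma first {A : Type} {F : (A → ℝ) → (ℕ × A → ℝ) → ℝ≥0∞}
    (hF : Measurable (Function.uncurry F)) :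
    ∫⁻ ω, F (fun a => ω (0, a)) (shf ω) ∂(gam (ℕ × A)) =
      ∫⁻ a, ∫⁻ ω, F a ω ∂(gam (ℕ × A)) ∂(gam A) := by
  have h1 := map_pair (ι := ℕ × A) (A := A) (B := ℕ × A) (fun a => (0, a))
    (fun p => (p.1 + 1, p.2)) (fun a b h => by simpa using h)
    (fun p q h => by
      have h1 := congrArg Prod.fst h
      have h2 := congrArg Prod.snd h
      simp only [add_left_inj] at h1
      exact Prod.ext h1 h2)
    (fun a b h => by
      have h1 := congrArg Prod.fst h
      simp at h1)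
  calc ∫⁻ ω, F (fun a => ω (0, a)) (shf ω) ∂(gam (ℕ × A))
      = ∫⁻ p, Function.uncurry F p ∂((gam (ℕ × A)).map
          (fun ω => ((fun a => ω (0, a)), (fun b : ℕ × A => ω (b.1 + 1, b.2))))) := by
        rw [lintegral_map hF]
        · rfl
        · exact (meas_comp _).prodMk (meas_comp _)
    _ = _ := by
        rw [h1, lintegral_prod _ hF.aemeasurable]
        rfl

lemma step_pot {hc : 0 < c} {y : EuclideanSpace ℝ (Fin n)} (hy : y ≠ 0) {F : ℝ → ℝ≥0∞}
    (hF : Measurable F) {U : EuclideanSpace ℝ (Fin n) → ℝ≥0∞}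
    (hU : ∀ z, z ≠ 0 → U z ≤ F (Real.log ‖z‖)) :
    ∫⁻ a, U (nxt β c J y a) ∂(gam (Fin n × κ)) ≤ ∫⁻ ξ, F (Real.log ‖y‖ + ξ) ∂(nu n β c) := by
  rw [← step_law J β hc y hy hF]
  refine lintegral_mono_ae ?_
  filter_upwards [ae_nxt_ne J β hc y hy] with a ha
  exact hU _ ha

/-- The norms along the chain. -/
@[irreducible] noncomputable def nms (y : EuclideanSpace ℝ (Fin n)) (ω : ℕ × (Fin n × κ) → ℝ) (t : ℕ) : ℝ :=
  ‖orb β c J y ω t‖

lemma meas_nms (t : ℕ) : Measurable (fun p : EuclideanSpace ℝ (Fin n) × (ℕ × (Fin n × κ) → ℝ) =>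
    nms β c J p.1 p.2 t) := by
  unfold nms
  exact (meas_orb β c J t).norm

lemma nms_zero (y : EuclideanSpace ℝ (Fin n)) (ω : ℕ × (Fin n × κ) → ℝ) :
    nms β c J y ω 0 = ‖y‖ := by
  unfold nms
  rfl

lemma meas_nms_y (y : EuclideanSpace ℝ (Fin n)) (t : ℕ) :
    Measurable (fun ω : ℕ × (Fin n × κ) → ℝ => nms β c J y ω t) := by
  have h : Measurable (fun ω : ℕ × (Fin n × κ) → ℝ => (y, ω)) := measurable_prodMk_left
  exact (meas_nms β c J t).comp h

lemma meas_nms_nxt (y : EuclideanSpace ℝ (Fin n)) (t : ℕ) :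
    Measurable (fun p : (Fin n × κ → ℝ) × (ℕ × (Fin n × κ) → ℝ) =>
      nms β c J (nxt β c J y p.1) p.2 t) := by
  have h0 : Measurable (fun a : Fin n × κ → ℝ => (y, a)) := measurable_prodMk_left
  have h1 : Measurable (fun a : Fin n × κ → ℝ => nxt β c J y a) := (meas_nxt J β c).comp h0
  have h2 : Measurable (fun p : (Fin n × κ → ℝ) × (ℕ × (Fin n × κ) → ℝ) =>
      (nxt β c J y p.1, p.2)) := (h1.comp measurable_fst).prodMk measurable_snd
  exact (meas_nms β c J t).comp h2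

lemma nms_succ (y : EuclideanSpace ℝ (Fin n)) (ω : ℕ × (Fin n × κ) → ℝ) :
    (fun t => nms β c J y ω (t + 1)) = nms β c J (nxt β c J y (fun a => ω (0, a))) (shf ω) := by
  ext t
  unfold nms
  rw [orb_succ]

/-- Partial sums of the norms before the first time in `[1, ∞)`. -/
noncomputable def ZN (N : ℕ) (s : ℕ → ℝ) : ℝ≥0∞ :=
  ∑ k ∈ Finset.range N, if ∀ i ≤ k, s i < 1 then ENNReal.ofReal (s k) else 0

/-- The sum of the norms before the first time in `[1, ∞)`. -/
noncomputable def Zf (s : ℕ → ℝ) : ℝ≥0∞ := ∑' k, if ∀ i ≤ k, s i < 1 then ENNReal.ofReal (s k) else 0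

lemma cond_succ (s : ℕ → ℝ) (k : ℕ) :
    (∀ i ≤ k + 1, s i < 1) ↔ s 0 < 1 ∧ ∀ i ≤ k, s (i + 1) < 1 := by
  constructor
  · intro h
    exact ⟨h 0 (Nat.zero_le _), fun i hi => h (i + 1) (by omega)⟩
  · rintro ⟨h0, h1⟩ i hi
    rcases i with _ | i
    · exact h0
    · exact h1 i (by omega)

lemma ZN_succ (N : ℕ) (s : ℕ → ℝ) :
    ZN (N + 1) s = if s 0 < 1 then ENNReal.ofReal (s 0) + ZN N (fun t => s (t + 1)) else 0 := by
  unfold ZN
  rw [Finset.sum_range_succ']
  by_cases h : s 0 < 1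
  · rw [if_pos h, add_comm]
    congr 1
    · rw [if_pos]
      intro i hi
      rw [Nat.le_zero.1 hi]
      exact h
    · refine Finset.sum_congr rfl fun k _ => ?_
      simp only [cond_succ, h, true_and]
  · rw [if_neg h, if_neg (fun h' => h (h' 0 le_rfl)), add_zero]
    refine Finset.sum_eq_zero fun k _ => ?_
    rw [if_neg]
    intro h'
    exact h (h' 0 (Nat.zero_le _))

lemma Zf_eq (s : ℕ → ℝ) : Zf s = ⨆ N, ZN N s := ENNReal.tsum_eq_iSup_nat

lemma meas_cond {Ω : Type} [MeasurableSpace Ω] {s : ℕ → Ω → ℝ} (hs : ∀ t, Measurable (s t))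
    (k : ℕ) : MeasurableSet {ω | ∀ i ≤ k, s i ω < 1} := by
  have : {ω | ∀ i ≤ k, s i ω < 1} = ⋂ i ∈ Finset.range (k + 1), {ω | s i ω < 1} := by
    ext ω
    simp
  rw [this]
  exact Finset.measurableSet_biInter _ fun i _ => measurableSet_lt (hs i) measurable_const

lemma meas_ZN {Ω : Type} [MeasurableSpace Ω] {s : ℕ → Ω → ℝ} (hs : ∀ t, Measurable (s t))
    (N : ℕ) : Measurable (fun ω => ZN N (fun t => s t ω)) := by
  unfold ZN
  refine Finset.measurable_sum _ fun k _ => ?_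
  exact Measurable.ite (meas_cond hs k) ((hs k).ennreal_ofReal) measurable_const

lemma meas_Zf {Ω : Type} [MeasurableSpace Ω] {s : ℕ → Ω → ℝ} (hs : ∀ t, Measurable (s t)) :
    Measurable (fun ω => Zf (fun t => s t ω)) := by
  simp only [Zf_eq]
  exact Measurable.iSup fun N => meas_ZN hs N

lemma int_ZN {hc : 0 < c} {B D : ℝ} (hD : 0 < D) (hDB : D ≤ B)
    (hBD : ∀ x : ℝ, x < 0 → ∫⁻ ξ, ENNReal.ofReal (B - D * Real.exp (x + ξ)) ∂(nu n β c) +
      ENNReal.ofReal (Real.exp x) ≤ ENNReal.ofReal (B - D * Real.exp x)) (N : ℕ) :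
    ∀ y : EuclideanSpace ℝ (Fin n), y ≠ 0 →
      ∫⁻ ω, ZN N (nms β c J y ω) ∂(gam (ℕ × (Fin n × κ))) ≤
        if ‖y‖ < 1 then ENNReal.ofReal (B - D * ‖y‖) else 0 := by
  induction N with
  | zero => intro y _; simp [ZN]
  | succ N ih =>
    intro y hy
    have hpos : 0 < ‖y‖ := norm_pos_iff.2 hy
    have h1 : ∀ ω, ZN (N + 1) (nms β c J y ω) = if ‖y‖ < 1 then ENNReal.ofReal ‖y‖ +
        ZN N (nms β c J (nxt β c J y (fun a => ω (0, a))) (shf ω)) else 0 := by
      intro ω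
      rw [ZN_succ, nms_succ, nms_zero]
    simp only [h1]
    split_ifs with hlt
    · have hm : Measurable (Function.uncurry fun (a : Fin n × κ → ℝ)
          (ω : ℕ × (Fin n × κ) → ℝ) => ENNReal.ofReal ‖y‖ + ZN N (nms β c J (nxt β c J y a) ω)) := by
        have := meas_ZN (s := fun t (p : (Fin n × κ → ℝ) ×
          (ℕ × (Fin n × κ) → ℝ)) => nms β c J (nxt β c J y p.1) p.2 t)
          (fun t => meas_nms_nxt β c J y t) N
        exact measurable_const.add this
      rw [first (F := fun a ω => ENNReal.ofReal ‖y‖ + ZN N (nms β c J (nxt β c J y a) ω)) hm]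
      have hx : Real.log ‖y‖ < 0 := Real.log_neg hpos hlt
      have h2 := hBD _ hx
      rw [Real.exp_log hpos] at h2
      refine le_trans ?_ h2
      calc ∫⁻ a, ∫⁻ ω, (ENNReal.ofReal ‖y‖ + ZN N (nms β c J (nxt β c J y a) ω))
            ∂(gam (ℕ × (Fin n × κ))) ∂(gam (Fin n × κ))
          = ∫⁻ a, (ENNReal.ofReal ‖y‖ + ∫⁻ ω, ZN N (nms β c J (nxt β c J y a) ω)
            ∂(gam (ℕ × (Fin n × κ)))) ∂(gam (Fin n × κ)) := by
            refine lintegral_congr fun a => ?_
            rw [lintegral_add_left measurable_const]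
            simp
        _ ≤ ENNReal.ofReal ‖y‖ + ∫⁻ a, (∫⁻ ω, ZN N (nms β c J (nxt β c J y a) ω)
            ∂(gam (ℕ × (Fin n × κ)))) ∂(gam (Fin n × κ)) := by
            rw [lintegral_add_left measurable_const]
            simp
        _ ≤ ENNReal.ofReal ‖y‖ + ∫⁻ ξ, ENNReal.ofReal (B - D * Real.exp (Real.log ‖y‖ + ξ))
            ∂(nu n β c) := by
            gcongr
            refine step_pot β c J (hc := hc) hy
              (F := fun x => ENNReal.ofReal (B - D * Real.exp x)) (by fun_prop)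
              (U := fun z => ∫⁻ ω, ZN N (nms β c J z ω) ∂(gam (ℕ × (Fin n × κ)))) ?_
            intro z hz
            refine (ih z hz).trans ?_
            split_ifs
            · rw [Real.exp_log (norm_pos_iff.2 hz)]
            · exact zero_le
        _ = _ := add_comm _ _
    · simp

lemma int_Zf {hc : 0 < c} {B D : ℝ} (hD : 0 < D) (hDB : D ≤ B)
    (hBD : ∀ x : ℝ, x < 0 → ∫⁻ ξ, ENNReal.ofReal (B - D * Real.exp (x + ξ)) ∂(nu n β c) +
      ENNReal.ofReal (Real.exp x) ≤ ENNReal.ofReal (B - D * Real.exp x))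
    (y : EuclideanSpace ℝ (Fin n)) (hy : y ≠ 0) :
      ∫⁻ ω, Zf (nms β c J y ω) ∂(gam (ℕ × (Fin n × κ))) ≤ ENNReal.ofReal B := by
  simp only [Zf_eq]
  rw [lintegral_iSup]
  · refine iSup_le fun N => (int_ZN β c J (hc := hc) hD hDB hBD N y hy).trans ?_
    split_ifs
    · refine ENNReal.ofReal_le_ofReal ?_
      have : 0 ≤ D * ‖y‖ := by positivity
      linarith
    · exact zero_le
  · intro N
    exact meas_ZN (s := fun t ω => nms β c J y ω t) (fun t => meas_nms_y β c J y t) N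
  · intro N M hNM ω
    exact Finset.sum_le_sum_of_subset (Finset.range_subset_range.2 hNM)

end path

end Pool.Agent.V11331.GC
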