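import Pool.Agent.V11331.GC.Path

set_option autoImplicit false
set_option linter.unusedSectionVars false
set_option linter.unusedVariables false

open MeasureTheory ProbabilityTheory Filter Topology WithLp
open scoped ENNReal NNReal

namespace Pool.Agent.V11331.GC

section path

variable {n : ℕ} [NeZero n] {κ : Type} [Fintype κ] (β c : ℝ)
  (J : EuclideanSpace ℝ (Fin n) →ₗᵢ[ℝ] EuclideanSpace ℝ κ)

/-- The function does not see the starting point: expectation after one step. -/
lemma first' {y : EuclideanSpace ℝ (Fin n)} {F : (ℕ → ℝ) → ℝ≥0∞}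
    (hF : Measurable (fun p : (Fin n × κ → ℝ) × (ℕ × (Fin n × κ) → ℝ) =>
      F (nms β c J (nxt β c J y p.1) p.2))) :
    ∫⁻ ω, F (fun t => nms β c J y ω (t + 1)) ∂(gam (ℕ × (Fin n × κ))) =
      ∫⁻ a, ∫⁻ ω, F (nms β c J (nxt β c J y a) ω) ∂(gam (ℕ × (Fin n × κ)))
        ∂(gam (Fin n × κ)) := by
  simp only [nms_succ]
  exact first (F := fun a ω => F (nms β c J (nxt β c J y a) ω)) hF

lemma ae_orb_ne {hc : 0 < c} (t : ℕ) : ∀ y : EuclideanSpace ℝ (Fin n), y ≠ 0 →
    ∀ᵐ ω ∂(gam (ℕ × (Fin n × κ))), nms β c J y ω t ≠ 0 := by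
  induction t with
  | zero =>
    intro y hy
    refine Eventually.of_forall fun ω => ?_
    rw [nms_zero]
    exact norm_ne_zero_iff.2 hy
  | succ t ih =>
    intro y hy
    have hm : MeasurableSet {ω : ℕ × (Fin n × κ) → ℝ | nms β c J y ω (t + 1) ≠ 0} :=
      (meas_nms_y β c J y (t + 1)) (measurableSet_singleton (0 : ℝ)).compl
    have h1 := first' β c J (y := y)
      (F := fun s => ({x : ℝ | x = 0}.indicator 1 (s t) : ℝ≥0∞)) (by
        have : Measurable ({x : ℝ | x = 0}.indicator (1 : ℝ → ℝ≥0∞)) :=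
          measurable_one.indicator (measurableSet_singleton (0 : ℝ))
        exact this.comp (meas_nms_nxt β c J y t))
    have h2 : ∫⁻ a, ∫⁻ ω, ({x : ℝ | x = 0}.indicator 1 (nms β c J (nxt β c J y a) ω t) : ℝ≥0∞)
        ∂(gam (ℕ × (Fin n × κ))) ∂(gam (Fin n × κ)) = 0 := by
      rw [← nonpos_iff_eq_zero]
      calc _ ≤ ∫⁻ _a, 0 ∂(gam (Fin n × κ)) := by
            refine lintegral_mono_ae ?_
            filter_upwards [ae_nxt_ne J β hc y hy] with a ha
            rw [nonpos_iff_eq_zero]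
            refine lintegral_eq_zero_of_ae_eq_zero ?_
            filter_upwards [ih _ ha] with ω hω
            simp [hω]
        _ = 0 := by simp
    rw [h2] at h1
    have hm' : Measurable (fun ω : ℕ × (Fin n × κ) → ℝ =>
        ({x : ℝ | x = 0}.indicator 1 (nms β c J y ω (t + 1)) : ℝ≥0∞)) := by
      have : Measurable ({x : ℝ | x = 0}.indicator (1 : ℝ → ℝ≥0∞)) :=
        measurable_one.indicator (measurableSet_singleton (0 : ℝ))
      exact this.comp (meas_nms_y β c J y (t + 1))
    have h3 := (lintegral_eq_zero_iff hm').1 h1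
    filter_upwards [h3] with ω hω h0
    simp [h0] at hω

/-- Escape to the left before the first time in `[1, ∞)`. -/
noncomputable def QN (l : ℝ) (N : ℕ) (s : ℕ → ℝ) : ℝ≥0∞ :=
  if ∃ t < N, (∀ i ≤ t, s i < 1) ∧ s t ≤ l then 1 else 0

lemma meas_QN {Ω : Type} [MeasurableSpace Ω] {s : ℕ → Ω → ℝ} (hs : ∀ t, Measurable (s t))
    (l : ℝ) (N : ℕ) : Measurable (fun ω => QN l N (fun t => s t ω)) := by
  unfold QN
  refine Measurable.ite ?_ measurable_const measurable_const
  have : {a | ∃ t < N, (∀ i ≤ t, s i a < 1) ∧ s t a ≤ l} =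
      ⋃ t ∈ Finset.range N, ({a | ∀ i ≤ t, s i a < 1} ∩ {a | s t a ≤ l}) := by
    ext ω
    simp only [Set.mem_iUnion, Finset.mem_range, exists_prop]
    rfl
  rw [this]
  exact Finset.measurableSet_biUnion _ fun t _ => (meas_cond hs t).inter
    (measurableSet_le (hs t) measurable_const)

lemma QN_succ (l : ℝ) (N : ℕ) (s : ℕ → ℝ) :
    QN l (N + 1) s ≤ if s 0 < 1 then (if s 0 ≤ l then 1 else QN l N (fun t => s (t + 1))) else 0 := by
  unfold QN
  by_cases h : ∃ t < N + 1, (∀ i ≤ t, s i < 1) ∧ s t ≤ l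
  · obtain ⟨t, ht, h1, h2⟩ := h
    rw [if_pos ⟨t, ht, h1, h2⟩, if_pos (h1 0 (Nat.zero_le _))]
    split_ifs with h3 h4
    · exact le_rfl
    · exact le_rfl
    · rcases t with _ | t
      · exact absurd h2 h3
      · exact absurd ⟨t, by omega, fun i hi => h1 (i + 1) (by omega), h2⟩ h4
  · rw [if_neg h]
    exact zero_le

lemma int_QN {hc : 0 < c} {C : ℝ} (hC : ∀ x : ℝ, x < 0 →
    ∫⁻ ξ, ENNReal.ofReal (C - (x + ξ) - Real.exp (x + ξ)) ∂(nu n β c) ≤
      ENNReal.ofReal (C - x - Real.exp x) ∧ -x ≤ C - x - Real.exp x) (L : ℝ) (N : ℕ) :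
    ∀ y : EuclideanSpace ℝ (Fin n), y ≠ 0 →
      ∫⁻ ω, ENNReal.ofReal L * QN (Real.exp (-L)) N (nms β c J y ω) ∂(gam (ℕ × (Fin n × κ))) ≤
        if ‖y‖ < 1 then ENNReal.ofReal (C - Real.log ‖y‖ - ‖y‖) else 0 := by
  induction N with
  | zero =>
    intro y hy
    simp [QN]
  | succ N ih =>
    intro y hy
    have hpos : 0 < ‖y‖ := norm_pos_iff.2 hy
    split_ifs with hlt
    · have hx : Real.log ‖y‖ < 0 := Real.log_neg hpos hlt
      obtain ⟨hC1, hC2⟩ := hC _ hx
      rw [Real.exp_log hpos] at hC1 hC2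
      by_cases hl : ‖y‖ ≤ Real.exp (-L)
      · have hle : L ≤ C - Real.log ‖y‖ - ‖y‖ := by
          have := (Real.log_le_iff_le_exp hpos).2 hl
          linarith
        calc ∫⁻ ω, ENNReal.ofReal L * QN (Real.exp (-L)) (N + 1) (nms β c J y ω)
              ∂(gam (ℕ × (Fin n × κ)))
            ≤ ∫⁻ _ω, ENNReal.ofReal L ∂(gam (ℕ × (Fin n × κ))) := by
              refine lintegral_mono fun ω => ?_
              refine (mul_le_of_le_one_right' ?_)
              unfold QN
              split_ifs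
              · exact le_rfl
              · exact zero_le
          _ = ENNReal.ofReal L := by simp
          _ ≤ _ := ENNReal.ofReal_le_ofReal hle
      · refine le_trans ?_ hC1
        calc ∫⁻ ω, ENNReal.ofReal L * QN (Real.exp (-L)) (N + 1) (nms β c J y ω)
              ∂(gam (ℕ × (Fin n × κ)))
            ≤ ∫⁻ ω, ENNReal.ofReal L * QN (Real.exp (-L)) N (fun t => nms β c J y ω (t + 1))
              ∂(gam (ℕ × (Fin n × κ))) := by
              refine lintegral_mono fun ω => ?_
              gcongr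
              refine (QN_succ _ _ _).trans ?_
              rw [nms_zero, if_pos hlt, if_neg hl]
          _ = ∫⁻ a, ∫⁻ ω, ENNReal.ofReal L * QN (Real.exp (-L)) N (nms β c J (nxt β c J y a) ω)
              ∂(gam (ℕ × (Fin n × κ))) ∂(gam (Fin n × κ)) :=
              first' β c J (F := fun s => ENNReal.ofReal L * QN (Real.exp (-L)) N s)
                (measurable_const.mul (meas_QN (s := fun t (p : (Fin n × κ → ℝ) ×
                  (ℕ × (Fin n × κ) → ℝ)) => nms β c J (nxt β c J y p.1) p.2 t)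
                  (fun t => meas_nms_nxt β c J y t) _ N))
          _ ≤ _ := by
              refine step_pot β c J (hc := hc) hy
                (F := fun x => ENNReal.ofReal (C - x - Real.exp x)) (by fun_prop)
                (U := fun z => ∫⁻ ω, ENNReal.ofReal L * QN (Real.exp (-L)) N (nms β c J z ω)
                  ∂(gam (ℕ × (Fin n × κ)))) ?_
              intro z hz
              refine (ih z hz).trans ?_
              split_ifs
              · rw [Real.exp_log (norm_pos_iff.2 hz)]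
              · exact zero_le
    · rw [nonpos_iff_eq_zero]
      refine lintegral_eq_zero_of_ae_eq_zero (Eventually.of_forall fun ω => ?_)
      have := QN_succ (Real.exp (-L)) N (nms β c J y ω)
      rw [nms_zero, if_neg hlt] at this
      simp [nonpos_iff_eq_zero.1 this]

/-- The chain enters `{‖y‖ ≥ 1}`. -/
lemma ae_enter {hc : 0 < c} (hg : Good (nu n β c)) (y : EuclideanSpace ℝ (Fin n)) (hy : y ≠ 0) :
    ∀ᵐ ω ∂(gam (ℕ × (Fin n × κ))), ∃ t, 1 ≤ nms β c J y ω t := by
  obtain ⟨B, D, hD, hDB, hBD⟩ := hg.exists_H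
  obtain ⟨C, hC⟩ := hg.exists_W
  have hmA : MeasurableSet {ω : ℕ × (Fin n × κ) → ℝ | ∀ t, nms β c J y ω t < 1} := by
    have : {ω : ℕ × (Fin n × κ) → ℝ | ∀ t, nms β c J y ω t < 1} =
        ⋂ t, {ω | nms β c J y ω t < 1} := by ext ω; simp
    rw [this]
    exact MeasurableSet.iInter fun t => measurableSet_lt (meas_nms_y β c J y t) measurable_const
  have hZ : ∀ᵐ ω ∂(gam (ℕ × (Fin n × κ))), Zf (nms β c J y ω) < ∞ := by
    refine ae_lt_top (meas_Zf (fun t => meas_nms_y β c J y t)) ?_
    exact ((int_Zf β c J (hc := hc) hD hDB hBD y hy).trans_lt ENNReal.ofReal_lt_top).ne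
  have key : ∀ L : ℕ, (L : ℝ≥0∞) * gam (ℕ × (Fin n × κ)) {ω | ∀ t, nms β c J y ω t < 1} ≤
      ENNReal.ofReal (C - Real.log ‖y‖ - ‖y‖) := by
    intro L
    have h1 : ∀ N, ∫⁻ ω, ENNReal.ofReal L * QN (Real.exp (-(L : ℝ))) N (nms β c J y ω)
        ∂(gam (ℕ × (Fin n × κ))) ≤ ENNReal.ofReal (C - Real.log ‖y‖ - ‖y‖) := by
      intro N
      refine (int_QN β c J (hc := hc) hC L N y hy).trans ?_
      split_ifs
      · exact le_rfl
      · exact zero_le
    have h2 : ∫⁻ ω, ⨆ N, ENNReal.ofReal L * QN (Real.exp (-(L : ℝ))) N (nms β c J y ω)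
        ∂(gam (ℕ × (Fin n × κ))) ≤ ENNReal.ofReal (C - Real.log ‖y‖ - ‖y‖) := by
      rw [lintegral_iSup]
      · exact iSup_le h1
      · intro N
        exact measurable_const.mul (meas_QN (fun t => meas_nms_y β c J y t) _ N)
      · intro N M hNM ω
        show ENNReal.ofReal L * QN _ N _ ≤ ENNReal.ofReal L * QN _ M _
        gcongr
        unfold QN
        split_ifs with h3 h4
        · exact le_rfl
        · obtain ⟨t, ht, h5⟩ := h3
          exact absurd ⟨t, by omega, h5⟩ h4
        · exact zero_le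
        · exact le_rfl
    refine le_trans ?_ h2
    rw [← setLIntegral_const]
    rw [← lintegral_indicator hmA]
    refine lintegral_mono_ae ?_
    filter_upwards [hZ] with ω hω
    by_cases hn : ω ∈ {ω : ℕ × (Fin n × κ) → ℝ | ∀ t, nms β c J y ω t < 1}
    · rw [Set.indicator_of_mem hn]
      have hn' : ∀ t, nms β c J y ω t < 1 := hn
      have h3 : ∑' k, ENNReal.ofReal (nms β c J y ω k) ≠ ∞ := by
        have : Zf (nms β c J y ω) = ∑' k, ENNReal.ofReal (nms β c J y ω k) := by
          unfold Zf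
          refine tsum_congr fun k => ?_
          rw [if_pos fun i _ => hn' i]
        rw [← this]
        exact hω.ne
      have h4 := ENNReal.tendsto_atTop_zero_of_tsum_ne_top h3
      have h5 : ∀ᶠ k in atTop, ENNReal.ofReal (nms β c J y ω k) <
          ENNReal.ofReal (Real.exp (-(L : ℝ))) :=
        h4.eventually (gt_mem_nhds (ENNReal.ofReal_pos.2 (Real.exp_pos _)))
      obtain ⟨k, hk⟩ := h5.exists
      have hk' : nms β c J y ω k ≤ Real.exp (-(L : ℝ)) :=
        ((ENNReal.ofReal_lt_ofReal_iff (Real.exp_pos _)).1 hk).le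
      refine le_trans ?_ (le_iSup _ (k + 1))
      have : QN (Real.exp (-(L : ℝ))) (k + 1) (nms β c J y ω) = 1 := by
        unfold QN
        rw [if_pos ⟨k, by omega, fun i _ => hn' i, hk'⟩]
      rw [this, mul_one]
      simp
    · rw [Set.indicator_of_notMem hn]
      exact zero_le
  have h0 : gam (ℕ × (Fin n × κ)) {ω | ∀ t, nms β c J y ω t < 1} = 0 := by
    by_contra hne
    obtain ⟨L, hL⟩ := ENNReal.exists_nat_mul_gt hne
      (ENNReal.ofReal_ne_top (r := C - Real.log ‖y‖ - ‖y‖))
    exact absurd (key L) (not_le.2 hL)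
  rw [ae_iff]
  have : {a : ℕ × (Fin n × κ) → ℝ | ¬ ∃ t, 1 ≤ nms β c J y a t} =
      {ω | ∀ t, nms β c J y ω t < 1} := by
    ext ω
    simp
  rw [this]
  exact h0

/-- The chain is in `{‖y‖ ≥ 1}` at arbitrarily large times. -/
lemma ae_enter_inf {hc : 0 < c} (hg : Good (nu n β c)) (N : ℕ) :
    ∀ y : EuclideanSpace ℝ (Fin n), y ≠ 0 →
    ∀ᵐ ω ∂(gam (ℕ × (Fin n × κ))), ∃ t ≥ N, 1 ≤ nms β c J y ω t := by
  induction N with
  | zero =>
    intro y hy
    filter_upwards [ae_enter β c J (hc := hc) hg y hy] with ω hω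
    obtain ⟨t, ht⟩ := hω
    exact ⟨t, Nat.zero_le _, ht⟩
  | succ N ih =>
    intro y hy
    classical
    set F : (ℕ → ℝ) → ℝ≥0∞ := fun s => if ∃ t ≥ N, 1 ≤ s t then 0 else 1 with hF
    have hFm : ∀ {Ω : Type} [MeasurableSpace Ω] {s : ℕ → Ω → ℝ} (hs : ∀ t, Measurable (s t)),
        Measurable (fun ω => F (fun t => s t ω)) := by
      intro Ω _ s hs
      rw [hF]
      refine Measurable.ite ?_ measurable_const measurable_const
      have : {a | ∃ t ≥ N, 1 ≤ s t a} = ⋃ t ∈ Set.Ici N, {a | 1 ≤ s t a} := by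
        ext ω
        simp
      rw [this]
      exact MeasurableSet.biUnion (Set.to_countable _) fun t _ =>
        measurableSet_le measurable_const (hs t)
    have h1 := first' β c J (y := y) (F := F)
      (hFm (s := fun t (p : (Fin n × κ → ℝ) × (ℕ × (Fin n × κ) → ℝ)) =>
        nms β c J (nxt β c J y p.1) p.2 t) (fun t => meas_nms_nxt β c J y t))
    have h2 : ∫⁻ a, ∫⁻ ω, F (nms β c J (nxt β c J y a) ω)
        ∂(gam (ℕ × (Fin n × κ))) ∂(gam (Fin n × κ)) = 0 := by
      rw [← nonpos_iff_eq_zero]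
      calc _ ≤ ∫⁻ _a, 0 ∂(gam (Fin n × κ)) := by
            refine lintegral_mono_ae ?_
            filter_upwards [ae_nxt_ne J β hc y hy] with a ha
            rw [nonpos_iff_eq_zero]
            refine lintegral_eq_zero_of_ae_eq_zero ?_
            filter_upwards [ih _ ha] with ω hω
            simp only [hF, Pi.zero_apply]
            rw [if_pos hω]
        _ = 0 := by simp
    rw [h2] at h1
    have h3 := (lintegral_eq_zero_iff (hFm (s := fun t ω => nms β c J y ω (t + 1))
      (fun t => meas_nms_y β c J y (t + 1)))).1 h1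
    filter_upwards [h3] with ω hω
    simp only [hF, Pi.zero_apply] at hω
    by_contra hn
    rw [if_neg] at hω
    · exact one_ne_zero hω
    · rintro ⟨t, ht, h4⟩
      exact hn ⟨t + 1, by omega, h4⟩

end path

end Pool.Agent.V11331.GC
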