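import Mathlib

set_option autoImplicit false
set_option linter.unusedSectionVars false

open MeasureTheory Filter Topology
open scoped ENNReal

namespace Pool.Agent.V11331.GC

section pot

variable (ν : Measure ℝ) [IsProbabilityMeasure ν]

/-- Centred, not degenerate, with an exponential moment. -/
structure Good : Prop where
  int1 : Integrable (fun x : ℝ => x) ν
  mean0 : ∫ x, x ∂ν = 0
  intE : Integrable (fun x : ℝ => Real.exp x) ν
  nondeg : ν {x | x ≠ 0} ≠ 0

variable {ν}

lemma Good.kappa (h : Good ν) : 1 < ∫ x, Real.exp x ∂ν := by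
  have hi : Integrable (fun x : ℝ => Real.exp x - 1 - x) ν :=
    (h.intE.sub (integrable_const 1)).sub h.int1
  have h0 : 0 < ∫ x, (Real.exp x - 1 - x) ∂ν := by
    rw [integral_pos_iff_support_of_nonneg (fun x => by
      have := Real.add_one_le_exp x
      simp only [Pi.zero_apply]; linarith) hi]
    have hs : Function.support (fun x : ℝ => Real.exp x - 1 - x) = {x | x ≠ 0} := by
      ext x
      simp only [Function.mem_support, Set.mem_ofPred_eq]
      constructor
      · rintro hx rfl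
        simp at hx
      · intro hx
        have := Real.add_one_lt_exp hx
        intro h
        linarith
    rw [hs]
    exact pos_iff_ne_zero.2 h.nondeg
  have hi1 : Integrable (fun x : ℝ => Real.exp x - 1) ν := h.intE.sub (integrable_const 1)
  have e1 : ∫ x, (Real.exp x - 1 - x) ∂ν = ∫ x, (Real.exp x - 1) ∂ν - ∫ x, x ∂ν :=
    integral_sub hi1 h.int1
  have e2 : ∫ x, (Real.exp x - 1) ∂ν = ∫ x, Real.exp x ∂ν - ∫ _x : ℝ, (1 : ℝ) ∂ν :=
    integral_sub h.intE (integrable_const 1)
  rw [e1, e2, h.mean0] at h0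
  simp at h0
  linarith

lemma sq_le_exp {x : ℝ} (hx : 0 ≤ x) : x ^ 2 ≤ 2 * Real.exp x := by
  have := Real.quadratic_le_exp_of_nonneg hx
  nlinarith

lemma Good.tailE (h : Good ν) {ε : ℝ} (hε : 0 < ε) :
    ∃ q0 : ℝ, 1 ≤ q0 ∧ ∀ q ≥ q0, ∫ x, max (Real.exp x - q) 0 ∂ν ≤ ε := by
  have ht : Tendsto (fun q : ℝ => ∫ x, max (Real.exp x - q) 0 ∂ν) atTop (𝓝 (∫ _x : ℝ, (0 : ℝ) ∂ν)) := by
    refine tendsto_integral_filter_of_dominated_convergence (fun x => Real.exp x)
      (Eventually.of_forall fun q => by fun_prop) ?_ h.intE ?_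
    · filter_upwards [eventually_ge_atTop (0 : ℝ)] with q hq
      refine Eventually.of_forall fun x => ?_
      have := Real.exp_pos x
      rw [Real.norm_eq_abs, abs_of_nonneg (le_max_right _ _)]
      exact max_le (by linarith) this.le
    · refine Eventually.of_forall fun x => ?_
      refine tendsto_const_nhds.congr' ?_
      filter_upwards [eventually_ge_atTop (Real.exp x)] with q hq
      rw [max_eq_right (by linarith)]
  rw [integral_zero] at ht
  have h1 := (ht.eventually (gt_mem_nhds hε)).and (eventually_ge_atTop (1 : ℝ))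
  obtain ⟨q0, hq0⟩ := h1.exists_forall_of_atTop
  exact ⟨q0, (hq0 q0 le_rfl).2, fun q hq => (hq0 q hq).1.le⟩

lemma int_possq (h : Good ν) : Integrable (fun x : ℝ => (max x 0) ^ 2) ν := by
  refine (h.intE.const_mul 2).mono' (by fun_prop) (Eventually.of_forall fun x => ?_)
  rw [Real.norm_eq_abs, abs_of_nonneg (by positivity)]
  rcases le_total 0 x with hx | hx
  · rw [max_eq_left hx]
    exact sq_le_exp hx
  · rw [max_eq_right hx]
    have := Real.exp_pos x
    simp [this.le]

lemma Good.varpos (h : Good ν) : 0 < ∫ x, (max x 0) ^ 2 ∂ν := by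
  rw [integral_pos_iff_support_of_nonneg (fun x => by positivity) (int_possq h)]
  have hs : Function.support (fun x : ℝ => (max x 0) ^ 2) = {x | 0 < x} := by
    ext x
    simp only [Function.mem_support, Set.mem_ofPred_eq]
    constructor
    · intro hx
      by_contra hn
      rw [max_eq_right (not_lt.1 hn)] at hx
      simp at hx
    · intro hx
      rw [max_eq_left hx.le]
      positivity
  rw [hs, pos_iff_ne_zero]
  intro h0
  have h1 : ∀ᵐ x ∂ν, 0 ≤ -x := by
    rw [ae_iff]
    have : {a : ℝ | ¬ 0 ≤ -a} = {x | 0 < x} := by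
      ext x; simp
    rw [this]
    exact h0
  have h2 : ∫ x, -x ∂ν = 0 := by rw [integral_neg, h.mean0, neg_zero]
  have h3 := (integral_eq_zero_iff_of_nonneg_ae h1 h.int1.neg).1 h2
  apply h.nondeg
  have h4 : ∀ᵐ x ∂ν, x = 0 := by
    filter_upwards [h3] with x hx
    simpa using hx
  rwa [ae_iff] at h4

lemma Good.tailS (h : Good ν) {ε : ℝ} (hε : 0 < ε) :
    ∃ m0 : ℝ, 1 ≤ m0 ∧ ∀ m ≥ m0, ∫ x, (if m < x then x ^ 2 else 0) ∂ν ≤ ε := by
  have ht : Tendsto (fun m : ℝ => ∫ x, (if m < x then x ^ 2 else 0) ∂ν) atTop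
      (𝓝 (∫ _x : ℝ, (0 : ℝ) ∂ν)) := by
    refine tendsto_integral_filter_of_dominated_convergence (fun x => 2 * Real.exp x)
      (Eventually.of_forall fun q => ?_) ?_ (h.intE.const_mul 2) ?_
    · exact (Measurable.ite measurableSet_Ioi (by fun_prop) measurable_const).aestronglyMeasurable
    · filter_upwards [eventually_ge_atTop (0 : ℝ)] with q hq
      refine Eventually.of_forall fun x => ?_
      have := Real.exp_pos x
      split_ifs with hx
      · rw [Real.norm_eq_abs, abs_of_nonneg (by positivity)]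
        exact sq_le_exp (by linarith)
      · simp [this.le]
    · refine Eventually.of_forall fun x => ?_
      refine tendsto_const_nhds.congr' ?_
      filter_upwards [eventually_ge_atTop x] with q hq
      rw [if_neg (not_lt.2 hq)]
  rw [integral_zero] at ht
  have h1 := (ht.eventually (gt_mem_nhds hε)).and (eventually_ge_atTop (1 : ℝ))
  obtain ⟨q0, hq0⟩ := h1.exists_forall_of_atTop
  exact ⟨q0, (hq0 q0 le_rfl).2, fun q hq => (hq0 q hq).1.le⟩

lemma lint_le {f g : ℝ → ℝ} {a e : ℝ} (he : 0 ≤ e) (hg : Integrable g ν)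
    (h0 : ∀ x, 0 ≤ g x) (h : ∀ x, f x ≤ g x) (hi : ∫ x, g x ∂ν + e ≤ a) :
    ∫⁻ x, ENNReal.ofReal (f x) ∂ν + ENNReal.ofReal e ≤ ENNReal.ofReal a := by
  calc ∫⁻ x, ENNReal.ofReal (f x) ∂ν + ENNReal.ofReal e
      ≤ ∫⁻ x, ENNReal.ofReal (g x) ∂ν + ENNReal.ofReal e := by
        gcongr with x
        exact h x
    _ = ENNReal.ofReal (∫ x, g x ∂ν) + ENNReal.ofReal e := by
        rw [ofReal_integral_eq_lintegral_ofReal hg (Eventually.of_forall h0)]
    _ = ENNReal.ofReal (∫ x, g x ∂ν + e) :=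
        (ENNReal.ofReal_add (integral_nonneg h0) he).symm
    _ ≤ ENNReal.ofReal a := ENNReal.ofReal_le_ofReal hi

lemma int3 {f g : ℝ → ℝ} (hf : Integrable f ν) (hg : Integrable g ν) (a b c : ℝ) :
    Integrable (fun x => a + b * f x + c * g x) ν ∧
      ∫ x, (a + b * f x + c * g x) ∂ν = a + b * ∫ x, f x ∂ν + c * ∫ x, g x ∂ν := by
  have h1 : Integrable (fun x => a + b * f x) ν := (integrable_const a).add (hf.const_mul b)
  have h2 : Integrable (fun x => c * g x) ν := hg.const_mul c
  refine ⟨h1.add h2, ?_⟩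
  have e1 : ∫ x, (a + b * f x + c * g x) ∂ν = ∫ x, (a + b * f x) ∂ν + ∫ x, c * g x ∂ν :=
    integral_add h1 h2
  have e2 : ∫ x, (a + b * f x) ∂ν = ∫ _x : ℝ, a ∂ν + ∫ x, b * f x ∂ν :=
    integral_add (integrable_const a) (hf.const_mul b)
  rw [e1, e2, integral_const_mul, integral_const_mul]
  simp

lemma exp_lt_one' {x : ℝ} (hx : x < 0) : Real.exp x < 1 := Real.exp_lt_one_iff.2 hx

/-- The first potential: the sum of `exp S` before the first time in `[0, ∞)`. -/
lemma Good.exists_H (h : Good ν) : ∃ B D : ℝ, 0 < D ∧ D ≤ B ∧ ∀ x : ℝ, x < 0 →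
    ∫⁻ ξ, ENNReal.ofReal (B - D * Real.exp (x + ξ)) ∂ν + ENNReal.ofReal (Real.exp x) ≤
      ENNReal.ofReal (B - D * Real.exp x) := by
  set k := ∫ x, Real.exp x ∂ν - 1 with hk
  have hk0 : 0 < k := by have := h.kappa; linarith
  obtain ⟨q, hq1, hq⟩ := h.tailE (half_pos hk0)
  have hD : 0 < 2 / k := by positivity
  refine ⟨2 / k * q, 2 / k, hD, ?_, fun x hx => ?_⟩
  · nlinarith
  have hDk : 2 / k * k = 2 := by field_simp
  generalize 2 / k = D at hD hDk ⊢
  have hxe : Real.exp x < 1 := exp_lt_one' hx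
  have hx0 := Real.exp_pos x
  have hmax : Integrable (fun ξ => max (Real.exp ξ - q) 0) ν :=
    (h.intE.sub (integrable_const q)).sup (integrable_const 0)
  have h3 : ∫ x, Real.exp x ∂ν = 1 + k := by rw [hk]; ring
  obtain ⟨hi, he⟩ := int3 h.intE hmax (D * q) (-(D * Real.exp x)) (D * Real.exp x)
  refine lint_le hx0.le hi (fun ξ => ?_) (fun ξ => ?_) ?_
  · rcases le_total (Real.exp ξ) q with h1 | h1
    · rw [max_eq_right (by linarith)]
      have h2 : Real.exp x * Real.exp ξ ≤ 1 * q :=
        mul_le_mul hxe.le h1 (Real.exp_pos _).le zero_le_one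
      nlinarith
    · rw [max_eq_left (by linarith)]
      have : D * q + -(D * Real.exp x) * Real.exp ξ + D * Real.exp x * (Real.exp ξ - q) =
        D * q * (1 - Real.exp x) := by ring
      rw [this]
      have : 0 ≤ 1 - Real.exp x := by linarith
      positivity
  · have h1 : 0 ≤ D * Real.exp x * max (Real.exp ξ - q) 0 := by positivity
    rw [Real.exp_add]
    nlinarith
  · rw [he, h3]
    have h1 := hq q le_rfl
    have h2 : D * Real.exp x * ∫ ξ, max (Real.exp ξ - q) 0 ∂ν ≤ D * Real.exp x * (k / 2) :=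
      mul_le_mul_of_nonneg_left h1 (by positivity)
    have h5 : D * Real.exp x * (1 + k) = D * Real.exp x + D * k * Real.exp x := by ring
    have h6 : D * Real.exp x * (k / 2) = D * k / 2 * Real.exp x := by ring
    rw [hDk] at h5 h6
    nlinarith

/-- The second potential: far excursions to the left are unlikely. -/
lemma Good.exists_W (h : Good ν) : ∃ C : ℝ, ∀ x : ℝ, x < 0 →
    ∫⁻ ξ, ENNReal.ofReal (C - (x + ξ) - Real.exp (x + ξ)) ∂ν ≤
      ENNReal.ofReal (C - x - Real.exp x) ∧ -x ≤ C - x - Real.exp x := by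
  set k := ∫ x, Real.exp x ∂ν - 1 with hk
  have hk0 : 0 < k := by have := h.kappa; linarith
  obtain ⟨q, hq1, hq⟩ := h.tailE (half_pos hk0)
  refine ⟨2 * q, fun x hx => ?_⟩
  have hxe : Real.exp x < 1 := exp_lt_one' hx
  have hx0 := Real.exp_pos x
  refine ⟨?_, by linarith⟩
  have hmax : Integrable (fun ξ => max (Real.exp ξ - q) 0) ν :=
    (h.intE.sub (integrable_const q)).sup (integrable_const 0)
  have h3 : ∫ x, Real.exp x ∂ν = 1 + k := by rw [hk]; ring
  obtain ⟨hi, he⟩ := int3 h.int1 h.intE (2 * q - x) (-1) (-(Real.exp x))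
  obtain ⟨hi', he'⟩ := int3 hi hmax 0 1 (2 * Real.exp x)
  have key := lint_le (ν := ν) (f := fun ξ => 2 * q - (x + ξ) - Real.exp (x + ξ)) (e := 0)
    (a := 2 * q - x - Real.exp x) le_rfl hi' (fun ξ => ?_) (fun ξ => ?_) ?_
  · simpa using key
  · -- nonnegative
    have hexp := Real.exp_pos ξ
    have h4 : x + ξ ≤ Real.exp x * Real.exp ξ := by
      have := Real.add_one_le_exp (x + ξ)
      rw [Real.exp_add] at this
      linarith
    rcases le_total (Real.exp ξ) q with h1 | h1
    · rw [max_eq_right (by linarith)]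
      have h2 : Real.exp x * Real.exp ξ ≤ 1 * q :=
        mul_le_mul hxe.le h1 (Real.exp_pos _).le zero_le_one
      nlinarith
    · rw [max_eq_left (by linarith)]
      have h5 : 0 ≤ 2 * q * (1 - Real.exp x) := by
        have : 0 ≤ 1 - Real.exp x := by linarith
        positivity
      nlinarith
  · have h1 : 0 ≤ 2 * Real.exp x * max (Real.exp ξ - q) 0 := by positivity
    rw [Real.exp_add]
    nlinarith
  · rw [he', he, h3, h.mean0]
    have h1 := hq q le_rfl
    have h2 : 2 * Real.exp x * ∫ ξ, max (Real.exp ξ - q) 0 ∂ν ≤ 2 * Real.exp x * (k / 2) :=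
      mul_le_mul_of_nonneg_left h1 (by positivity)
    nlinarith

/-- The third potential: the number of visits of `[0, ∞)` before the first passage over `m`. -/
lemma Good.exists_U (h : Good ν) : ∃ c m0 : ℝ, 0 < c ∧ 1 ≤ m0 ∧ ∀ m ≥ m0, ∀ x ≤ m,
    ∫⁻ ξ, ENNReal.ofReal (4 * m ^ 2 - (min (max (x + ξ) 0) (2 * m)) ^ 2) ∂ν +
      (if 0 ≤ x then ENNReal.ofReal c else 0) ≤
        ENNReal.ofReal (4 * m ^ 2 - (min (max x 0) (2 * m)) ^ 2) := by
  have hv := h.varpos
  set v := ∫ x, (max x 0) ^ 2 ∂ν with hvd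
  obtain ⟨m0, hm1, hm⟩ := h.tailS (ε := v / 8) (by positivity)
  refine ⟨v / 2, m0, by positivity, hm1, fun m hmm x hx => ?_⟩
  have hmpos : 1 ≤ m := hm1.trans hmm
  split_ifs with hx0
  · have hS : Integrable (fun ξ : ℝ => if m < ξ then ξ ^ 2 else 0) ν := by
      refine (h.intE.const_mul 2).mono'
        (Measurable.ite measurableSet_Ioi (by fun_prop) measurable_const).aestronglyMeasurable
        (Eventually.of_forall fun ξ => ?_)
      have := Real.exp_pos ξ
      split_ifs with hξ
      · rw [Real.norm_eq_abs, abs_of_nonneg (by positivity)]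
        exact sq_le_exp (by linarith)
      · simp [this.le]
    obtain ⟨hi, he⟩ := int3 h.int1 (int_possq h) (4 * m ^ 2 - x ^ 2) (-(2 * x)) (-1)
    obtain ⟨hi', he'⟩ := int3 hi hS 0 1 4
    have hpt : ∀ ξ : ℝ, 4 * m ^ 2 - (min (max (x + ξ) 0) (2 * m)) ^ 2 ≤
        0 + 1 * (4 * m ^ 2 - x ^ 2 + -(2 * x) * ξ + -1 * (max ξ 0) ^ 2) +
          4 * (if m < ξ then ξ ^ 2 else 0) := by
      intro ξ
      have h4 : 0 ≤ 4 * (if m < ξ then ξ ^ 2 else 0 : ℝ) := by
        split_ifs <;> positivity
      rcases le_or_gt (x + ξ) (2 * m) with h1 | h1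
      · rcases le_or_gt 0 (x + ξ) with h2 | h2
        · rw [max_eq_left h2, min_eq_left h1]
          rcases le_total 0 ξ with h3 | h3
          · rw [max_eq_left h3]
            nlinarith
          · rw [max_eq_right h3]
            nlinarith [sq_nonneg ξ]
        · rw [max_eq_right h2.le, min_eq_left (by linarith), max_eq_right (by linarith)]
          nlinarith
      · rw [min_eq_right (h1.le.trans (le_max_left _ _)), if_pos (by linarith),
          max_eq_left (by linarith)]
        nlinarith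
    refine lint_le (by positivity) hi' (fun ξ => ?_) hpt ?_
    · refine le_trans ?_ (hpt ξ)
      have h1 : min (max (x + ξ) 0) (2 * m) ≤ 2 * m := min_le_right _ _
      have h2 : 0 ≤ min (max (x + ξ) 0) (2 * m) := le_min (le_max_right _ _) (by linarith)
      nlinarith
    · rw [he', he, h.mean0, ← hvd, max_eq_left hx0, min_eq_left (by linarith)]
      have h1 := hm m hmm
      linarith
  · rw [add_zero, max_eq_right (not_le.1 hx0).le, min_eq_left (by linarith)]
    calc ∫⁻ ξ, ENNReal.ofReal (4 * m ^ 2 - (min (max (x + ξ) 0) (2 * m)) ^ 2) ∂ν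
        ≤ ∫⁻ _ξ, ENNReal.ofReal (4 * m ^ 2 - 0 ^ 2) ∂ν := by
          refine lintegral_mono fun ξ => ENNReal.ofReal_le_ofReal ?_
          nlinarith [sq_nonneg (min (max (x + ξ) 0) (2 * m))]
      _ = _ := by simp

end pot

end Pool.Agent.V11331.GC
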