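import Pool.Agent.V11331.GC.Traj

set_option autoImplicit false
set_option linter.unusedSectionVars false
set_option linter.unusedVariables false

open MeasureTheory ProbabilityTheory Filter Topology WithLp Matrix
open scoped ENNReal NNReal RealInnerProductSpace

namespace Pool.Agent.V11331.GC

section rows

variable {N d : ℕ}

/-- The average `μ^X` of the rows. -/
noncomputable def avg (x : Fin N → EuclideanSpace ℝ (Fin d)) : EuclideanSpace ℝ (Fin d) :=
  (N : ℝ)⁻¹ • ∑ k, x k

/-- The covariance matrix `Cov^X = (1/N) X̄ᵀ X̄`. -/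
noncomputable def cov (x : Fin N → EuclideanSpace ℝ (Fin d)) : Matrix (Fin d) (Fin d) ℝ :=
  Matrix.of fun j l => (N : ℝ)⁻¹ * ∑ k, (x k j - avg x j) * (x k l - avg x l)

/-- One step of the chain driven by explicit noise. -/
noncomputable def stepE (α β : ℝ) (x : Fin N → EuclideanSpace ℝ (Fin d))
    (g : Fin N × Fin N → ℝ) : Fin N → EuclideanSpace ℝ (Fin d) :=
  fun i => (β • x i + (1 - β) • avg x) +
    Real.sqrt (α * (1 - β) ^ 2 / N) • ∑ k, g (k, i) • (x k - avg x)

lemma row_quad (c : ℝ) (y : Fin N → EuclideanSpace ℝ (Fin d)) (t : Fin d → ℝ) : t ⬝ᵥ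
      ((Matrix.of fun j l => c ^ 2 * ∑ k, y k j * y k l : Matrix (Fin d) (Fin d) ℝ) *ᵥ t) =
      c ^ 2 * ∑ k, (∑ j, y k j * t j) ^ 2 := by
  simp only [dotProduct, mulVec, Matrix.of_apply, sq (∑ j, _), 
    Finset.mul_sum, Finset.sum_mul]
  calc _ = ∑ j, ∑ l, ∑ k, c ^ 2 * (y k j * t j * (y k l * t l)) := by
        refine Finset.sum_congr rfl fun j _ => Finset.sum_congr rfl fun l _ =>
          Finset.sum_congr rfl fun k _ => ?_
        ring
    _ = ∑ k, ∑ j, ∑ l, c ^ 2 * (y k j * t j * (y k l * t l)) := by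
        rw [Finset.sum_congr rfl fun j _ => Finset.sum_comm, Finset.sum_comm]
    _ = _ := Finset.sum_congr rfl fun k _ => Finset.sum_comm

lemma row_psd (c : ℝ) (y : Fin N → EuclideanSpace ℝ (Fin d)) :
    (Matrix.of fun j l => c ^ 2 * ∑ k, y k j * y k l : Matrix (Fin d) (Fin d) ℝ).PosSemidef := by
  refine Matrix.PosSemidef.of_dotProduct_mulVec_nonneg ?_ fun t => ?_
  · ext j l
    simp [mul_comm]
  · rw [star_trivial, row_quad]
    positivity

lemma row_law (m : EuclideanSpace ℝ (Fin d)) (c : ℝ) (y : Fin N → EuclideanSpace ℝ (Fin d)) :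
    (gam (Fin N)).map (fun g => m + c • ∑ k, g k • y k) =
      multivariateGaussian m (Matrix.of fun j l => c ^ 2 * ∑ k, y k j * y k l) := by
  have hmeas : Measurable (fun g : Fin N → ℝ => m + c • ∑ k, g k • y k) := by fun_prop
  have hpm : IsProbabilityMeasure ((gam (Fin N)).map (fun g => m + c • ∑ k, g k • y k)) :=
    Measure.isProbabilityMeasure_map hmeas.aemeasurable
  refine Measure.ext_of_charFun (funext fun t => ?_)
  rw [charFun_multivariateGaussian (row_psd c y), charFun_apply,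
    integral_map hmeas.aemeasurable (by fun_prop)]
  set z : EuclideanSpace ℝ (Fin N) := toLp 2 (fun k => c * ⟪y k, t⟫) with hz
  have h1 : ∀ g : Fin N → ℝ, ⟪m + c • ∑ k, g k • y k, t⟫ = ⟪m, t⟫ + ∑ k, g k * z k := by
    intro g
    rw [inner_add_left, real_inner_smul_left, sum_inner, Finset.mul_sum]
    congr 1
    refine Finset.sum_congr rfl fun k _ => ?_
    rw [real_inner_smul_left]
    simp only [hz]
    ring
  have h2 : ∀ g : Fin N → ℝ, Complex.exp ((⟪m + c • ∑ k, g k • y k, t⟫ : ℝ) * Complex.I) =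
      Complex.exp ((⟪m, t⟫ : ℝ) * Complex.I) *
        Complex.exp (((1 : ℝ) : ℂ) * ((∑ k, g k * z k : ℝ) : ℂ) * Complex.I) := by
    intro g
    rw [h1, ← Complex.exp_add]
    congr 1
    push_cast
    ring
  simp only [h2]
  rw [integral_const_mul]
  have h3 : ∫ g, Complex.exp (((1 : ℝ) : ℂ) * ((∑ k, g k * z k : ℝ) : ℂ) * Complex.I)
      ∂(gam (Fin N)) = charFun (gaussianReal 0 (‖z‖ ^ 2).toNNReal) 1 := by
    have hms : Measurable (fun x : Fin N → ℝ => ∑ k, x k * z k) := by fun_prop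
    rw [← gam_lin z, charFun_apply_real, integral_map hms.aemeasurable (by fun_prop)]
  rw [h3, charFun_gaussianReal, ← Complex.exp_add, row_quad]
  congr 1
  have h4 : c ^ 2 * ∑ k, (∑ j, y k j * t j) ^ 2 = ‖z‖ ^ 2 := by
    rw [EuclideanSpace.real_norm_sq_eq, Finset.mul_sum]
    refine Finset.sum_congr rfl fun k _ => ?_
    simp only [hz, PiLp.inner_apply]
    rw [mul_pow]
    congr 2
    exact Finset.sum_congr rfl fun j _ => by simp [mul_comm]
  rw [h4, Real.coe_toNNReal _ (by positivity), real_inner_comm]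
  push_cast
  ring

lemma pi_law {E : Type} [MeasurableSpace E] (R : Fin N → (Fin N → ℝ) → E)
    (hR : ∀ i, Measurable (R i)) :
    (gam (Fin N × Fin N)).map (fun g i => R i (fun k => g (k, i))) =
      Measure.pi (fun i => (gam (Fin N)).map (R i)) := by
  have hpm : ∀ i, IsProbabilityMeasure ((gam (Fin N)).map (R i)) := fun i =>
    Measure.isProbabilityMeasure_map (hR i).aemeasurable
  have e0 : (gam (Fin N × Fin N)).map (fun g (p : Fin N × Fin N) => g (p.2, p.1)) =
      gam (Fin N × Fin N) :=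
    gam_map_inj (fun p : Fin N × Fin N => (p.2, p.1)) (by
      rintro ⟨a, b⟩ ⟨a', b'⟩ h
      simp only [Prod.mk.injEq] at h
      exact Prod.ext h.2 h.1)
  have h1 : (gam (Fin N × Fin N)).map (MeasurableEquiv.curry (Fin N) (Fin N) ℝ) =
      Measure.infinitePi fun _ : Fin N => gam (Fin N) :=
    Measure.infinitePi_map_curry (ι := Fin N) (κ := Fin N) (fun _ _ => gaussianReal 0 1)
  have h2 := Measure.infinitePi_map_pi (fun _ : Fin N => gam (Fin N)) (f := R) hR
  have h3 : (fun (g : Fin N × Fin N → ℝ) (i : Fin N) => R i (fun k => g (k, i))) =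
      (fun (x : Fin N → Fin N → ℝ) i => R i (x i)) ∘
      ((MeasurableEquiv.curry (Fin N) (Fin N) ℝ) ∘
      (fun g (p : Fin N × Fin N) => g (p.2, p.1))) := by
    ext a j
    rfl
  have hm : Measurable (fun (x : Fin N → Fin N → ℝ) i => R i (x i)) :=
    measurable_pi_iff.2 fun i => (hR i).comp (measurable_pi_apply i)
  rw [h3, ← Measure.map_map hm (by fun_prop),
    ← Measure.map_map (by fun_prop) (meas_comp _), e0, h1, h2, Measure.infinitePi_eq_pi]

lemma cov_eq {α β : ℝ} (hα : 0 < α) (x : Fin N → EuclideanSpace ℝ (Fin d)) :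
    (Matrix.of fun j l => Real.sqrt (α * (1 - β) ^ 2 / N) ^ 2 *
      ∑ k, (x k - avg x) j * (x k - avg x) l : Matrix (Fin d) (Fin d) ℝ) =
      (α * (1 - β) ^ 2) • cov x := by
  ext j l
  rw [Matrix.of_apply, Real.sq_sqrt (by positivity), Matrix.smul_apply, cov, Matrix.of_apply,
    smul_eq_mul, ← mul_assoc, div_eq_mul_inv]
  rfl

/-- The one-step transition law. -/
theorem step_trans {α β : ℝ} (hα : 0 < α) (x : Fin N → EuclideanSpace ℝ (Fin d)) :
    (gam (Fin N × Fin N)).map (stepE α β x) =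
      Measure.pi (fun i => multivariateGaussian (β • x i + (1 - β) • avg x)
        ((α * (1 - β) ^ 2) • cov x)) := by
  have h1 := pi_law (fun (i : Fin N) (g : Fin N → ℝ) => (β • x i + (1 - β) • avg x) +
    Real.sqrt (α * (1 - β) ^ 2 / N) • ∑ k, g k • (x k - avg x)) (fun i => by fun_prop)
  have h2 : (fun (g : Fin N × Fin N → ℝ) (i : Fin N) => (β • x i + (1 - β) • avg x) +
      Real.sqrt (α * (1 - β) ^ 2 / N) • ∑ k, g (k, i) • (x k - avg x)) = stepE α β x := rfl
  rw [h2] at h1
  rw [h1]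
  congr 1
  ext1 i
  rw [row_law, cov_eq hα]

lemma meas_stepE (α β : ℝ) : Measurable (Function.uncurry (stepE (N := N) (d := d) α β)) := by
  unfold Function.uncurry stepE avg
  fun_prop

end rows

end Pool.Agent.V11331.GC
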