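import Pool.Agent.V11331.GC.Pot

set_option autoImplicit false
set_option linter.unusedSectionVars false

open MeasureTheory ProbabilityTheory Filter Topology WithLp
open scoped ENNReal NNReal RealInnerProductSpace

namespace Pool.Agent.V11331.GC

/-- The law of an i.i.d. family of standard normal variables. -/
noncomputable def gam (ι : Type) : Measure (ι → ℝ) := Measure.infinitePi fun _ : ι => gaussianReal 0 1

instance (ι : Type) : IsProbabilityMeasure (gam ι) := by unfold gam; infer_instance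

lemma gam_indep {ι A B : Type} (φ : A → ι) (ψ : B → ι) (h : ∀ a b, φ a ≠ ψ b) :
    IndepFun (fun (ω : ι → ℝ) a => ω (φ a)) (fun ω b => ω (ψ b)) (gam ι) := by
  have h1 : iIndepFun (fun (i : ι) (ω : ι → ℝ) => ω i) (gam ι) :=
    iIndepFun_infinitePi (X := fun _ x => x) (fun _ => measurable_id)
  have h2 := indep_iSup_of_disjoint (m := fun i : ι =>
      MeasurableSpace.comap (fun ω : ι → ℝ => ω i) inferInstance)
    (fun i => (measurable_pi_apply i).comap_le) h1 (S := Set.range φ) (T := Set.range ψ) (by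
      rw [Set.disjoint_left]
      rintro _ ⟨a, rfl⟩ ⟨b, hb⟩
      exact h a b hb.symm)
  refine indep_of_indep_of_le_left (indep_of_indep_of_le_right h2 ?_) ?_
  · apply Measurable.comap_le
    refine @measurable_pi_iff _ _ _ (_) _ _ |>.2 fun b => ?_
    rw [measurable_iff_comap_le]
    exact le_iSup₂_of_le (ψ b) ⟨b, rfl⟩ le_rfl
  · apply Measurable.comap_le
    refine @measurable_pi_iff _ _ _ (_) _ _ |>.2 fun b => ?_
    rw [measurable_iff_comap_le]
    exact le_iSup₂_of_le (φ b) ⟨b, rfl⟩ le_rfl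

lemma gam_map_inj {ι A : Type} (φ : A → ι) (hφ : Function.Injective φ) :
    (gam ι).map (fun ω a => ω (φ a)) = gam A :=
  Measure.map_infinitePi_infinitePi_of_inj (P := fun _ : ι => gaussianReal 0 1) hφ

lemma meas_comp {ι A : Type} (φ : A → ι) : Measurable (fun (ω : ι → ℝ) a => ω (φ a)) :=
  measurable_pi_iff.2 fun _ => measurable_pi_apply _

lemma map_pair {ι A B : Type} (φ : A → ι) (ψ : B → ι) (hφ : Function.Injective φ)
    (hψ : Function.Injective ψ) (h : ∀ a b, φ a ≠ ψ b) :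
    (gam ι).map (fun ω => ((fun a => ω (φ a)), (fun b => ω (ψ b)))) = (gam A).prod (gam B) := by
  have h1 := (gam_indep φ ψ h).map_prod_eq_prod_map_map (meas_comp φ).aemeasurable
    (meas_comp ψ).aemeasurable
  rw [gam_map_inj φ hφ, gam_map_inj ψ hψ] at h1
  exact h1

lemma gam_toLp (κ : Type) [Fintype κ] :
    (gam κ).map (toLp 2) = stdGaussian (EuclideanSpace ℝ κ) := by
  rw [gam, Measure.infinitePi_eq_pi, map_pi_eq_stdGaussian]

lemma gam_lin {κ : Type} [Fintype κ] (z : EuclideanSpace ℝ κ) :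
    (gam κ).map (fun x => ∑ k, x k * z k) = gaussianReal 0 (‖z‖ ^ 2).toNNReal := by
  have h1 : (fun x : κ → ℝ => ∑ k, x k * z k) = (innerSL ℝ z) ∘ (toLp 2) := by
    ext x
    simp [PiLp.inner_apply]
  rw [h1, ← Measure.map_map (by fun_prop) (by fun_prop), gam_toLp,
    IsGaussian.map_eq_gaussianReal, integral_strongDual_stdGaussian, variance_dual_stdGaussian,
    innerSL_apply_norm]

lemma gam_lin_vec {κ : Type} [Fintype κ] {n : ℕ} (z : EuclideanSpace ℝ κ) (hz : ‖z‖ = 1) :
    (gam (Fin n × κ)).map (fun a (j : Fin n) => ∑ k, a (j, k) * z k) = gam (Fin n) := by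
  have h1 : (gam (Fin n × κ)).map (MeasurableEquiv.curry (Fin n) κ ℝ) =
      Measure.infinitePi fun _ : Fin n => gam κ :=
    Measure.infinitePi_map_curry (ι := Fin n) (κ := κ) (fun _ _ => gaussianReal 0 1)
  have h2 := Measure.infinitePi_map_pi (fun _ : Fin n => gam κ)
    (f := fun (_ : Fin n) (x : κ → ℝ) => ∑ k, x k * z k) (fun _ => by fun_prop)
  have h3 : (fun (a : Fin n × κ → ℝ) (j : Fin n) => ∑ k, a (j, k) * z k) =
      (fun (x : Fin n → κ → ℝ) j => ∑ k, x j k * z k) ∘ (MeasurableEquiv.curry (Fin n) κ ℝ) := by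
    ext a j
    rfl
  rw [h3, ← Measure.map_map (by fun_prop) (by fun_prop), h1, h2]
  unfold gam
  congr 1
  ext1 j
  have := gam_lin z
  unfold gam at this
  rw [this, hz]
  simp

section ratio

variable {n : ℕ} [NeZero n]

/-- A unit vector. -/
noncomputable def e0 (n : ℕ) [NeZero n] : EuclideanSpace ℝ (Fin n) := EuclideanSpace.single 0 1

lemma norm_e0 : ‖e0 n‖ = 1 := by simp [e0]

lemma rot (β c : ℝ) (e : EuclideanSpace ℝ (Fin n)) (he : ‖e‖ = 1) :
    (stdGaussian (EuclideanSpace ℝ (Fin n))).map (fun ζ => ‖β • e + c • ζ‖) =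
      (stdGaussian (EuclideanSpace ℝ (Fin n))).map (fun ζ => ‖β • e0 n + c • ζ‖) := by
  set R := (Submodule.span ℝ {e0 n - e})ᗮ.reflection with hR
  have hRe : R (e0 n) = e := Submodule.reflection_sub (by rw [norm_e0, he])
  have h1 := stdGaussian_map R
  calc (stdGaussian (EuclideanSpace ℝ (Fin n))).map (fun ζ => ‖β • e + c • ζ‖)
      = ((stdGaussian (EuclideanSpace ℝ (Fin n))).map R).map (fun ζ => ‖β • e + c • ζ‖) := by
        rw [h1]
    _ = _ := by
        rw [Measure.map_map (by fun_prop) R.continuous.measurable]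
        congr 1
        ext ζ
        simp only [Function.comp_apply]
        rw [← hRe, ← map_smul, ← map_smul, ← map_add, LinearIsometryEquiv.norm_map]

/-- The law of the increments of the logarithm of the norm. -/
noncomputable def nu (n : ℕ) [NeZero n] (β c : ℝ) : Measure ℝ :=
  (stdGaussian (EuclideanSpace ℝ (Fin n))).map (fun ζ => Real.log ‖β • e0 n + c • ζ‖)

lemma meas_lognorm (β c : ℝ) (e : EuclideanSpace ℝ (Fin n)) :
    Measurable (fun ζ : EuclideanSpace ℝ (Fin n) => Real.log ‖β • e + c • ζ‖) := by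
  fun_prop

instance (β c : ℝ) : IsProbabilityMeasure (nu n β c) :=
  Measure.isProbabilityMeasure_map (meas_lognorm _ _ _).aemeasurable

lemma coord_law (β c : ℝ) (e : EuclideanSpace ℝ (Fin n)) (he : ‖e‖ = 1) :
    (stdGaussian (EuclideanSpace ℝ (Fin n))).map (fun ζ => ⟪e, β • e + c • ζ⟫) =
      gaussianReal β (c ^ 2).toNNReal := by
  have h1 : (fun ζ : EuclideanSpace ℝ (Fin n) => ⟪e, β • e + c • ζ⟫) =
      (fun x : ℝ => x + β) ∘ ((fun x : ℝ => c * x) ∘ (innerSL ℝ e)) := by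
    ext ζ
    simp only [Function.comp_apply, innerSL_apply_apply]
    rw [inner_add_right, inner_smul_right, inner_smul_right, real_inner_self_eq_norm_sq, he]
    ring
  rw [h1, ← Measure.map_map (by fun_prop) (by fun_prop), ← Measure.map_map (by fun_prop)
    (by fun_prop), IsGaussian.map_eq_gaussianReal, integral_strongDual_stdGaussian,
    variance_dual_stdGaussian, innerSL_apply_norm, he, gaussianReal_map_const_mul,
    gaussianReal_map_add_const]
  congr 1
  · simp
  · ext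
    simp [Real.coe_toNNReal _ (sq_nonneg c)]

lemma ae_ne (β : ℝ) {c : ℝ} (hc : 0 < c) (e : EuclideanSpace ℝ (Fin n)) (he : ‖e‖ = 1) :
    ∀ᵐ ζ ∂(stdGaussian (EuclideanSpace ℝ (Fin n))), ⟪e, β • e + c • ζ⟫ ≠ 0 := by
  have hv : (c ^ 2).toNNReal ≠ 0 := by
    rw [Ne, Real.toNNReal_eq_zero, not_le]; positivity
  have h1 := coord_law β c e he
  have h2 : ∀ᵐ x ∂(gaussianReal β (c ^ 2).toNNReal), x ≠ 0 := by
    have h3 : ∀ᵐ x ∂(volume : Measure ℝ), x ≠ 0 := by
      rw [ae_iff]
      simp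
    exact (gaussianReal_absolutelyContinuous β hv).ae_le h3
  rw [← h1] at h2
  exact ae_of_ae_map (p := fun x => x ≠ 0) (f := fun ζ => ⟪e, β • e + c • ζ⟫) (by fun_prop) h2

/-- One step of the chain. -/
noncomputable def nxt {κ : Type} [Fintype κ] (β c : ℝ)
    (J : EuclideanSpace ℝ (Fin n) →ₗᵢ[ℝ] EuclideanSpace ℝ κ) (y : EuclideanSpace ℝ (Fin n))
    (a : Fin n × κ → ℝ) : EuclideanSpace ℝ (Fin n) :=
  β • y + c • toLp 2 (fun j => ∑ k, a (j, k) * J y k)

variable {κ : Type} [Fintype κ] (J : EuclideanSpace ℝ (Fin n) →ₗᵢ[ℝ] EuclideanSpace ℝ κ)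

lemma meas_nxt (β c : ℝ) : Measurable (fun p : EuclideanSpace ℝ (Fin n) × (Fin n × κ → ℝ) =>
    nxt β c J p.1 p.2) := by
  unfold nxt
  have hJ : Continuous J := J.continuous
  refine Continuous.measurable ?_
  fun_prop

lemma nxt_eq (β c : ℝ) (y : EuclideanSpace ℝ (Fin n)) (hy : y ≠ 0) (a : Fin n × κ → ℝ) :
    ‖nxt β c J y a‖ = ‖y‖ * ‖β • (‖y‖⁻¹ • y) + c • toLp 2 (fun j => ∑ k, a (j, k) *
      J (‖y‖⁻¹ • y) k)‖ := by
  have hr : ‖y‖ ≠ 0 := norm_ne_zero_iff.2 hy
  have h1 : nxt β c J y a = ‖y‖ • (β • (‖y‖⁻¹ • y) + c • toLp 2 (fun j => ∑ k, a (j, k) *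
      J (‖y‖⁻¹ • y) k)) := by
    unfold nxt
    ext j
    simp only [map_smul, PiLp.add_apply, PiLp.smul_apply, smul_eq_mul]
    have : ∑ k, a (j, k) * (‖y‖⁻¹ * J y k) = ‖y‖⁻¹ * ∑ k, a (j, k) * J y k := by
      rw [Finset.mul_sum]
      exact Finset.sum_congr rfl fun k _ => by ring
    rw [this]
    field_simp
  rw [h1, norm_smul, norm_norm]

/-- The law of the norm after one step. -/
lemma step_law (β : ℝ) {c : ℝ} (hc : 0 < c) (y : EuclideanSpace ℝ (Fin n)) (hy : y ≠ 0)
    {F : ℝ → ℝ≥0∞} (hF : Measurable F) :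
    ∫⁻ a, F (Real.log ‖nxt β c J y a‖) ∂(gam (Fin n × κ)) =
      ∫⁻ ξ, F (Real.log ‖y‖ + ξ) ∂(nu n β c) := by
  have hr : ‖y‖ ≠ 0 := norm_ne_zero_iff.2 hy
  set e := ‖y‖⁻¹ • y with he
  have hen : ‖e‖ = 1 := by rw [he, norm_smul, norm_inv, norm_norm, inv_mul_cancel₀ hr]
  have hJe : ‖J e‖ = 1 := by rw [J.norm_map, hen]
  have h1 : ∫⁻ a, F (Real.log ‖nxt β c J y a‖) ∂(gam (Fin n × κ)) =
      ∫⁻ ζ, F (Real.log (‖y‖ * ‖β • e + c • ζ‖)) ∂(stdGaussian (EuclideanSpace ℝ (Fin n))) := by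
    rw [← gam_toLp (Fin n), lintegral_map (by fun_prop) (by fun_prop),
      ← gam_lin_vec (n := n) (J e) hJe, lintegral_map (by fun_prop) (by fun_prop)]
    refine lintegral_congr fun a => ?_
    rw [nxt_eq J β c y hy a]
  have h2 : ∫⁻ ζ, F (Real.log (‖y‖ * ‖β • e + c • ζ‖)) ∂(stdGaussian (EuclideanSpace ℝ (Fin n)))
      = ∫⁻ r, F (Real.log (‖y‖ * r)) ∂((stdGaussian (EuclideanSpace ℝ (Fin n))).map
        (fun ζ => ‖β • e + c • ζ‖)) := by
    rw [lintegral_map (by fun_prop) (by fun_prop)]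
  rw [h1, h2, rot β c e hen, lintegral_map (by fun_prop) (by fun_prop), nu,
    lintegral_map (by fun_prop) (by fun_prop)]
  refine lintegral_congr_ae ?_
  filter_upwards [ae_ne β hc (e0 n) norm_e0] with ζ hζ
  have hw : ‖β • e0 n + c • ζ‖ ≠ 0 := by
    intro h
    rw [norm_eq_zero] at h
    rw [h] at hζ
    simp at hζ
  rw [Real.log_mul hr hw]

lemma ae_nxt_ne (β : ℝ) {c : ℝ} (hc : 0 < c) (y : EuclideanSpace ℝ (Fin n)) (hy : y ≠ 0) :
    ∀ᵐ a ∂(gam (Fin n × κ)), nxt β c J y a ≠ 0 := by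
  have hr : ‖y‖ ≠ 0 := norm_ne_zero_iff.2 hy
  set e := ‖y‖⁻¹ • y with he
  have hen : ‖e‖ = 1 := by rw [he, norm_smul, norm_inv, norm_norm, inv_mul_cancel₀ hr]
  have hJe : ‖J e‖ = 1 := by rw [J.norm_map, hen]
  have h1 := ae_ne β hc e hen
  rw [← gam_toLp (Fin n)] at h1
  have h2 := ae_of_ae_map (by fun_prop) h1
  rw [← gam_lin_vec (n := n) (J e) hJe] at h2
  have hm : Measurable (fun (a : Fin n × κ → ℝ) (j : Fin n) => ∑ k, a (j, k) * (J e) k) :=
    measurable_pi_iff.2 fun j => by fun_prop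
  have h3 := ae_of_ae_map hm.aemeasurable h2
  filter_upwards [h3] with a ha hz
  rw [← norm_eq_zero, nxt_eq J β c y hy a] at hz
  rcases mul_eq_zero.1 hz with h | h
  · exact hr h
  · rw [norm_eq_zero] at h
    rw [← he] at h
    rw [h] at ha
    simp at ha

/-- The Gaussian law is dominated by a multiple of Lebesgue measure. -/
lemma gauss_le (m : ℝ) {v : ℝ≥0} (hv : v ≠ 0) :
    gaussianReal m v ≤ ENNReal.ofReal ((Real.sqrt (2 * Real.pi * v))⁻¹) • volume := by
  rw [gaussianReal_of_var_ne_zero _ hv, ← withDensity_const]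
  refine withDensity_mono (Eventually.of_forall fun x => ?_)
  unfold gaussianPDF
  refine ENNReal.ofReal_le_ofReal ?_
  rw [gaussianPDFReal_def]
  have h1 : Real.exp (-(x - m) ^ 2 / (2 * v)) ≤ 1 := by
    rw [Real.exp_le_one_iff]
    have : 0 ≤ (x - m) ^ 2 / (2 * v) := by positivity
    rw [neg_div]
    linarith
  have h2 : 0 ≤ (Real.sqrt (2 * Real.pi * v))⁻¹ := by positivity
  simpa using mul_le_mul_of_nonneg_left h1 h2

lemma int_log (m : ℝ) {v : ℝ≥0} (hv : v ≠ 0) : Integrable Real.log (gaussianReal m v) := by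
  have h1 : IntegrableOn Real.log (Set.Icc (-1) 1) (gaussianReal m v) := by
    have h2 : IntegrableOn Real.log (Set.Icc (-1) 1) volume := by
      rw [integrableOn_Icc_iff_integrableOn_Ioc]
      have := intervalIntegral.intervalIntegrable_log' (a := -1) (b := 1)
      rwa [intervalIntegrable_iff_integrableOn_Ioc_of_le (by norm_num)] at this
    have h3 : Integrable Real.log ((ENNReal.ofReal ((Real.sqrt (2 * Real.pi * v))⁻¹) •
        (volume : Measure ℝ)).restrict (Set.Icc (-1) 1)) := by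
      rw [Measure.restrict_smul]
      exact Integrable.smul_measure h2 ENNReal.ofReal_ne_top
    exact h3.mono_measure (Measure.restrict_mono le_rfl (gauss_le m hv))
  have h4 : IntegrableOn Real.log (Set.Icc (-1) 1)ᶜ (gaussianReal m v) := by
    have h5 : Integrable (fun x : ℝ => |x|) (gaussianReal m v) :=
      (IsGaussian.integrable_id (μ := gaussianReal m v)).norm
    refine h5.integrableOn.mono' Real.measurable_log.aestronglyMeasurable ?_
    filter_upwards [ae_restrict_mem (measurableSet_Icc.compl)] with x hx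
    have hx1 : 1 < |x| := by
      by_contra hn
      exact hx (abs_le.1 (not_lt.1 hn))
    rw [Real.norm_eq_abs, ← Real.log_abs, abs_of_nonneg (Real.log_nonneg hx1.le)]
    have := Real.log_le_sub_one_of_pos (lt_trans zero_lt_one hx1)
    linarith
  rw [← integrableOn_univ, ← Set.union_compl_self (Set.Icc (-1 : ℝ) 1)]
  exact h1.union h4

lemma inner_le_norm' (e w : EuclideanSpace ℝ (Fin n)) (he : ‖e‖ = 1) : |⟪e, w⟫| ≤ ‖w‖ := by
  have := abs_real_inner_le_norm e w
  rwa [he, one_mul] at this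

lemma hv_ne {c : ℝ} (hc : 0 < c) : (c ^ 2).toNNReal ≠ 0 := by
  rw [Ne, Real.toNNReal_eq_zero, not_le]; positivity

lemma int_lognorm (β : ℝ) {c : ℝ} (hc : 0 < c) :
    Integrable (fun ζ : EuclideanSpace ℝ (Fin n) => Real.log ‖β • e0 n + c • ζ‖)
      (stdGaussian (EuclideanSpace ℝ (Fin n))) := by
  have h1 : Integrable (fun ζ : EuclideanSpace ℝ (Fin n) =>
      Real.log ⟪e0 n, β • e0 n + c • ζ⟫) (stdGaussian (EuclideanSpace ℝ (Fin n))) := by
    have h2 := int_log β (hv_ne hc)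
    rw [← coord_law β c (e0 n) norm_e0] at h2
    exact (integrable_map_measure Real.measurable_log.aestronglyMeasurable (by fun_prop)).1 h2
  have h3 : Integrable (fun ζ : EuclideanSpace ℝ (Fin n) => ‖β • e0 n + c • ζ‖)
      (stdGaussian (EuclideanSpace ℝ (Fin n))) :=
    ((integrable_const _).add ((IsGaussian.integrable_id
      (μ := stdGaussian (EuclideanSpace ℝ (Fin n)))).smul c)).norm
  refine (h1.norm.add h3).mono' (meas_lognorm _ _ _).aestronglyMeasurable ?_
  filter_upwards [ae_ne β hc (e0 n) norm_e0] with ζ hζ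
  simp only [Pi.add_apply]
  set w := β • e0 n + c • ζ with hw
  have hle := inner_le_norm' (e0 n) w norm_e0
  have hpos : 0 < |⟪e0 n, w⟫| := abs_pos.2 hζ
  have hwp : 0 < ‖w‖ := hpos.trans_le hle
  have h4 : Real.log ‖w‖ ≤ ‖w‖ := (Real.log_le_sub_one_of_pos hwp).trans (by linarith)
  have h5 : Real.log ⟪e0 n, w⟫ ≤ Real.log ‖w‖ := by
    rw [← Real.log_abs ⟪e0 n, w⟫]
    exact Real.log_le_log hpos hle
  rw [Real.norm_eq_abs, Real.norm_eq_abs, abs_le]
  have h6 := neg_abs_le (Real.log ⟪e0 n, w⟫)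
  have h7 := abs_nonneg (Real.log ⟪e0 n, w⟫)
  constructor <;> linarith

lemma nu_int1 (β : ℝ) {c : ℝ} (hc : 0 < c) : Integrable (fun x : ℝ => x) (nu n β c) := by
  rw [nu, integrable_map_measure (by fun_prop) (meas_lognorm _ _ _).aemeasurable]
  exact int_lognorm β hc

lemma nu_good (β : ℝ) {c : ℝ} (hc : 0 < c) (h0 : ∫ x, x ∂(nu n β c) = 0) : Good (nu n β c) where
  int1 := nu_int1 β hc
  mean0 := h0
  intE := by
    rw [nu, integrable_map_measure (by fun_prop) (meas_lognorm _ _ _).aemeasurable]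
    have h3 : Integrable (fun ζ : EuclideanSpace ℝ (Fin n) => ‖β • e0 n + c • ζ‖ + 1)
        (stdGaussian (EuclideanSpace ℝ (Fin n))) :=
      (((integrable_const _).add ((IsGaussian.integrable_id
        (μ := stdGaussian (EuclideanSpace ℝ (Fin n)))).smul c)).norm).add (integrable_const 1)
    refine h3.mono' (Real.measurable_exp.comp (meas_lognorm _ _ _)).aestronglyMeasurable
      (Eventually.of_forall fun ζ => ?_)
    simp only [Function.comp_apply]
    rw [Real.norm_eq_abs, abs_of_pos (Real.exp_pos _)]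
    rcases eq_or_ne (‖β • e0 n + c • ζ‖) 0 with h | h
    · rw [h]; simp
    · rw [Real.exp_log (lt_of_le_of_ne (norm_nonneg _) h.symm)]
      linarith
  nondeg := by
    intro hz
    have h1 : ∀ᵐ x ∂(nu n β c), x = 0 := by
      rw [ae_iff]; exact hz
    have h2 := ae_of_ae_map (meas_lognorm β c (e0 n)).aemeasurable h1
    have h3 : ∀ᵐ ζ ∂(stdGaussian (EuclideanSpace ℝ (Fin n))),
        ⟪e0 n, β • e0 n + c • ζ⟫ ≤ 2 := by
      filter_upwards [h2] with ζ hζ
      by_contra hn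
      have hn' := not_le.1 hn
      have h4 := inner_le_norm' (e0 n) (β • e0 n + c • ζ) norm_e0
      have h5 : 2 < ‖β • e0 n + c • ζ‖ := hn'.trans_le ((le_abs_self _).trans h4)
      have h6 := Real.log_pos (lt_trans (by norm_num) h5)
      linarith
    have h4 : ∀ᵐ x ∂(gaussianReal β (c ^ 2).toNNReal), x ≤ 2 := by
      rw [← coord_law β c (e0 n) norm_e0, ae_map_iff (by fun_prop) measurableSet_Iic]
      exact h3
    have h5 : ∀ᵐ x ∂(volume : Measure ℝ), x ≤ 2 :=
      (gaussianReal_absolutelyContinuous' β (hv_ne hc)).ae_le h4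
    rw [ae_iff] at h5
    have h6 : {a : ℝ | ¬ a ≤ 2} = Set.Ioi 2 := by ext x; simp
    rw [h6, Real.volume_Ioi] at h5
    exact ENNReal.top_ne_zero h5

end ratio

end Pool.Agent.V11331.GC
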