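import Pool.Agent.V11331.GC.Step

set_option autoImplicit false
set_option linter.unusedSectionVars false
set_option linter.unusedVariables false

open MeasureTheory ProbabilityTheory Filter Topology WithLp
open scoped ENNReal NNReal RealInnerProductSpace

namespace Pool.Agent.V11331.GC

section traj

variable {S A : Type} [MeasurableSpace S] (st : S → (A → ℝ) → S)

/-- The chain driven by explicit noise. -/
def iter (x : S) (ω : ℕ × A → ℝ) : ℕ → S
  | 0 => x
  | t + 1 => st (iter x ω t) (fun a => ω (t, a))

lemma meas_iter (hst : Measurable (Function.uncurry st)) (t : ℕ) :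
    Measurable (fun p : S × (ℕ × A → ℝ) => iter st p.1 p.2 t) := by
  induction t with
  | zero => exact measurable_fst
  | succ t ih =>
    have h : Measurable (fun p : S × (ℕ × A → ℝ) => (iter st p.1 p.2 t, (fun a => p.2 (t, a)))) :=
      ih.prodMk (measurable_pi_iff.2 fun a => (measurable_pi_apply (t, a)).comp measurable_snd)
    exact hst.comp h

/-- Extension of a noise before time `t` by zero. -/
noncomputable def ext0 (t : ℕ) (r : {p : ℕ × A // p.1 < t} → ℝ) : ℕ × A → ℝ :=
  fun p => if h : p.1 < t then r ⟨p, h⟩ else 0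

lemma meas_ext0 (t : ℕ) : Measurable (ext0 (A := A) t) := by
  refine measurable_pi_iff.2 fun p => ?_
  unfold ext0
  by_cases h : p.1 < t
  · simp only [h, dite_true]
    exact measurable_pi_apply _
  · simp only [h, dite_false]
    exact measurable_const

lemma iter_ext0 (x : S) (ω : ℕ × A → ℝ) (t s : ℕ) (hs : s ≤ t) :
    iter st x (ext0 t (fun p => ω p.1)) s = iter st x ω s := by
  induction s with
  | zero => rfl
  | succ s ih =>
    rw [iter, iter, ih (by omega)]
    congr 1
    ext a
    have : s < t := by omega
    simp [ext0, this]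

lemma markov_iter (hst : Measurable (Function.uncurry st)) (t : ℕ) (x : S) {C : Set (ℕ → S)}
    (hC : MeasurableSet C) {B : Set S} (hB : MeasurableSet B) :
    ∫⁻ ω, C.indicator 1 (fun s => iter st x ω (min s t)) * B.indicator 1 (iter st x ω (t + 1))
      ∂(gam (ℕ × A)) =
    ∫⁻ ω, C.indicator 1 (fun s => iter st x ω (min s t)) * (gam A) (st (iter st x ω t) ⁻¹' B)
      ∂(gam (ℕ × A)) := by
  have hmx : ∀ s, Measurable (fun ω : ℕ × A → ℝ => iter st x ω s) := by
    intro s
    have h0 : Measurable (fun ω : ℕ × A → ℝ => (x, ω)) := measurable_prodMk_left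
    exact (meas_iter st hst s).comp h0
  have hmC : Measurable (fun ω : ℕ × A → ℝ =>
      C.indicator (1 : (ℕ → S) → ℝ≥0∞) (fun s => iter st x ω (min s t))) :=
    (measurable_one.indicator hC).comp (measurable_pi_iff.2 fun s => hmx _)
  have hmq : Measurable (fun y : S => (gam A) (st y ⁻¹' B)) :=
    measurable_measure_prodMk_left (hst hB)
  have h1 := map_pair (ι := ℕ × A) (A := {p : ℕ × A // p.1 < t}) (B := A) (fun p => p.1)
    (fun a => (t, a)) Subtype.val_injective (fun a b h => by simpa using h)
    (fun p a h => by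
      have := p.2
      rw [h] at this
      exact lt_irrefl _ this)
  -- the function of past and present
  set F : ({p : ℕ × A // p.1 < t} → ℝ) × (A → ℝ) → ℝ≥0∞ := fun q =>
    C.indicator 1 (fun s => iter st x (ext0 t q.1) (min s t)) *
      B.indicator 1 (st (iter st x (ext0 t q.1) t) q.2) with hF
  have hFm : Measurable F := by
    refine Measurable.mul ?_ ?_
    · exact hmC.comp ((meas_ext0 t).comp measurable_fst)
    · refine (measurable_one.indicator hB).comp ?_
      have h2 : Measurable (fun q : ({p : ℕ × A // p.1 < t} → ℝ) × (A → ℝ) =>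
          (iter st x (ext0 t q.1) t, q.2)) :=
        ((hmx t).comp ((meas_ext0 t).comp measurable_fst)).prodMk measurable_snd
      exact hst.comp h2
  have hmpair : Measurable (fun ω : ℕ × A → ℝ => ((fun p : {p : ℕ × A // p.1 < t} => ω p.1),
      (fun a => ω (t, a)))) := (meas_comp _).prodMk (meas_comp _)
  calc ∫⁻ ω, C.indicator 1 (fun s => iter st x ω (min s t)) * B.indicator 1 (iter st x ω (t + 1))
        ∂(gam (ℕ × A))
      = ∫⁻ ω, F ((fun p : {p : ℕ × A // p.1 < t} => ω p.1), (fun a => ω (t, a)))
          ∂(gam (ℕ × A)) := by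
        refine lintegral_congr fun ω => ?_
        simp only [hF]
        rw [iter_ext0 st x ω t t le_rfl]
        have : ∀ s, iter st x (ext0 t fun p => ω p.1) (min s t) = iter st x ω (min s t) :=
          fun s => iter_ext0 st x ω t _ (min_le_right _ _)
        simp only [this]
        rfl
    _ = ∫⁻ q, F q ∂((gam {p : ℕ × A // p.1 < t}).prod (gam A)) := by
        rw [← h1, lintegral_map hFm hmpair]
    _ = ∫⁻ r, C.indicator 1 (fun s => iter st x (ext0 t r) (min s t)) *
          (gam A) (st (iter st x (ext0 t r) t) ⁻¹' B) ∂(gam {p : ℕ × A // p.1 < t}) := by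
        rw [lintegral_prod _ hFm.aemeasurable]
        refine lintegral_congr fun r => ?_
        simp only [hF]
        have hs : Measurable (st (iter st x (ext0 t r) t)) := hst.comp measurable_prodMk_left
        have hsB : Measurable (fun y => B.indicator (1 : S → ℝ≥0∞)
            (st (iter st x (ext0 t r) t) y)) := (measurable_one.indicator hB).comp hs
        rw [lintegral_const_mul _ hsB]
        congr 1
        have : (fun y => B.indicator (1 : S → ℝ≥0∞) (st (iter st x (ext0 t r) t) y)) =
            (st (iter st x (ext0 t r) t) ⁻¹' B).indicator 1 := by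
          ext y
          by_cases hy : st (iter st x (ext0 t r) t) y ∈ B
          · rw [Set.indicator_of_mem hy, Set.indicator_of_mem (by exact hy)]
            rfl
          · rw [Set.indicator_of_notMem hy, Set.indicator_of_notMem (by exact hy)]
        rw [this, lintegral_indicator_one (hs hB)]
    _ = _ := by
        rw [← gam_map_inj (ι := ℕ × A) (A := {p : ℕ × A // p.1 < t}) (fun p => p.1)
          Subtype.val_injective, lintegral_map]
        · refine lintegral_congr fun ω => ?_
          rw [iter_ext0 st x ω t t le_rfl]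
          have : ∀ s, iter st x (ext0 t fun p => ω p.1) (min s t) = iter st x ω (min s t) :=
            fun s => iter_ext0 st x ω t _ (min_le_right _ _)
          simp only [this]
        · exact (hmC.comp (meas_ext0 t)).mul (hmq.comp ((hmx t).comp (meas_ext0 t)))
        · exact meas_comp _

/-- The law of a Markov chain whose transition law is `(gam A).map (st x)`. -/
theorem traj_law (hst : Measurable (Function.uncurry st)) {Ω : Type*} [MeasurableSpace Ω]
    (P : Measure Ω) [IsProbabilityMeasure P] (X : ℕ → Ω → S) (hX : ∀ t, Measurable (X t))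
    (hM : ∀ (t : ℕ) (C : Set (ℕ → S)), MeasurableSet C → ∀ B : Set S, MeasurableSet B →
      P {ω | (fun s => X (min s t) ω) ∈ C ∧ X (t + 1) ω ∈ B} =
        ∫⁻ ω in {ω | (fun s => X (min s t) ω) ∈ C}, (gam A) (st (X t ω) ⁻¹' B) ∂P) :
    P.map (fun ω t => X t ω) =
      ((P.map (X 0)).prod (gam (ℕ × A))).map (fun p t => iter st p.1 p.2 t) := by
  have hp0 : IsProbabilityMeasure (P.map (X 0)) := Measure.isProbabilityMeasure_map (hX 0).aemeasurable
  set P' := (P.map (X 0)).prod (gam (ℕ × A)) with hP'
  have hmq : ∀ {B : Set S}, MeasurableSet B → Measurable (fun y : S => (gam A) (st y ⁻¹' B)) :=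
    fun hB => measurable_measure_prodMk_left (hst hB)
  have hmh : ∀ t, Measurable (fun ω (s : ℕ) => X (min s t) ω) :=
    fun t => measurable_pi_iff.2 fun s => hX _
  have hmh' : ∀ t, Measurable (fun (p : S × (ℕ × A → ℝ)) (s : ℕ) => iter st p.1 p.2 (min s t)) :=
    fun t => measurable_pi_iff.2 fun s => meas_iter st hst _
  have hM' : ∀ (t : ℕ) (C : Set (ℕ → S)), MeasurableSet C → ∀ B : Set S, MeasurableSet B →
      P' {p | (fun s => iter st p.1 p.2 (min s t)) ∈ C ∧ iter st p.1 p.2 (t + 1) ∈ B} =
        ∫⁻ p, C.indicator 1 (fun s => iter st p.1 p.2 (min s t)) *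
          (gam A) (st (iter st p.1 p.2 t) ⁻¹' B) ∂P' := by
    intro t C hC B hB
    have hset : MeasurableSet {p : S × (ℕ × A → ℝ) | (fun s => iter st p.1 p.2 (min s t)) ∈ C ∧
        iter st p.1 p.2 (t + 1) ∈ B} := ((hmh' t) hC).inter ((meas_iter st hst (t + 1)) hB)
    have hind : ∀ p : S × (ℕ × A → ℝ), ({p : S × (ℕ × A → ℝ) |
        (fun s => iter st p.1 p.2 (min s t)) ∈ C ∧ iter st p.1 p.2 (t + 1) ∈ B}).indicator
          (1 : S × (ℕ × A → ℝ) → ℝ≥0∞) p =
        C.indicator 1 (fun s => iter st p.1 p.2 (min s t)) *
          B.indicator 1 (iter st p.1 p.2 (t + 1)) := by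
      intro p
      by_cases h1 : (fun s => iter st p.1 p.2 (min s t)) ∈ C
      · by_cases h2 : iter st p.1 p.2 (t + 1) ∈ B
        · rw [Set.indicator_of_mem (by exact ⟨h1, h2⟩), Set.indicator_of_mem h1,
            Set.indicator_of_mem h2]
          simp
        · rw [Set.indicator_of_notMem (by exact fun h => h2 h.2), Set.indicator_of_notMem h2,
            mul_zero]
      · rw [Set.indicator_of_notMem (by exact fun h => h1 h.1), Set.indicator_of_notMem h1,
            zero_mul]
    rw [← lintegral_indicator_one hset]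
    simp only [hind]
    have hmC : Measurable (fun p : S × (ℕ × A → ℝ) =>
        C.indicator (1 : (ℕ → S) → ℝ≥0∞) (fun s => iter st p.1 p.2 (min s t))) :=
      (measurable_one.indicator hC).comp (hmh' t)
    have hmBB : Measurable (fun p : S × (ℕ × A → ℝ) =>
        B.indicator (1 : S → ℝ≥0∞) (iter st p.1 p.2 (t + 1))) :=
      (measurable_one.indicator hB).comp (meas_iter st hst (t + 1))
    have hmQQ : Measurable (fun p : S × (ℕ × A → ℝ) =>
        (gam A) (st (iter st p.1 p.2 t) ⁻¹' B)) := (hmq hB).comp (meas_iter st hst t)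
    have hA1 : AEMeasurable (fun p : S × (ℕ × A → ℝ) =>
        (C.indicator (1 : (ℕ → S) → ℝ≥0∞) (fun s => iter st p.1 p.2 (min s t))) *
        B.indicator (1 : S → ℝ≥0∞) (iter st p.1 p.2 (t + 1)))
        ((P.map (X 0)).prod (gam (ℕ × A))) := (hmC.mul hmBB).aemeasurable
    have hA2 : AEMeasurable (fun p : S × (ℕ × A → ℝ) =>
        (C.indicator (1 : (ℕ → S) → ℝ≥0∞) (fun s => iter st p.1 p.2 (min s t))) *
        (gam A) (st (iter st p.1 p.2 t) ⁻¹' B))
        ((P.map (X 0)).prod (gam (ℕ × A))) := (hmC.mul hmQQ).aemeasurable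
    rw [hP', lintegral_prod _ hA1, lintegral_prod _ hA2]
    refine lintegral_congr fun x => ?_
    exact markov_iter st hst t x hC hB
  have key : ∀ t, P.map (fun ω (s : ℕ) => X (min s t) ω) =
      P'.map (fun p (s : ℕ) => iter st p.1 p.2 (min s t)) := by
    intro t
    induction t with
    | zero =>
      have h1 : (fun ω (s : ℕ) => X (min s 0) ω) = (fun (x : S) (s : ℕ) => x) ∘ (X 0) := by
        ext ω s; simp
      have h2 : (fun (p : S × (ℕ × A → ℝ)) (s : ℕ) => iter st p.1 p.2 (min s 0)) =
          (fun (x : S) (s : ℕ) => x) ∘ Prod.fst := by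
        ext ω s; simp [iter]
      have hmc : Measurable (fun (x : S) (s : ℕ) => x) := measurable_pi_iff.2 fun _ => measurable_id
      rw [h1, h2, ← Measure.map_map hmc (hX 0), ← Measure.map_map hmc measurable_fst, hP',
        Measure.map_fst_prod, measure_univ, one_smul]
    | succ t ih =>
      have hpair : P.map (fun ω => ((fun s => X (min s t) ω), X (t + 1) ω)) =
          P'.map (fun p => ((fun s => iter st p.1 p.2 (min s t)), iter st p.1 p.2 (t + 1))) := by
        have hm1 : Measurable (fun ω => ((fun s => X (min s t) ω), X (t + 1) ω)) :=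
          (hmh t).prodMk (hX (t + 1))
        have hm2 : Measurable (fun p : S × (ℕ × A → ℝ) =>
            ((fun s => iter st p.1 p.2 (min s t)), iter st p.1 p.2 (t + 1))) :=
          (hmh' t).prodMk (meas_iter st hst (t + 1))
        have hpp : IsProbabilityMeasure (P.map (fun ω => ((fun s => X (min s t) ω), X (t + 1) ω))) :=
          Measure.isProbabilityMeasure_map hm1.aemeasurable
        refine Measure.ext_prod fun {C B} hC hB => ?_
        rw [Measure.map_apply hm1 (hC.prod hB), Measure.map_apply hm2 (hC.prod hB)]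
        have e1 : (fun ω => ((fun s => X (min s t) ω), X (t + 1) ω)) ⁻¹' (C ×ˢ B) =
            {ω | (fun s => X (min s t) ω) ∈ C ∧ X (t + 1) ω ∈ B} := rfl
        have e2 : (fun p : S × (ℕ × A → ℝ) =>
            ((fun s => iter st p.1 p.2 (min s t)), iter st p.1 p.2 (t + 1))) ⁻¹' (C ×ˢ B) =
            {p | (fun s => iter st p.1 p.2 (min s t)) ∈ C ∧ iter st p.1 p.2 (t + 1) ∈ B} := rfl
        rw [e1, e2, hM t C hC B hB, hM' t C hC B hB]
        have hG : Measurable (fun h : ℕ → S => C.indicator (1 : (ℕ → S) → ℝ≥0∞) h *
            (gam A) (st (h t) ⁻¹' B)) :=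
          (measurable_one.indicator hC).mul ((hmq hB).comp (measurable_pi_apply t))
        calc ∫⁻ ω in {ω | (fun s => X (min s t) ω) ∈ C}, (gam A) (st (X t ω) ⁻¹' B) ∂P
            = ∫⁻ ω, C.indicator 1 (fun s => X (min s t) ω) * (gam A) (st (X (min t t) ω) ⁻¹' B)
                ∂P := by
              rw [← lintegral_indicator (by exact (hmh t) hC)]
              refine lintegral_congr fun ω => ?_
              rw [min_self]
              by_cases h1 : (fun s => X (min s t) ω) ∈ C
              · rw [Set.indicator_of_mem (by exact h1), Set.indicator_of_mem h1]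
                simp
              · rw [Set.indicator_of_notMem (by exact h1), Set.indicator_of_notMem h1, zero_mul]
          _ = ∫⁻ h, C.indicator 1 h * (gam A) (st (h t) ⁻¹' B)
                ∂(P.map (fun ω (s : ℕ) => X (min s t) ω)) := by
              rw [lintegral_map hG (hmh t)]
          _ = ∫⁻ h, C.indicator 1 h * (gam A) (st (h t) ⁻¹' B)
                ∂(P'.map (fun p (s : ℕ) => iter st p.1 p.2 (min s t))) := by rw [ih]
          _ = _ := by
              rw [lintegral_map hG (hmh' t)]
              simp only [min_self]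
      -- glue
      have hG : Measurable (fun (q : (ℕ → S) × S) (s : ℕ) => if s ≤ t then q.1 s else q.2) := by
        refine measurable_pi_iff.2 fun s => ?_
        by_cases hs : s ≤ t
        · simp only [hs, if_true]
          exact (measurable_pi_apply s).comp measurable_fst
        · simp only [hs, if_false]
          exact measurable_snd
      have h1 : (fun ω (s : ℕ) => X (min s (t + 1)) ω) =
          (fun (q : (ℕ → S) × S) (s : ℕ) => if s ≤ t then q.1 s else q.2) ∘
          (fun ω => ((fun s => X (min s t) ω), X (t + 1) ω)) := by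
        ext ω s
        simp only [Function.comp_apply]
        split_ifs with h
        · rw [min_eq_left h, min_eq_left (by omega)]
        · rw [min_eq_right (by omega)]
      have h2 : (fun (p : S × (ℕ × A → ℝ)) (s : ℕ) => iter st p.1 p.2 (min s (t + 1))) =
          (fun (q : (ℕ → S) × S) (s : ℕ) => if s ≤ t then q.1 s else q.2) ∘
          (fun p => ((fun s => iter st p.1 p.2 (min s t)), iter st p.1 p.2 (t + 1))) := by
        ext ω s
        simp only [Function.comp_apply]
        split_ifs with h
        · rw [min_eq_left h, min_eq_left (by omega)]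
        · rw [min_eq_right (by omega)]
      rw [h1, h2, ← Measure.map_map hG ((hmh t).prodMk (hX (t + 1))), hpair,
        Measure.map_map hG ((hmh' t).prodMk (meas_iter st hst (t + 1)))]
  -- the whole path
  have hm1 : Measurable (fun ω (t : ℕ) => X t ω) := measurable_pi_iff.2 hX
  have hm2 : Measurable (fun (p : S × (ℕ × A → ℝ)) (t : ℕ) => iter st p.1 p.2 t) :=
    measurable_pi_iff.2 fun t => meas_iter st hst t
  have hpm : IsProbabilityMeasure (P.map (fun ω (t : ℕ) => X t ω)) :=
    Measure.isProbabilityMeasure_map hm1.aemeasurable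
  have hfin : ∀ I : Finset ℕ, IsFiniteMeasure ((P.map (fun ω (t : ℕ) => X t ω)).map I.restrict) :=
    fun I => inferInstance
  refine IsProjectiveLimit.unique (P := fun I : Finset ℕ =>
    (P.map (fun ω (t : ℕ) => X t ω)).map I.restrict) (fun I => rfl) (fun I => ?_)
  have hr : Measurable (I.restrict : (ℕ → S) → _) := Finset.measurable_restrict I
  have e1 : (I.restrict : (ℕ → S) → _) ∘ (fun ω (t : ℕ) => X t ω) =
      (I.restrict : (ℕ → S) → _) ∘ (fun ω (s : ℕ) => X (min s (I.sup id)) ω) := by
    ext ω s
    simp only [Function.comp_apply, Finset.restrict]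
    rw [min_eq_left]
    exact Finset.le_sup (f := id) s.2
  have e2 : (I.restrict : (ℕ → S) → _) ∘ (fun (p : S × (ℕ × A → ℝ)) (t : ℕ) => iter st p.1 p.2 t) =
      (I.restrict : (ℕ → S) → _) ∘
        (fun (p : S × (ℕ × A → ℝ)) (s : ℕ) => iter st p.1 p.2 (min s (I.sup id))) := by
    ext ω s
    simp only [Function.comp_apply, Finset.restrict]
    rw [min_eq_left]
    exact Finset.le_sup (f := id) s.2
  show Measure.map I.restrict (Measure.map (fun p t => iter st p.1 p.2 t) P') =
    Measure.map I.restrict (Measure.map (fun ω t => X t ω) P)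
  rw [Measure.map_map hr hm1, Measure.map_map hr hm2, e1, e2, ← Measure.map_map hr (hmh _),
    ← Measure.map_map hr (hmh' _), key]

end traj

end Pool.Agent.V11331.GC
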